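import Mathlib

/-!
Cochains on families of finite subsets of a linearly ordered finite type,
with the simplicial coboundary (raising the cardinality by one).
-/

namespace Pool.Agent.Helper66.Gap

open Finset

set_option linter.unusedSectionVars false

variable {V : Type*} [LinearOrder V] {K : Type*} [Field K]

/-- The incidence sign of `v` in `s`. -/
def sgn (K : Type*) [Field K] (v : V) (s : Finset V) : K := (-1) ^ (s.filter (fun w => w < v)).card

/-- The coboundary. -/
def dd (f : Finset V → K) (s : Finset V) : K := ∑ v ∈ s, sgn K v s * f (s.erase v)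

/-- The contraction with `v`. -/
def iota (v : V) (f : Finset V → K) (s : Finset V) : K :=
  if v ∈ s then 0 else sgn K v s * f (insert v s)

/-- The exterior multiplication with `v`. -/
def eps (v : V) (f : Finset V → K) (s : Finset V) : K :=
  if v ∈ s then sgn K v s * f (s.erase v) else 0

lemma sgn_mul_self (v : V) (s : Finset V) : sgn K v s * sgn K v s = 1 := by
  unfold sgn
  rw [← pow_add, ← two_mul, pow_mul]
  norm_num

lemma sgn_insert_self (v : V) (s : Finset V) : sgn K v (insert v s) = sgn K v s := by
  unfold sgn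
  rw [Finset.filter_insert]
  simp

lemma sgn_erase_self (v : V) (s : Finset V) : sgn K v (s.erase v) = sgn K v s := by
  unfold sgn
  rw [Finset.filter_erase, Finset.erase_eq_of_notMem]
  simp

/-- sign of `v` in `insert w s` -/
lemma sgn_insert {v w : V} {s : Finset V} (hw : w ∉ s) :
    sgn K v (insert w s) = (if w < v then -1 else 1) * sgn K v s := by
  unfold sgn
  rw [Finset.filter_insert]
  split_ifs with h
  · rw [Finset.card_insert_of_notMem (by simp [hw]), pow_succ]
    ring
  · simp

lemma sgn_comm {v w : V} {s : Finset V} (hvw : v ≠ w) (hv : v ∉ s) (hw : w ∉ s) :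
    sgn K w (insert w s) * sgn K v s = - (sgn K v (insert w s) * sgn K w (insert v s)) := by
  rw [sgn_insert_self, sgn_insert hw, sgn_insert hv]
  rcases lt_or_gt_of_ne hvw with h | h
  · rw [if_neg (not_lt.2 h.le), if_pos h]
    ring
  · rw [if_pos h, if_neg (not_lt.2 h.le)]
    ring

lemma dd_empty (f : Finset V → K) : dd f ∅ = 0 := by simp [dd]

lemma dd_insert (f : Finset V → K) {v : V} {s : Finset V} (hv : v ∉ s) :
    dd f (insert v s) = sgn K v s * f s
      + ∑ w ∈ s, sgn K w (insert v s) * f (insert v (s.erase w)) := by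
  unfold dd
  rw [Finset.sum_insert hv, sgn_insert_self, Finset.erase_insert hv]
  congr 1
  refine Finset.sum_congr rfl fun w hw => ?_
  rw [Finset.erase_insert_of_ne]
  rintro rfl
  exact hv hw

/-- The homotopy formula. -/
lemma dd_iota (v : V) (f : Finset V → K) (s : Finset V) :
    dd (iota v f) s + iota v (dd f) s = f s := by
  by_cases hv : v ∈ s
  · have h1 : iota v (dd f) s = 0 := by simp [iota, hv]
    rw [h1, add_zero]
    unfold dd
    rw [Finset.sum_eq_single v]
    · unfold iota
      rw [if_neg (Finset.notMem_erase v s), Finset.insert_erase hv, sgn_erase_self, ← mul_assoc,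
        sgn_mul_self, one_mul]
    · intro w _ hwv
      unfold iota
      rw [if_pos (Finset.mem_erase.2 ⟨hwv.symm, hv⟩), mul_zero]
    · intro h; exact absurd hv h
  · have h1 : iota v (dd f) s = sgn K v s * dd f (insert v s) := by simp [iota, hv]
    rw [h1, dd_insert f hv, mul_add, ← mul_assoc, sgn_mul_self, one_mul, add_left_comm]
    conv_rhs => rw [← add_zero (f s)]
    congr 1
    unfold dd
    rw [Finset.mul_sum, ← Finset.sum_add_distrib]
    refine Finset.sum_eq_zero fun w hw => ?_
    have hwv : w ≠ v := by rintro rfl; exact hv hw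
    have hve : v ∉ s.erase w := fun h => hv (Finset.mem_of_mem_erase h)
    have hwe : w ∉ s.erase w := Finset.notMem_erase w s
    unfold iota
    rw [if_neg hve]
    have hs : insert w (s.erase w) = s := Finset.insert_erase hw
    have h2 := sgn_comm (K := K) hwv.symm hve hwe
    rw [hs] at h2
    have h3 : sgn K w (insert v s) = sgn K w (insert v (s.erase w)) := by
      conv_lhs => rw [← hs, Finset.insert_comm, sgn_insert_self]
    rw [h3]
    linear_combination f (insert v (s.erase w)) * h2

lemma dd_add (f g : Finset V → K) (s : Finset V) : dd (fun t => f t + g t) s = dd f s + dd g s := by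
  unfold dd
  rw [← Finset.sum_add_distrib]
  exact Finset.sum_congr rfl fun v _ => by ring

lemma dd_sub (f g : Finset V → K) (s : Finset V) : dd (fun t => f t - g t) s = dd f s - dd g s := by
  unfold dd
  rw [← Finset.sum_sub_distrib]
  exact Finset.sum_congr rfl fun v _ => by ring

lemma dd_congr {f g : Finset V → K} {s : Finset V} (h : ∀ v ∈ s, f (s.erase v) = g (s.erase v)) :
    dd f s = dd g s := by
  unfold dd
  exact Finset.sum_congr rfl fun v hv => by rw [h v hv]

lemma dd_eq_zero {f : Finset V → K} {s : Finset V} (h : ∀ v ∈ s, f (s.erase v) = 0) :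
    dd f s = 0 := by
  unfold dd
  exact Finset.sum_eq_zero fun v hv => by rw [h v hv, mul_zero]

lemma dd_dd : ∀ (n : ℕ) (f : Finset V → K) (s : Finset V), s.card = n → dd (dd f) s = 0 := by
  intro n
  induction n with
  | zero =>
    intro f s hs
    rw [Finset.card_eq_zero] at hs
    rw [hs, dd_empty]
  | succ n ih =>
    intro f s hs
    obtain ⟨v, hv⟩ : s.Nonempty := by
      rw [← Finset.card_pos, hs]; omega
    have h0 : v ∉ s.erase v := Finset.notMem_erase v s
    have hc : (s.erase v).card = n := by rw [Finset.card_erase_of_mem hv, hs]; omega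
    have e1 := dd_iota v (dd f) (s.erase v)
    have e2 : dd (fun t => dd (iota v f) t + iota v (dd f) t) (s.erase v) = dd f (s.erase v) :=
      dd_congr fun w _ => dd_iota v f _
    rw [dd_add, ih (iota v f) _ hc, zero_add] at e2
    rw [e2] at e1
    have e3 : iota v (dd (dd f)) (s.erase v) = 0 := by
      linear_combination e1
    unfold iota at e3
    rw [if_neg h0, Finset.insert_erase hv] at e3
    rcases mul_eq_zero.1 e3 with h | h
    · exfalso
      have := sgn_mul_self (K := K) v (s.erase v)
      rw [h, mul_zero] at this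
      exact zero_ne_one this
    · exact h

lemma dd_dd' (f : Finset V → K) (s : Finset V) : dd (dd f) s = 0 := dd_dd _ f s rfl

lemma dd_eps (v : V) (f : Finset V → K) (s : Finset V) :
    dd (eps v f) s = - eps v (dd f) s := by
  by_cases hv : v ∈ s
  · have h1 : eps v (dd f) s = sgn K v s * dd f (s.erase v) := by simp [eps, hv]
    rw [h1]
    unfold dd
    rw [← Finset.add_sum_erase _ _ hv]
    have h2 : sgn K v s * eps v f (s.erase v) = 0 := by simp [eps]
    rw [h2, zero_add, Finset.mul_sum, ← Finset.sum_neg_distrib]
    refine Finset.sum_congr rfl fun w hw => ?_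
    have hwv : w ≠ v := Finset.ne_of_mem_erase hw
    have hws : w ∈ s := Finset.mem_of_mem_erase hw
    unfold eps
    rw [if_pos (Finset.mem_erase.2 ⟨hwv.symm, hv⟩), Finset.erase_right_comm]
    set t := (s.erase v).erase w with ht
    have hvt : v ∉ t := by simp [ht]
    have hwt : w ∉ t := by simp [ht]
    have hsv : s.erase v = insert w t := by
      rw [ht, Finset.insert_erase hw]
    have hsw : s.erase w = insert v t := by
      rw [ht, Finset.erase_right_comm, Finset.insert_erase (Finset.mem_erase.2 ⟨hwv.symm, hv⟩)]
    have hs : s = insert v (insert w t) := by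
      rw [← hsv, Finset.insert_erase hv]
    have e1 : sgn K w s = sgn K w (insert v t) := by
      rw [hs, Finset.insert_comm, sgn_insert_self]
    have e2 : sgn K v s = sgn K v (insert w t) := by
      rw [hs, sgn_insert_self]
    rw [hsv, hsw, e1, e2, sgn_insert_self, sgn_insert_self, sgn_insert hvt, sgn_insert hwt]
    rcases lt_or_gt_of_ne hwv with h | h
    · rw [if_neg (not_lt.2 h.le), if_pos h]; ring
    · rw [if_pos h, if_neg (not_lt.2 h.le)]; ring
  · have h1 : eps v (dd f) s = 0 := by simp [eps, hv]
    rw [h1, neg_zero]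
    refine dd_eq_zero fun w _ => ?_
    unfold eps
    rw [if_neg (fun h => hv (Finset.mem_of_mem_erase h))]

/-! ### Exactness of families -/

/-- `Exact K P j`: the cohomology of the family `P` at cardinality `j` vanishes. -/
def Exact (K : Type*) [Field K] (P : Finset V → Prop) (j : ℕ) : Prop :=
  ∀ f : Finset V → K, (∀ s, f s ≠ 0 → P s ∧ s.card = j) → (∀ s, P s → dd f s = 0) →
    ∃ g : Finset V → K, (∀ s, g s ≠ 0 → P s ∧ s.card + 1 = j) ∧ ∀ s, P s → dd g s = f s

/-- convexity of a family -/
def Convex (P : Finset V → Prop) : Prop :=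
  ∀ r s t, P r → P t → r ⊆ s → s ⊆ t → P s

lemma Exact.congr {P Q : Finset V → Prop} {j : ℕ} (h : ∀ s, P s ↔ Q s) (hP : Exact K P j) :
    Exact K Q j := by
  have : P = Q := funext fun s => propext (h s)
  rwa [← this]

lemma exact_congr {P Q : Finset V → Prop} {j : ℕ} (h : ∀ s, P s ↔ Q s) :
    Exact K P j ↔ Exact K Q j :=
  ⟨Exact.congr h, Exact.congr fun s => (h s).symm⟩

/-- no members of cardinality `j` -/
lemma exact_of_no_card {P : Finset V → Prop} {j : ℕ} (h : ∀ s, P s → s.card ≠ j) :
    Exact K P j := by
  intro f hf _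
  refine ⟨fun _ => 0, fun s hs => absurd rfl hs, fun s hs => ?_⟩
  rw [dd_eq_zero fun _ _ => rfl]
  by_contra hne
  have := hf s (Ne.symm hne)
  exact h s this.1 this.2

/-- restriction of a cochain to a family -/
noncomputable def rst (P : Finset V → Prop) (f : Finset V → K) (s : Finset V) : K :=
  haveI := Classical.propDecidable (P s)
  if P s then f s else 0

lemma rst_of {P : Finset V → Prop} {f : Finset V → K} {s : Finset V} (h : P s) :
    rst P f s = f s := by
  unfold rst; rw [if_pos h]

lemma rst_of_not {P : Finset V → Prop} {f : Finset V → K} {s : Finset V} (h : ¬ P s) :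
    rst P f s = 0 := by
  unfold rst; rw [if_neg h]

lemma rst_ne {P : Finset V → Prop} {f : Finset V → K} {s : Finset V} (h : rst P f s ≠ 0) :
    P s ∧ f s ≠ 0 := by
  by_cases hP : P s
  · rw [rst_of hP] at h; exact ⟨hP, h⟩
  · rw [rst_of_not hP] at h; exact absurd rfl h

lemma dd_ne_zero {f : Finset V → K} {s : Finset V} (h : dd f s ≠ 0) :
    ∃ v ∈ s, f (s.erase v) ≠ 0 := by
  by_contra hc
  push Not at hc
  exact h (dd_eq_zero hc)

/-- cardinality bookkeeping -/
lemma dd_card {f : Finset V → K} {j : ℕ} (hf : ∀ s, f s ≠ 0 → s.card + 1 = j) {s : Finset V}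
    (h : dd f s ≠ 0) : s.card = j := by
  obtain ⟨v, hv, hne⟩ := dd_ne_zero h
  have := hf _ hne
  rw [Finset.card_erase_of_mem hv] at this
  have := Finset.card_pos.2 ⟨v, hv⟩
  omega

/-- `d_P ∘ d_P = 0` for convex `P`. -/
lemma dd_rst_dd {P : Finset V → Prop} (hP : Convex P) {f : Finset V → K}
    (hf : ∀ s, f s ≠ 0 → P s) {s : Finset V} (hs : P s) : dd (rst P (dd f)) s = 0 := by
  rw [← dd_dd' f s]
  refine dd_congr fun v hv => ?_
  by_cases h : P (s.erase v)
  · rw [rst_of h]
  · rw [rst_of_not h]
    by_contra hne
    obtain ⟨w, hw, hfw⟩ := dd_ne_zero (Ne.symm hne)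
    exact h (hP _ _ _ (hf _ hfw) hs (Finset.erase_subset _ _) (Finset.erase_subset _ _))

section LowerUpper

variable {P L U : Finset V → Prop}

/-- a family split in a lower part and an upper part -/
lemma exact_of_lower_upper (hP : Convex P) (hPLU : ∀ s, P s ↔ L s ∨ U s)
    (hLU : ∀ s t, U s → L t → ¬ s ⊆ t) {j : ℕ} (hL : Exact K L j) (hU : Exact K U j) :
    Exact K P j := by
  intro f hf hdf
  have hdisj : ∀ s, L s → ¬ U s := fun s h1 h2 => hLU s s h2 h1 (Finset.Subset.refl s)
  obtain ⟨gL, hgL, hdgL⟩ := hL (rst L f)
    (fun s hs => ⟨(rst_ne hs).1, (hf s (rst_ne hs).2).2⟩)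
    (fun s hs => by
      rw [← hdf s ((hPLU s).2 (Or.inl hs))]
      refine dd_congr fun v hv => ?_
      by_cases h : L (s.erase v)
      · rw [rst_of h]
      · rw [rst_of_not h]
        by_contra hne
        rcases (hPLU _).1 (hf _ (Ne.symm hne)).1 with h1 | h1
        · exact h h1
        · exact hLU _ _ h1 hs (Finset.erase_subset _ _))
  have hgLP : ∀ s, gL s ≠ 0 → P s := fun s hs => (hPLU s).2 (Or.inl (hgL s hs).1)
  obtain ⟨gU, hgU, hdgU⟩ := hU (fun s => f s - rst P (dd gL) s)
    (fun s hs => by
      by_cases hPs : P s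
      · rcases (hPLU s).1 hPs with h | h
        · exfalso
          apply hs
          rw [rst_of hPs, hdgL s h, rst_of h, sub_self]
        · refine ⟨h, ?_⟩
          by_contra hc
          apply hs
          have h1 : f s = 0 := by
            by_contra h1; exact hc (hf s h1).2
          have h2 : dd gL s = 0 := by
            by_contra h2; exact hc (dd_card (fun s hs => (hgL s hs).2) h2)
          rw [rst_of hPs, h1, h2, sub_self]
      · exfalso
        apply hs
        rw [rst_of_not hPs, sub_zero]
        by_contra h1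
        exact hPs (hf s h1).1)
    (fun s hs => by
      have hPs : P s := (hPLU s).2 (Or.inr hs)
      rw [dd_sub, hdf s hPs, dd_rst_dd hP hgLP hPs, sub_self])
  refine ⟨fun s => gL s + gU s, fun s hs => ?_, fun s hs => ?_⟩
  · by_cases h : gL s = 0
    · have h2 : gU s ≠ 0 := by
        intro h2; apply hs; show gL s + gU s = 0; rw [h, h2, add_zero]
      exact ⟨(hPLU s).2 (Or.inr (hgU s h2).1), (hgU s h2).2⟩
    · exact ⟨(hPLU s).2 (Or.inl (hgL s h).1), (hgL s h).2⟩
  · rw [dd_add]
    rcases (hPLU s).1 hs with h | h
    · rw [hdgL s h, rst_of h, dd_eq_zero (f := gU), add_zero]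
      intro v hv
      by_contra hne
      exact hLU _ _ (hgU _ hne).1 h (Finset.erase_subset _ _)
    · rw [hdgU s h, rst_of hs]
      ring

/-- total and lower exact implies upper exact -/
lemma exact_upper (hP : Convex P) (hPLU : ∀ s, P s ↔ L s ∨ U s)
    (hLU : ∀ s t, U s → L t → ¬ s ⊆ t) {j : ℕ} (hT : Exact K P j)
    (hL : ∀ i, i + 1 = j → Exact K L i) : Exact K U j := by
  intro f hf hdf
  have hdisj : ∀ s, L s → f s = 0 := by
    intro s h1
    by_contra h2
    exact hLU s s (hf s h2).1 h1 (Finset.Subset.refl s)
  obtain ⟨g, hg, hdg⟩ := hT f (fun s hs => ⟨(hPLU s).2 (Or.inr (hf s hs).1), (hf s hs).2⟩)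
    (fun s hs => by
      rcases (hPLU s).1 hs with h | h
      · refine dd_eq_zero fun v hv => ?_
        by_contra hne
        exact hLU _ _ (hf _ hne).1 h (Finset.erase_subset _ _)
      · exact hdf s h)
  rcases Nat.eq_zero_or_pos j with hj | hj
  · have hg0 : ∀ s, g s = 0 := by
      intro s; by_contra h; have := (hg s h).2; omega
    refine ⟨g, fun s hs => absurd (hg0 s) hs, fun s hs => hdg s ((hPLU s).2 (Or.inr hs))⟩
  · obtain ⟨i, rfl⟩ : ∃ i, i + 1 = j := ⟨j - 1, by omega⟩
    obtain ⟨h, hh, hdh⟩ := hL i rfl (rst L g)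
      (fun s hs => ⟨(rst_ne hs).1, by have := (hg s (rst_ne hs).2).2; omega⟩)
      (fun s hs => by
        have e : dd (rst L g) s = dd g s := by
          refine dd_congr fun v hv => ?_
          by_cases h : L (s.erase v)
          · rw [rst_of h]
          · rw [rst_of_not h]
            by_contra hne
            rcases (hPLU _).1 (hg _ (Ne.symm hne)).1 with h1 | h1
            · exact h h1
            · exact hLU _ _ h1 hs (Finset.erase_subset _ _)
        rw [e, hdg s ((hPLU s).2 (Or.inl hs)), hdisj s hs])
    have hhP : ∀ s, h s ≠ 0 → P s := fun s hs => (hPLU s).2 (Or.inl (hh s hs).1)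
    refine ⟨fun s => g s - rst P (dd h) s, fun s hs => ?_, fun s hs => ?_⟩
    · by_cases hPs : P s
      · rcases (hPLU s).1 hPs with h1 | h1
        · exfalso
          apply hs
          show g s - rst P (dd h) s = 0
          rw [rst_of hPs, hdh s h1, rst_of h1, sub_self]
        · refine ⟨h1, ?_⟩
          by_contra hc
          apply hs
          have h1 : g s = 0 := by
            by_contra h1; exact hc (hg s h1).2
          have h2 : dd h s = 0 := by
            by_contra h2
            have := dd_card (fun s hs => (hh s hs).2) h2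
            exact hc (by omega)
          show g s - rst P (dd h) s = 0
          rw [rst_of hPs, h1, h2, sub_self]
      · exfalso
        apply hs
        show g s - rst P (dd h) s = 0
        rw [rst_of_not hPs, sub_zero]
        by_contra h1
        exact hPs (hg s h1).1
    · have hPs : P s := (hPLU s).2 (Or.inr hs)
      rw [dd_sub, hdg s hPs, dd_rst_dd hP hhP hPs, sub_zero]

/-- total and upper exact implies lower exact -/
lemma exact_lower (hP : Convex P) (hPLU : ∀ s, P s ↔ L s ∨ U s)
    (hLU : ∀ s t, U s → L t → ¬ s ⊆ t) {j : ℕ} (hT : Exact K P j) (hU : Exact K U (j + 1)) :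
    Exact K L j := by
  intro f hf hdf
  have hfP : ∀ s, f s ≠ 0 → P s := fun s hs => (hPLU s).2 (Or.inl (hf s hs).1)
  obtain ⟨g, hg, hdg⟩ := hU (rst P (dd f))
    (fun s hs => by
      have h1 := rst_ne hs
      rcases (hPLU s).1 h1.1 with h | h
      · exact absurd (hdf s h) h1.2
      · exact ⟨h, dd_card (j := j + 1) (fun s hs => by rw [(hf s hs).2]) h1.2⟩)
    (fun s hs => dd_rst_dd hP hfP ((hPLU s).2 (Or.inr hs)))
  obtain ⟨h, hh, hdh⟩ := hT (fun s => f s - g s)
    (fun s hs => by
      by_cases h : f s = 0
      · have h2 : g s ≠ 0 := by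
          intro h2; apply hs; rw [h, h2, sub_zero]
        exact ⟨(hPLU s).2 (Or.inr (hg s h2).1), by have := (hg s h2).2; omega⟩
      · exact ⟨hfP s h, (hf s h).2⟩)
    (fun s hs => by
      rw [dd_sub]
      rcases (hPLU s).1 hs with h | h
      · rw [hdf s h, dd_eq_zero (f := g), sub_zero]
        intro v hv
        by_contra hne
        exact hLU _ _ (hg _ hne).1 h (Finset.erase_subset _ _)
      · rw [hdg s h, rst_of hs, sub_self])
  refine ⟨rst L h, fun s hs => ⟨(rst_ne hs).1, (hh s (rst_ne hs).2).2⟩, fun s hs => ?_⟩
  have hPs := (hPLU s).2 (Or.inl hs)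
  have e : dd (rst L h) s = dd h s := by
    refine dd_congr fun v hv => ?_
    by_cases h1 : L (s.erase v)
    · rw [rst_of h1]
    · rw [rst_of_not h1]
      by_contra hne
      rcases (hPLU _).1 (hh _ (Ne.symm hne)).1 with h2 | h2
      · exact h1 h2
      · exact hLU _ _ h2 hs (Finset.erase_subset _ _)
  rw [e, hdh s hPs]
  have : g s = 0 := by
    by_contra h2
    exact hLU s s (hg s h2).1 hs (Finset.Subset.refl s)
  rw [this, sub_zero]

end LowerUpper

/-- families closed under toggling `w` are exact everywhere -/
lemma exact_of_toggle {P : Finset V → Prop} (w : V)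
    (h : ∀ s, w ∉ s → (P s ↔ P (insert w s))) (j : ℕ) : Exact K P j := by
  intro f hf hdf
  refine ⟨iota w f, fun s hs => ?_, fun s hs => ?_⟩
  · by_cases hw : w ∈ s
    · exfalso; apply hs; simp [iota, hw]
    · have h1 : f (insert w s) ≠ 0 := by
        intro h1; apply hs; simp [iota, hw, h1]
      have h2 := hf _ h1
      rw [Finset.card_insert_of_notMem hw] at h2
      exact ⟨(h s hw).2 h2.1, h2.2⟩
  · have e := dd_iota w f s
    have e2 : iota w (dd f) s = 0 := by
      by_cases hw : w ∈ s
      · simp [iota, hw]
      · unfold iota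
        rw [if_neg hw, hdf _ ((h s hw).1 hs), mul_zero]
    rw [e2, add_zero] at e
    exact e

/-- the link of a family at the set `Y` -/
def link (P : Finset V → Prop) (Y : Finset V) (s : Finset V) : Prop :=
  Disjoint s Y ∧ P (s ∪ Y)

/-- the members avoiding `T` -/
def avoid (P : Finset V → Prop) (T : Finset V) (s : Finset V) : Prop :=
  Disjoint s T ∧ P s

lemma Convex.link {P : Finset V → Prop} (hP : Convex P) (Y : Finset V) : Convex (link P Y) := by
  intro r s t hr ht hrs hst
  refine ⟨Finset.disjoint_of_subset_left hst ht.1, hP _ _ _ hr.2 ht.2 ?_ ?_⟩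
  · exact Finset.union_subset_union_left hrs
  · exact Finset.union_subset_union_left hst

lemma Convex.avoid {P : Finset V → Prop} (hP : Convex P) (Y : Finset V) : Convex (avoid P Y) := by
  intro r s t hr ht hrs hst
  exact ⟨Finset.disjoint_of_subset_left hst ht.1, hP _ _ _ hr.2 ht.2 hrs hst⟩

/-- shifting: from the link to the family, when all members contain `x` -/
lemma exact_of_link_one {P : Finset V → Prop} {x : V} (hx : ∀ s, P s → x ∈ s) {j : ℕ}
    (h : ∀ i, i + 1 = j → Exact K (link P {x}) i) : Exact K P j := by
  rcases Nat.eq_zero_or_pos j with hj | hj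
  · refine exact_of_no_card fun s hs => ?_
    have := Finset.card_pos.2 ⟨x, hx s hs⟩
    omega
  obtain ⟨i, rfl⟩ : ∃ i, i + 1 = j := ⟨j - 1, by omega⟩
  intro f hf hdf
  have hlk : ∀ s, link P {x} s ↔ x ∉ s ∧ P (insert x s) := by
    intro s
    unfold link
    rw [Finset.disjoint_singleton_right, Finset.union_comm, ← Finset.insert_eq]
  obtain ⟨g, hg, hdg⟩ := h i rfl (iota x f)
    (fun s hs => by
      rw [hlk]
      by_cases hxs : x ∈ s
      · exfalso; apply hs; simp [iota, hxs]
      · have h1 : f (insert x s) ≠ 0 := by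
          intro h1; apply hs; simp [iota, hxs, h1]
        have h2 := hf _ h1
        rw [Finset.card_insert_of_notMem hxs] at h2
        exact ⟨⟨hxs, h2.1⟩, by omega⟩)
    (fun s hs => by
      rw [hlk] at hs
      have e := dd_iota x f s
      have e1 : f s = 0 := by
        by_contra hne; exact hs.1 (hx s (hf s hne).1)
      have e2 : iota x (dd f) s = 0 := by
        unfold iota
        rw [if_neg hs.1, hdf _ hs.2, mul_zero]
      rw [e2, e1, add_zero] at e
      exact e)
  refine ⟨fun s => - eps x g s, fun s hs => ?_, fun s hs => ?_⟩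
  · by_cases hxs : x ∈ s
    · have h1 : g (s.erase x) ≠ 0 := by
        intro h1; apply hs; simp [eps, hxs, h1]
      have h2 := hg _ h1
      rw [hlk, Finset.insert_erase hxs, Finset.card_erase_of_mem hxs] at h2
      have := Finset.card_pos.2 ⟨x, hxs⟩
      exact ⟨h2.1.2, by omega⟩
    · exfalso; apply hs; simp [eps, hxs]
  · have e : dd (fun s => - eps x g s) s = - dd (eps x g) s := by
      unfold dd
      rw [← Finset.sum_neg_distrib]
      exact Finset.sum_congr rfl fun v _ => by ring
    have hxs := hx s hs
    rw [e, dd_eps, neg_neg]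
    unfold eps
    rw [if_pos hxs]
    have hl : link P {x} (s.erase x) := by
      rw [hlk, Finset.insert_erase hxs]
      exact ⟨Finset.notMem_erase x s, hs⟩
    rw [hdg _ hl]
    unfold iota
    rw [if_neg (Finset.notMem_erase x s), Finset.insert_erase hxs, sgn_erase_self, ← mul_assoc,
      sgn_mul_self, one_mul]

/-- shifting: from the family to the link, when all members contain `x` -/
lemma exact_link_one {P : Finset V → Prop} {x : V} (hx : ∀ s, P s → x ∈ s) {j : ℕ}
    (h : Exact K P (j + 1)) : Exact K (link P {x}) j := by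
  intro f hf hdf
  have hlk : ∀ s, link P {x} s ↔ x ∉ s ∧ P (insert x s) := by
    intro s
    unfold link
    rw [Finset.disjoint_singleton_right, Finset.union_comm, ← Finset.insert_eq]
  obtain ⟨g, hg, hdg⟩ := h (eps x f)
    (fun s hs => by
      by_cases hxs : x ∈ s
      · have h1 : f (s.erase x) ≠ 0 := by
          intro h1; apply hs; simp [eps, hxs, h1]
        have h2 := hf _ h1
        rw [hlk, Finset.insert_erase hxs, Finset.card_erase_of_mem hxs] at h2
        have := Finset.card_pos.2 ⟨x, hxs⟩
        exact ⟨h2.1.2, by omega⟩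
      · exfalso; apply hs; simp [eps, hxs])
    (fun s hs => by
      have hxs := hx s hs
      rw [dd_eps]
      unfold eps
      rw [if_pos hxs, hdf (s.erase x), mul_zero, neg_zero]
      rw [hlk, Finset.insert_erase hxs]
      exact ⟨Finset.notMem_erase x s, hs⟩)
  refine ⟨fun s => - iota x g s, fun s hs => ?_, fun s hs => ?_⟩
  · rw [hlk]
    by_cases hxs : x ∈ s
    · exfalso; apply hs; simp [iota, hxs]
    · have h1 : g (insert x s) ≠ 0 := by
        intro h1; apply hs; simp [iota, hxs, h1]
      have h2 := hg _ h1
      rw [Finset.card_insert_of_notMem hxs] at h2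
      exact ⟨⟨hxs, h2.1⟩, by omega⟩
  · have e : dd (fun s => - iota x g s) s = - dd (iota x g) s := by
      unfold dd
      rw [← Finset.sum_neg_distrib]
      exact Finset.sum_congr rfl fun v _ => by ring
    rw [hlk] at hs
    have e1 := dd_iota x g s
    have e2 : g s = 0 := by
      by_contra hne; exact hs.1 (hx s (hg s hne).1)
    have e3 : iota x (dd g) s = f s := by
      unfold iota
      rw [if_neg hs.1, hdg _ hs.2]
      unfold eps
      rw [if_pos (Finset.mem_insert_self x s), Finset.erase_insert hs.1, sgn_insert_self,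
        ← mul_assoc, sgn_mul_self, one_mul]
    rw [e]
    linear_combination (-1) * e1 - e2 + e3

/-- deletion and link -/
lemma exact_of_avoid_link {P : Finset V → Prop} (hP : Convex P) (x : V) {j : ℕ}
    (h1 : Exact K (avoid P {x}) j) (h2 : ∀ i, i + 1 = j → Exact K (link P {x}) i) :
    Exact K P j := by
  have hU : Exact K (fun s => x ∈ s ∧ P s) j := by
    refine exact_of_link_one (x := x) (fun s hs => hs.1) fun i hi => ?_
    refine (h2 i hi).congr fun s => ?_
    unfold link
    simp
  refine exact_of_lower_upper hP (L := avoid P {x}) (U := fun s => x ∈ s ∧ P s) ?_ ?_ h1 hU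
  · intro s
    unfold avoid
    rw [Finset.disjoint_singleton_right]
    tauto
  · intro s t hs ht hst
    unfold avoid at ht
    rw [Finset.disjoint_singleton_right] at ht
    exact ht.1 (hst hs.1)

/-- total and link give deletion -/
lemma exact_avoid {P : Finset V → Prop} (hP : Convex P) (x : V) {j : ℕ}
    (h1 : Exact K P j) (h2 : Exact K (link P {x}) j) :
    Exact K (avoid P {x}) j := by
  have hU : Exact K (fun s => x ∈ s ∧ P s) (j + 1) := by
    refine exact_of_link_one (x := x) (fun s hs => hs.1) fun i hi => ?_
    obtain rfl : i = j := by omega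
    refine h2.congr fun s => ?_
    unfold link
    simp
  refine exact_lower hP (L := avoid P {x}) (U := fun s => x ∈ s ∧ P s) ?_ ?_ h1 hU
  · intro s
    unfold avoid
    rw [Finset.disjoint_singleton_right]
    tauto
  · intro s t hs ht hst
    unfold avoid at ht
    rw [Finset.disjoint_singleton_right] at ht
    exact ht.1 (hst hs.1)

/-- the main reduction: delete `T`, all links at nonempty subsets of `T` one step down -/
lemma exact_of_avoid_links : ∀ (T : Finset V) {P : Finset V → Prop} (_ : Convex P) {j : ℕ}
    (_ : Exact K (avoid P T) j)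
    (_ : ∀ Y ⊆ T, Y.Nonempty → ∀ i, i + 1 = j → Exact K (link P Y) i), Exact K P j := by
  intro T
  induction T using Finset.induction_on with
  | empty =>
    intro P hP j h1 h2
    refine h1.congr fun s => ?_
    unfold avoid
    simp
  | insert x T hx ih =>
    intro P hP j h1 h2
    refine exact_of_avoid_link hP x ?_ (fun i hi => h2 {x} (by simp) (by simp) i hi)
    refine ih (hP.avoid {x}) ?_ ?_
    · refine h1.congr fun s => ?_
      unfold avoid
      rw [Finset.disjoint_insert_right, Finset.disjoint_singleton_right]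
      tauto
    · intro Y hYT hY i hi
      have hxY : x ∉ Y := fun h => hx (hYT h)
      have e : ∀ s, avoid (link P Y) {x} s ↔ link (avoid P {x}) Y s := by
        intro s
        unfold avoid link
        simp only [Finset.disjoint_singleton_right, Finset.mem_union]
        tauto
      refine Exact.congr e ?_
      refine exact_avoid (hP.link Y) x (h2 Y (hYT.trans (Finset.subset_insert _ _)) hY i hi) ?_
      refine (h2 (insert x Y) (Finset.insert_subset_insert _ hYT) (by simp) i hi).congr fun s => ?_
      unfold link
      rw [Finset.disjoint_insert_right, Finset.disjoint_singleton_right, Finset.disjoint_union_left,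
        Finset.disjoint_singleton_left, Finset.union_assoc, ← Finset.insert_eq]
      tauto

end Pool.Agent.Helper66.Gap
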