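import Mathlib

/-!
Definitions used in the statement of the result on powers of edge ideals of gap-free graphs.
-/

namespace Pool.Agent.Helper66.Gap

open MvPolynomial

/-- A graph is gap-free if any two disjoint edges are joined by an edge. -/
def GapFree {V : Type*} (G : SimpleGraph V) : Prop :=
  ∀ u v x y, G.Adj u v → G.Adj x y → u ≠ x → u ≠ y → v ≠ x → v ≠ y →
    G.Adj u x ∨ G.Adj u y ∨ G.Adj v x ∨ G.Adj v y

/-- The edge ideal of `G` in the polynomial ring over `K` with one variable for each vertex. -/
noncomputable def edgeIdeal {V : Type*} (K : Type*) [Field K] (G : SimpleGraph V) : Ideal (MvPolynomial V K) :=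
  Ideal.span {p | ∃ u v, G.Adj u v ∧ p = X u * X v}

/-- Let `S = K[V]`. The vector `f` is homogeneous of degree `e` in the graded free module with
one basis element of degree `dg i` for every `i`: each monomial `x^c` of the coordinate `f i`
has degree `e - dg i`. -/
def HomVec {V K : Type*} [Field K] {m : ℕ} (dg : Fin m → ℕ) (e : ℕ)
    (f : Fin m → MvPolynomial V K) : Prop :=
  ∀ i, ∀ c ∈ (f i).support, c.degree + dg i = e

/-- A graded free resolution of the ideal `J` of `S = K[V]` by finitely generated free modules:
`F k = S ^ (rk k)`, where the `i`-th basis element of `F k` has degree `dg k i`, an augmentation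
`F 0 → S` with image `J`, and differentials `F (k+1) → F k`, all homogeneous of degree zero,
such that the augmented complex is exact. -/
structure GradedFreeRes {V K : Type*} [Field K] (J : Ideal (MvPolynomial V K)) where
  /-- ranks of the free modules -/
  rk : ℕ → ℕ
  /-- degrees of the basis elements -/
  dg : (k : ℕ) → Fin (rk k) → ℕ
  /-- the augmentation -/
  aug : (Fin (rk 0) → MvPolynomial V K) →ₗ[MvPolynomial V K] MvPolynomial V K
  /-- the differentials -/
  bd : (k : ℕ) → (Fin (rk (k + 1)) → MvPolynomial V K) →ₗ[MvPolynomial V K]
    (Fin (rk k) → MvPolynomial V K)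
  /-- the augmentation is homogeneous -/
  aug_hom : ∀ i, (aug (Pi.single i 1)).IsHomogeneous (dg 0 i)
  /-- the differentials are homogeneous -/
  bd_hom : ∀ k i, HomVec (dg k) (dg (k + 1) i) (bd k (Pi.single i 1))
  /-- the image of the augmentation is the ideal -/
  range_aug : LinearMap.range aug = J
  /-- exactness at `F 0` -/
  exact_zero : LinearMap.ker aug = LinearMap.range (bd 0)
  /-- exactness at `F (k+1)` -/
  exact_succ : ∀ k, LinearMap.ker (bd k) = LinearMap.range (bd (k + 1))

/-- `reg J ≤ r`: there is a graded free resolution of `J` in which all basis elements of the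
`k`-th module have degree at most `k + r`. -/
def RegLE {V K : Type*} [Field K] (J : Ideal (MvPolynomial V K)) (r : ℕ) : Prop :=
  ∃ R : GradedFreeRes J, ∀ k i, R.dg k i ≤ k + r

/-- `reg J = r`: the number `r` is the least one with `reg J ≤ r`. -/
def IsReg {V K : Type*} [Field K] (J : Ideal (MvPolynomial V K)) (r : ℕ) : Prop :=
  IsLeast {t | RegLE J t} r

/-- `J` is generated in degree `d` and has a linear resolution: there is a graded free resolution
of `J` in which all basis elements of the `k`-th module have degree exactly `k + d`. -/
def HasLinearRes {V K : Type*} [Field K] (J : Ideal (MvPolynomial V K)) (d : ℕ) : Prop :=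
  ∃ R : GradedFreeRes J, ∀ k i, R.dg k i = k + d

end Pool.Agent.Helper66.Gap
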