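import Pool.Agent.Helper66.Gap.Packing
import Pool.Agent.Helper66.Gap.Defs

/-!
Near-perfect packings in gap-free graphs, via Tutte's theorem.
-/

namespace Pool.Agent.Helper66.Gap

open Finset

set_option linter.unusedSectionVars false

lemma GapFree.adj {V : Type*} {G : SimpleGraph V} (h : GapFree G) {u v x y : V}
    (h1 : G.Adj u v) (h2 : G.Adj x y) : G.Adj u x ∨ G.Adj u y ∨ G.Adj v x ∨ G.Adj v y := by
  by_cases e1 : u = x
  · subst e1; exact Or.inr (Or.inl h2)
  by_cases e2 : u = y
  · subst e2; exact Or.inl h2.symm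
  by_cases e3 : v = x
  · subst e3; exact Or.inr (Or.inr (Or.inr h2))
  by_cases e4 : v = y
  · subst e4; exact Or.inr (Or.inr (Or.inl h2.symm))
  exact h u v x y h1 h2 e1 e2 e3 e4

variable {V : Type*} [Fintype V] [DecidableEq V]

/-- token graph with `e` additional universal vertices -/
def tg (G : SimpleGraph V) (c : V →₀ ℕ) (e : ℕ) : SimpleGraph (Tok c ⊕ Fin e) where
  Adj x y := match x, y with
    | Sum.inl x, Sum.inl y => G.Adj x.1 y.1
    | Sum.inl _, Sum.inr _ => True
    | Sum.inr _, Sum.inl _ => True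
    | Sum.inr i, Sum.inr j => i ≠ j
  symm := ⟨by
    rintro (x | i) (y | j) h
    · exact SimpleGraph.Adj.symm (G := G) h
    · trivial
    · trivial
    · exact Ne.symm h⟩
  loopless := ⟨by
    rintro (x | i) h
    · exact G.loopless.irrefl _ h
    · exact h rfl⟩

/-- the graph left after deleting `u` -/
abbrev rem {W : Type*} (Γ : SimpleGraph W) (u : Set W) :=
  ((⊤ : Γ.Subgraph).deleteVerts u).coe

lemma rem_adj {W : Type*} (Γ : SimpleGraph W) (u : Set W)
    (x y : ((⊤ : Γ.Subgraph).deleteVerts u).verts) :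
    (rem Γ u).Adj x y ↔ Γ.Adj x.1 y.1 := by
  have hx := x.2
  have hy := y.2
  simp only [SimpleGraph.Subgraph.deleteVerts_verts, Set.mem_sdiff] at hx hy
  rw [SimpleGraph.Subgraph.coe_adj, SimpleGraph.Subgraph.deleteVerts_adj]
  simp [hx.2, hy.2]

lemma violator_two {W : Type*} [Finite W] {Γ : SimpleGraph W} {u : Set W}
    (hW : Even (Nat.card W)) (hu : Γ.IsTutteViolator u) :
    ¬ ∀ x y : ((⊤ : Γ.Subgraph).deleteVerts u).verts, (rem Γ u).Reachable x y := by
  intro hr
  unfold SimpleGraph.IsTutteViolator at hu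
  have h1 : (rem Γ u).oddComponents.ncard ≤ 1 := by
    rw [Set.ncard_le_one_iff]
    intro a b _ _
    induction a using SimpleGraph.ConnectedComponent.ind with
    | _ x =>
      induction b using SimpleGraph.ConnectedComponent.ind with
      | _ y => exact SimpleGraph.ConnectedComponent.eq.2 (hr x y)
  have h2 : u.ncard = 0 := by
    unfold rem at h1
    omega
  have h3 : (rem Γ u).oddComponents.ncard = 1 := by
    unfold rem at h1 ⊢
    omega
  have h4 : u = ∅ := (Set.ncard_eq_zero (Set.toFinite u)).1 h2
  have h5 := (SimpleGraph.odd_ncard_oddComponents (G := rem Γ u)).1 (by rw [h3]; exact odd_one)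
  have h6 : Nat.card ((⊤ : Γ.Subgraph).deleteVerts u).verts = Nat.card W := by
    rw [h4]
    refine Nat.card_congr ?_
    refine Equiv.subtypeUnivEquiv ?_
    intro x
    simp
  rw [h6] at h5
  exact (Nat.not_even_iff_odd.2 h5) hW

open Classical in
/-- No Tutte violator in the token graph. -/
lemma no_violator {G : SimpleGraph V} (hG : GapFree G) (c : V →₀ ℕ) (e : ℕ)
    (heven : Even (Nat.card (Tok c ⊕ Fin e)))
    (h : ∀ E : Finset V, E.Nonempty → (∀ v ∈ E, 0 < c v) → (∀ u ∈ E, ∀ v ∈ E, ¬ G.Adj u v) →
      wt c E + 1 ≤ wt c (univ.filter (fun v => ∃ e ∈ E, G.Adj e v))) (u : Set (Tok c ⊕ Fin e)) :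
    ¬ (tg G c e).IsTutteViolator u := by
  intro hu
  have htwo := violator_two heven hu
  by_cases hinr : ∃ i : Fin e, Sum.inr i ∉ u
  · obtain ⟨i, hi⟩ := hinr
    apply htwo
    have key : ∀ x : ((⊤ : (tg G c e).Subgraph).deleteVerts u).verts,
        (rem (tg G c e) u).Reachable x ⟨Sum.inr i, by simp [hi]⟩ := by
      rintro ⟨x, hx⟩
      by_cases hxi : x = Sum.inr i
      · subst hxi; exact SimpleGraph.Reachable.refl _
      · refine SimpleGraph.Adj.reachable ?_
        rw [rem_adj]
        rcases x with x | j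
        · trivial
        · intro h; apply hxi; rw [h]
    intro x y
    exact (key x).trans (key y).symm
  push Not at hinr
  have hv : ∀ x : ((⊤ : (tg G c e).Subgraph).deleteVerts u).verts,
      ∃ t : Tok c, x.1 = Sum.inl t ∧ Sum.inl t ∉ u := by
    rintro ⟨x, hx⟩
    simp only [SimpleGraph.Subgraph.deleteVerts_verts, Set.mem_sdiff] at hx
    rcases x with t | i
    · exact ⟨t, rfl, hx.2⟩
    · exact absurd (hinr i) hx.2
  choose tok htok htoku using hv
  let A : Finset (Tok c) := univ.filter (fun x => (Sum.inl x : Tok c ⊕ Fin e) ∉ u ∧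
    ∀ y : Tok c, (Sum.inl y : Tok c ⊕ Fin e) ∉ u → ¬ G.Adj x.1 y.1)
  have hreach : ∀ x y, tok x ∉ A → tok y ∉ A → (rem (tg G c e) u).Reachable x y := by
    intro x y hx hy
    have hx' : ∃ x' : Tok c, (Sum.inl x' : Tok c ⊕ Fin e) ∉ u ∧ G.Adj (tok x).1 x'.1 := by
      by_contra hc
      push Not at hc
      exact hx (Finset.mem_filter.2 ⟨Finset.mem_univ _, htoku x, hc⟩)
    have hy' : ∃ y' : Tok c, (Sum.inl y' : Tok c ⊕ Fin e) ∉ u ∧ G.Adj (tok y).1 y'.1 := by
      by_contra hc
      push Not at hc
      exact hy (Finset.mem_filter.2 ⟨Finset.mem_univ _, htoku y, hc⟩)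
    obtain ⟨x', hx'u, hxx'⟩ := hx'
    obtain ⟨y', hy'u, hyy'⟩ := hy'
    let X' : ((⊤ : (tg G c e).Subgraph).deleteVerts u).verts := ⟨Sum.inl x', by simp [hx'u]⟩
    let Y' : ((⊤ : (tg G c e).Subgraph).deleteVerts u).verts := ⟨Sum.inl y', by simp [hy'u]⟩
    have a1 : (rem (tg G c e) u).Adj x X' := by
      rw [rem_adj, htok x]; exact hxx'
    have a2 : (rem (tg G c e) u).Adj y Y' := by
      rw [rem_adj, htok y]; exact hyy'
    rcases hG.adj hxx' hyy' with h1 | h1 | h1 | h1
    · have a3 : (rem (tg G c e) u).Adj x y := by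
        rw [rem_adj, htok x, htok y]; exact h1
      exact a3.reachable
    · have a3 : (rem (tg G c e) u).Adj x Y' := by
        rw [rem_adj, htok x]; exact h1
      exact a3.reachable.trans a2.reachable.symm
    · have a3 : (rem (tg G c e) u).Adj X' y := by
        rw [rem_adj, htok y]; exact h1
      exact a1.reachable.trans a3.reachable
    · have a3 : (rem (tg G c e) u).Adj X' Y' := by
        rw [rem_adj]; exact h1
      exact (a1.reachable.trans a3.reachable).trans a2.reachable.symm
  rcases A.eq_empty_or_nonempty with hA | hA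
  · apply htwo
    intro x y
    exact hreach x y (by rw [hA]; exact Finset.notMem_empty _) (by rw [hA]; exact Finset.notMem_empty _)
  · -- the number of components is at most `A.card + 1`
    have hcomp : (rem (tg G c e) u).oddComponents.ncard ≤ A.card + 1 := by
      have h1 : (rem (tg G c e) u).oddComponents.ncard
          ≤ Nat.card (rem (tg G c e) u).ConnectedComponent := by
        rw [← Set.ncard_univ]
        exact Set.ncard_le_ncard (Set.subset_univ _) (Set.toFinite _)
      refine h1.trans ?_
      let φ : (rem (tg G c e) u).ConnectedComponent → Option A := fun C =>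
        if hC : tok C.out ∈ A then some ⟨tok C.out, hC⟩ else none
      have hφ : Function.Injective φ := by
        intro C C' hCC
        rw [← C.out_eq, ← C'.out_eq]
        by_cases h1 : tok C.out ∈ A
        · by_cases h2 : tok C'.out ∈ A
          · simp only [φ, dif_pos h1, dif_pos h2, Option.some.injEq, Subtype.mk.injEq] at hCC
            have : C.out = C'.out := by
              apply Subtype.ext
              rw [htok, htok, hCC]
            rw [this]
          · simp only [φ, dif_pos h1, dif_neg h2] at hCC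
            exact absurd hCC (by simp)
        · by_cases h2 : tok C'.out ∈ A
          · simp only [φ, dif_neg h1, dif_pos h2] at hCC
            exact absurd hCC (by simp)
          · exact SimpleGraph.ConnectedComponent.eq.2 (hreach _ _ h1 h2)
      have := Nat.card_le_card_of_injective φ hφ
      refine this.trans ?_
      rw [Nat.card_eq_fintype_card, Fintype.card_option, Fintype.card_coe]
    set E := A.image (fun x => x.1) with hE
    have hEne : E.Nonempty := hA.image _
    have hEpos : ∀ v ∈ E, 0 < c v := by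
      intro v hv
      obtain ⟨x, _, rfl⟩ := Finset.mem_image.1 hv
      exact Nat.pos_of_ne_zero (fun h0 => by
        have := x.2.2
        omega)
    have hEind : ∀ u ∈ E, ∀ v ∈ E, ¬ G.Adj u v := by
      intro p hp q hq
      obtain ⟨x, hx, rfl⟩ := Finset.mem_image.1 hp
      obtain ⟨y, hy, rfl⟩ := Finset.mem_image.1 hq
      exact (Finset.mem_filter.1 hx).2.2 y (Finset.mem_filter.1 hy).2.1
    have h3 := h E hEne hEpos hEind
    have h4 : A.card ≤ wt c E := by
      rw [← card_tokens c E]
      refine Finset.card_le_card ?_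
      intro x hx
      exact Finset.mem_filter.2 ⟨Finset.mem_univ _, Finset.mem_image_of_mem _ hx⟩
    have h5 : wt c (univ.filter (fun v => ∃ e ∈ E, G.Adj e v)) ≤ u.ncard := by
      rw [← card_tokens, ← Finset.card_map Function.Embedding.inl (β := Tok c ⊕ Fin e),
        ← Set.ncard_coe_finset]
      refine Set.ncard_le_ncard ?_ (Set.toFinite u)
      intro y hy
      rw [Finset.mem_coe, Finset.mem_map] at hy
      obtain ⟨t, ht, rfl⟩ := hy
      by_contra hyu
      simp only [Finset.mem_filter, Finset.mem_univ, true_and] at ht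
      obtain ⟨e', he', hadj⟩ := ht
      obtain ⟨x, hx, rfl⟩ := Finset.mem_image.1 he'
      exact (Finset.mem_filter.1 hx).2.2 t hyu hadj
    unfold SimpleGraph.IsTutteViolator at hu
    unfold rem at hcomp
    omega

open Classical in
/-- near-perfect packing -/
lemma tutte_pack {G : SimpleGraph V} (hG : GapFree G) (c : V →₀ ℕ)
    (h : ∀ E : Finset V, E.Nonempty → (∀ v ∈ E, 0 < c v) → (∀ u ∈ E, ∀ v ∈ E, ¬ G.Adj u v) →
      wt c E + 1 ≤ wt c (univ.filter (fun v => ∃ e ∈ E, G.Adj e v))) :
    ∃ s, Pk G c s ∧ ∑ v, c v ≤ 2 * s + 1 := by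
  have hcard : Nat.card (Tok c) = ∑ v, c v := by
    rw [Nat.card_eq_fintype_card, Fintype.card_sigma]
    simp
  obtain ⟨e, he1, he2⟩ : ∃ e, e ≤ 1 ∧ Even (Nat.card (Tok c ⊕ Fin e)) := by
    rcases Nat.even_or_odd (∑ v, c v) with h1 | h1
    · refine ⟨0, by omega, ?_⟩
      rw [Nat.card_sum, hcard]; simpa using h1
    · refine ⟨1, le_rfl, ?_⟩
      rw [Nat.card_sum, hcard]
      simpa using h1.add_one
  obtain ⟨M, hM⟩ := (SimpleGraph.tutte (G := tg G c e)).2 (no_violator hG c e he2 h)
  have hM1 : ∀ x, ∃! w, M.Adj x w := fun x => hM.1 (hM.2 x)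
  choose f hf hfu using hM1
  have hfeq : ∀ x y, M.Adj x y → y = f x := fun x y hxy => hfu x y hxy
  -- the tokens matched with tokens
  let S : Finset (Tok c) := univ.filter (fun x => ∃ y, f (Sum.inl x) = Sum.inl y)
  have hS : ∀ x ∈ S, ∃ y, f (Sum.inl x) = Sum.inl y := fun x hx => (Finset.mem_filter.1 hx).2
  let g : Tok c → Tok c := fun x => if hx : ∃ y, f (Sum.inl x) = Sum.inl y then hx.choose else x
  have hg : ∀ x ∈ S, f (Sum.inl x) = Sum.inl (g x) := by
    intro x hx
    have h1 := hS x hx
    simp only [g, dif_pos h1]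
    exact h1.choose_spec
  have hadjM : ∀ x ∈ S, M.Adj (Sum.inl x) (Sum.inl (g x)) := by
    intro x hx
    rw [← hg x hx]
    exact hf _
  have hgS : ∀ x ∈ S, g x ∈ S := by
    intro x hx
    refine Finset.mem_filter.2 ⟨Finset.mem_univ _, x, ?_⟩
    exact (hfeq _ _ (hadjM x hx).symm).symm
  have hgg : ∀ x ∈ S, g (g x) = x := by
    intro x hx
    have h1 := hfeq _ _ (hadjM x hx).symm
    rw [hg _ (hgS x hx)] at h1
    exact (Sum.inl_injective h1).symm
  obtain ⟨m, hm1, hm2, hm3⟩ := pack_of_involution G c g S.card S rfl hgS hgg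
    (fun x hx => (hadjM x hx).adj_sub)
  refine ⟨m.card, ⟨m, hm1, rfl, ?_⟩, ?_⟩
  · intro v
    rw [hm3]
    have : c v = (univ.filter (fun y : Tok c => y.1 ∈ ({v} : Finset V))).card := by
      rw [card_tokens]; simp [wt]
    rw [this]
    refine Finset.card_le_card ?_
    intro x hx
    simpa using (Finset.mem_filter.1 hx).2
  · rw [hm2]
    have h1 : (univ : Finset (Tok c)).card = ∑ v, c v := by
      rw [Finset.card_univ, ← Nat.card_eq_fintype_card, hcard]
    have h2 : (univ \ S).card ≤ 1 := by
      have h3 : (univ \ S).card ≤ (univ : Finset (Fin e)).card := by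
        let ψ : Tok c → Fin e ⊕ Unit := fun x => match f (Sum.inl x) with
          | Sum.inl _ => Sum.inr ()
          | Sum.inr i => Sum.inl i
        have hψ : ∀ x ∈ univ \ S, ∃ i : Fin e, f (Sum.inl x) = Sum.inr i := by
          intro x hx
          have hx' : x ∉ S := (Finset.mem_sdiff.1 hx).2
          rcases hfx : f (Sum.inl x) with y | i
          · exact absurd (Finset.mem_filter.2 ⟨Finset.mem_univ _, y, hfx⟩) hx'
          · exact ⟨i, rfl⟩
        have hψ' : ∀ x : (univ \ S : Finset (Tok c)), ∃ i : Fin e, f (Sum.inl x.1) = Sum.inr i :=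
          fun x => hψ x.1 x.2
        choose j hj using hψ'
        have hinj : Function.Injective j := by
          intro x y hxy
          have a1 : M.Adj (Sum.inl x.1) (Sum.inr (j x)) := by rw [← hj x]; exact hf _
          have a2 : M.Adj (Sum.inl y.1) (Sum.inr (j y)) := by rw [← hj y]; exact hf _
          rw [← hxy] at a2
          have b1 := hfeq _ _ a1.symm
          have b2 := hfeq _ _ a2.symm
          rw [← b1] at b2
          exact Subtype.ext (Sum.inl_injective b2).symm
        have := Fintype.card_le_of_injective j hinj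
        rw [Fintype.card_coe] at this
        simpa using this
      rw [Finset.card_univ, Fintype.card_fin] at h3
      omega
    have h4 : (univ \ S).card = (univ : Finset (Tok c)).card - S.card := by
      rw [Finset.card_sdiff_of_subset (Finset.subset_univ S)]
    omega

end Pool.Agent.Helper66.Gap
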