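import Pool.Agent.Helper66.Gap.Cochain
import Pool.Agent.Helper66.Gap.TuttePack

/-!
The families of independent sets on a fixed level of the packing defect, and their exactness.
-/

namespace Pool.Agent.Helper66.Gap

open Finset

set_option linter.unusedSectionVars false

variable {V : Type*} [Fintype V] [LinearOrder V] {K : Type*} [Field K]

/-- independent sets -/
def Indep (G : SimpleGraph V) (F : Finset V) : Prop := ∀ u ∈ F, ∀ v ∈ F, ¬ G.Adj u v

open Classical in
/-- members of `W` not adjacent to anything in `F` -/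
noncomputable def nb (G : SimpleGraph V) (W F : Finset V) : Finset V :=
  W.filter (fun v => ∀ f ∈ F, ¬ G.Adj f v)

open Classical in
/-- members of `W` adjacent to something in `F` -/
noncomputable def nbr (G : SimpleGraph V) (W F : Finset V) : Finset V :=
  W.filter (fun v => ∃ f ∈ F, G.Adj f v)

/-- the packing defect -/
noncomputable def rho (G : SimpleGraph V) (a : V →₀ ℕ) (B : Finset V) : ℕ := wt a B - nu G a B

/-- the level families -/
def Fam (G : SimpleGraph V) (a : V →₀ ℕ) (W : Finset V) (τ : ℕ) (F : Finset V) : Prop :=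
  F ⊆ W ∧ Indep G F ∧ rho G a (nb G W F) = τ

variable {G : SimpleGraph V} {a : V →₀ ℕ}

lemma mem_nb {W F : Finset V} {v : V} : v ∈ nb G W F ↔ v ∈ W ∧ ∀ f ∈ F, ¬ G.Adj f v := by
  classical
  unfold nb; simp

lemma mem_nbr {W F : Finset V} {v : V} : v ∈ nbr G W F ↔ v ∈ W ∧ ∃ f ∈ F, G.Adj f v := by
  classical
  unfold nbr; simp

lemma wt_mono {B B' : Finset V} (h : B ⊆ B') : wt a B ≤ wt a B' :=
  Finset.sum_le_sum_of_subset h

lemma wt_union {B B' : Finset V} (h : Disjoint B B') : wt a (B ∪ B') = wt a B + wt a B' :=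
  Finset.sum_union h

lemma wt_sdiff {B C : Finset V} (h : C ⊆ B) : wt a (B \ C) + wt a C = wt a B :=
  Finset.sum_sdiff h

lemma nu_le_wt (B : Finset V) : nu G a B ≤ wt a B := by
  have := two_nu_le G a B
  omega

lemma rho_add_nu (B : Finset V) : rho G a B + nu G a B = wt a B := by
  have := nu_le_wt (G := G) (a := a) B
  unfold rho; omega

lemma rho_mono {B B' : Finset V} (h : B ⊆ B') : rho G a B ≤ rho G a B' := by
  have h1 := nu_le_add G a B' (B' \ B)
  have h2 : B' ∩ (B' \ B) = B' \ B := Finset.inter_eq_right.2 Finset.sdiff_subset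
  have h3 : B' \ (B' \ B) = B := by
    ext v
    simp only [Finset.mem_sdiff]
    constructor
    · intro hv; tauto
    · intro hv; exact ⟨h hv, fun h' => h'.2 hv⟩
  rw [h2, h3] at h1
  have h4 := wt_sdiff (a := a) h
  have h5 := rho_add_nu (G := G) (a := a) B
  have h6 := rho_add_nu (G := G) (a := a) B'
  omega

lemma rho_isolated {B C : Finset V} (hCB : C ⊆ B) (hC : ∀ c ∈ C, ∀ b ∈ B, ¬ G.Adj c b) :
    rho G a B = wt a C + rho G a (B \ C) := by
  have h1 := nu_isolated (G := G) (a := a) (B := B) (C := C) (fun c hc b hb _ => hC c hc b hb)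
  have h4 := wt_sdiff (a := a) hCB
  have h5 := rho_add_nu (G := G) (a := a) B
  have h6 := rho_add_nu (G := G) (a := a) (B \ C)
  omega

lemma rho_zero {B C : Finset V} (hCB : C ⊆ B) (hC : ∀ c ∈ C, a c = 0) :
    rho G a B = rho G a (B \ C) := by
  have h1 := nu_isolated (G := G) (a := a) (B := B) (C := C)
    (fun c hc b _ h0 => absurd (hC c hc) h0)
  have h4 := wt_sdiff (a := a) hCB
  have h5 := rho_add_nu (G := G) (a := a) B
  have h6 := rho_add_nu (G := G) (a := a) (B \ C)
  have h7 : wt a C = 0 := Finset.sum_eq_zero hC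
  omega

lemma nb_subset (W F : Finset V) : nb G W F ⊆ W := fun _ hv => (mem_nb.1 hv).1

lemma nb_anti {W F F' : Finset V} (h : F ⊆ F') : nb G W F' ⊆ nb G W F := by
  intro v hv
  rw [mem_nb] at hv ⊢
  exact ⟨hv.1, fun f hf => hv.2 f (h hf)⟩

lemma nb_empty (W : Finset V) : nb G W ∅ = W := by
  ext v; rw [mem_nb]; simp

lemma subset_nb {W F : Finset V} (hF : F ⊆ W) (hi : Indep G F) : F ⊆ nb G W F := by
  intro v hv
  rw [mem_nb]
  exact ⟨hF hv, fun f hf => hi f hf v hv⟩

lemma Indep.subset {F F' : Finset V} (h : Indep G F') (hF : F ⊆ F') : Indep G F :=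
  fun u hu v hv => h u (hF hu) v (hF hv)

lemma convex_fam (W : Finset V) (τ : ℕ) : Convex (Fam G a W τ) := by
  intro r s t hr ht hrs hst
  refine ⟨hst.trans ht.1, ht.2.1.subset hst, ?_⟩
  have h1 := rho_mono (G := G) (a := a) (nb_anti (G := G) (W := W) hrs)
  have h2 := rho_mono (G := G) (a := a) (nb_anti (G := G) (W := W) hst)
  have h3 := hr.2.2
  have h4 := ht.2.2
  omega

/-- total weight of link -/
lemma wt_link {W Y : Finset V} (hY : Y ⊆ W) (hi : Indep G Y) :
    wt a (nb G W Y \ Y) + wt a Y + wt a (nbr G W Y) = wt a W := by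
  rw [wt_sdiff (subset_nb hY hi), ← wt_union]
  · congr 1
    ext v
    rw [Finset.mem_union, mem_nb, mem_nbr]
    constructor
    · rintro (h | h)
      · exact h.1
      · exact h.1
    · intro h
      by_cases h2 : ∃ f ∈ Y, G.Adj f v
      · exact Or.inr ⟨h, h2⟩
      · push Not at h2
        exact Or.inl ⟨h, h2⟩
  · rw [Finset.disjoint_left]
    intro v hv hv'
    rw [mem_nb] at hv
    rw [mem_nbr] at hv'
    obtain ⟨f, hf, hfv⟩ := hv'.2
    exact hv.2 f hf hfv

/-- description of the links -/
lemma link_fam {W Y : Finset V} (hY : Y ⊆ W) (hi : Indep G Y) {τ τ' : ℕ} (hτ : wt a Y + τ' = τ)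
    (s : Finset V) : Fam G a (nb G W Y \ Y) τ' s ↔ link (Fam G a W τ) Y s := by
  unfold link Fam
  constructor
  · rintro ⟨h1, h2, h3⟩
    have hsY : ∀ u ∈ s, u ∈ W ∧ (∀ f ∈ Y, ¬ G.Adj f u) ∧ u ∉ Y := by
      intro u hu
      have := Finset.mem_sdiff.1 (h1 hu)
      rw [mem_nb] at this
      exact ⟨this.1.1, this.1.2, this.2⟩
    have hind : Indep G (s ∪ Y) := by
      intro u hu v hv
      rcases Finset.mem_union.1 hu with hu | hu
      · rcases Finset.mem_union.1 hv with hv | hv
        · exact h2 u hu v hv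
        · exact fun h => (hsY u hu).2.1 v hv h.symm
      · rcases Finset.mem_union.1 hv with hv | hv
        · exact (hsY v hv).2.1 u hu
        · exact hi u hu v hv
    refine ⟨Finset.disjoint_left.2 fun u hu => (hsY u hu).2.2,
      Finset.union_subset (fun u hu => (hsY u hu).1) hY, hind, ?_⟩
    have hYs : Y ⊆ nb G W (s ∪ Y) :=
      Finset.subset_union_right.trans (subset_nb (Finset.union_subset (fun u hu => (hsY u hu).1) hY)
        hind)
    rw [rho_isolated hYs]
    · have : nb G W (s ∪ Y) \ Y = nb G (nb G W Y \ Y) s := by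
        ext v
        simp only [Finset.mem_sdiff, mem_nb, Finset.mem_union]
        constructor
        · rintro ⟨⟨p1, p2⟩, p3⟩
          exact ⟨⟨⟨p1, fun f hf => p2 f (Or.inr hf)⟩, p3⟩, fun f hf => p2 f (Or.inl hf)⟩
        · rintro ⟨⟨⟨p1, p2⟩, p3⟩, p4⟩
          refine ⟨⟨p1, ?_⟩, p3⟩
          rintro f (hf | hf)
          · exact p4 f hf
          · exact p2 f hf
      rw [this, h3, hτ]
    · intro c hc b hb
      exact (mem_nb.1 hb).2 c (Finset.mem_union_right _ hc)
  · rintro ⟨h0, h1, h2, h3⟩
    have hsub : s ⊆ nb G W Y \ Y := by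
      intro u hu
      rw [Finset.mem_sdiff, mem_nb]
      exact ⟨⟨h1 (Finset.mem_union_left _ hu),
        fun f hf => h2 f (Finset.mem_union_right _ hf) u (Finset.mem_union_left _ hu)⟩,
        Finset.disjoint_left.1 h0 hu⟩
    refine ⟨hsub, h2.subset Finset.subset_union_left, ?_⟩
    have hYs : Y ⊆ nb G W (s ∪ Y) :=
      Finset.subset_union_right.trans (subset_nb h1 h2)
    rw [rho_isolated hYs] at h3
    · have : nb G W (s ∪ Y) \ Y = nb G (nb G W Y \ Y) s := by
        ext v
        simp only [Finset.mem_sdiff, mem_nb, Finset.mem_union]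
        constructor
        · rintro ⟨⟨p1, p2⟩, p3⟩
          exact ⟨⟨⟨p1, fun f hf => p2 f (Or.inr hf)⟩, p3⟩, fun f hf => p2 f (Or.inl hf)⟩
        · rintro ⟨⟨⟨p1, p2⟩, p3⟩, p4⟩
          refine ⟨⟨p1, ?_⟩, p3⟩
          rintro f (hf | hf)
          · exact p4 f hf
          · exact p2 f hf
      rw [this] at h3
      omega
    · intro c hc b hb
      exact (mem_nb.1 hb).2 c (Finset.mem_union_right _ hc)

/-- exactness of links -/
lemma exact_link_fam {W Y : Finset V} {τ i : ℕ}
    (h : Y ⊆ W → Indep G Y → ∀ τ', wt a Y + τ' = τ → Exact K (Fam G a (nb G W Y \ Y) τ') i) :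
    Exact K (link (Fam G a W τ) Y) i := by
  by_cases hY : Y ⊆ W ∧ Indep G Y ∧ wt a Y ≤ τ
  · obtain ⟨h1, h2, h3⟩ := hY
    exact (h h1 h2 (τ - wt a Y) (by omega)).congr (link_fam h1 h2 (by omega))
  · refine exact_of_no_card fun s hs => ?_
    exfalso
    apply hY
    unfold link Fam at hs
    obtain ⟨h0, h1, h2, h3⟩ := hs
    have h4 : Y ⊆ W := Finset.subset_union_right.trans h1
    refine ⟨h4, h2.subset Finset.subset_union_right, ?_⟩
    have hYs : Y ⊆ nb G W (s ∪ Y) :=
      Finset.subset_union_right.trans (subset_nb h1 h2)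
    rw [rho_isolated hYs] at h3
    · omega
    · intro c hc b hb
      exact (mem_nb.1 hb).2 c (Finset.mem_union_right _ hc)

/-- Case 0: a vertex without neighbours -/
lemma fam_case0 {W : Finset V} {w : V} (hw : w ∈ W) (hiso : ∀ v ∈ W, ¬ G.Adj w v) (τ j : ℕ) :
    Exact K (Fam G a W τ) j := by
  refine exact_of_toggle w (fun s hs => ?_) j
  unfold Fam
  have e : s ⊆ W → nb G W (insert w s) = nb G W s := by
    intro _
    ext v
    simp only [mem_nb, Finset.mem_insert]
    constructor
    · rintro ⟨h1, h2⟩; exact ⟨h1, fun f hf => h2 f (Or.inr hf)⟩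
    · rintro ⟨h1, h2⟩
      refine ⟨h1, ?_⟩
      rintro f (rfl | hf)
      · exact hiso v h1
      · exact h2 f hf
  constructor
  · rintro ⟨h1, h2, h3⟩
    refine ⟨Finset.insert_subset hw h1, ?_, by rw [e h1, h3]⟩
    intro u hu v hv
    rcases Finset.mem_insert.1 hu with hu' | hu'
    · rcases Finset.mem_insert.1 hv with hv' | hv'
      · rw [hu', hv']; exact fun h => h.ne rfl
      · rw [hu']; exact hiso v (h1 hv')
    · rcases Finset.mem_insert.1 hv with hv' | hv'
      · rw [hv']; exact fun h => hiso u (h1 hu') h.symm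
      · exact h2 u hu' v hv'
  · rintro ⟨h1, h2, h3⟩
    have h4 : s ⊆ W := (Finset.subset_insert _ _).trans h1
    exact ⟨h4, h2.subset (Finset.subset_insert _ _), by rw [← e h4, h3]⟩

/-- Case 1: a vertex of weight zero with a neighbour of positive weight -/
lemma fam_case1 {W : Finset V} {x y : V} (hx : x ∈ W) (hax : a x = 0) (hy : y ∈ W)
    (hxy : G.Adj x y) (hay : 0 < a y) {τ j : ℕ} (hτ : 1 ≤ τ) (hj : wt a W + 2 ≤ j + 2 * τ)
    (ih : ∀ W' : Finset V, W'.card < W.card → ∀ τ j, (1 ≤ τ ∨ ∀ v ∈ W', 0 < a v) →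
      wt a W' + 2 ≤ j + 2 * τ → Exact K (Fam G a W' τ) j) : Exact K (Fam G a W τ) j := by
  refine exact_of_avoid_link (convex_fam W τ) x ?_ ?_
  · have hW : wt a (W \ {x}) = wt a W := by
      have := wt_sdiff (a := a) (Finset.singleton_subset_iff.2 hx)
      have h2 : wt a {x} = 0 := by simp [wt, hax]
      omega
    refine (ih (W \ {x}) ?_ τ j (Or.inl hτ) (by rw [hW]; exact hj)).congr fun s => ?_
    · refine Finset.card_lt_card ?_
      refine Finset.sdiff_ssubset (Finset.singleton_subset_iff.2 hx) (by simp)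
    · unfold Fam avoid
      have e : rho G a (nb G W s) = rho G a (nb G (W \ {x}) s) := by
        have e1 : nb G (W \ {x}) s = nb G W s \ (nb G W s ∩ {x}) := by
          ext v
          simp only [mem_nb, Finset.mem_sdiff, Finset.mem_inter, Finset.mem_singleton]
          tauto
        rw [e1]
        refine rho_zero Finset.inter_subset_left ?_
        intro c hc
        rw [Finset.mem_inter, Finset.mem_singleton] at hc
        rw [hc.2, hax]
      show _ ↔ Disjoint s {x} ∧ (s ⊆ W ∧ Indep G s ∧ rho G a (nb G W s) = τ)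
      rw [e, Finset.disjoint_singleton_right]
      constructor
      · rintro ⟨h1, h2, h3⟩
        refine ⟨fun h => ?_, h1.trans Finset.sdiff_subset, h2, h3⟩
        exact (Finset.mem_sdiff.1 (h1 h)).2 (Finset.mem_singleton_self x)
      · rintro ⟨h0, h1, h2, h3⟩
        refine ⟨fun u hu => Finset.mem_sdiff.2 ⟨h1 hu, ?_⟩, h2, h3⟩
        rw [Finset.mem_singleton]
        rintro rfl
        exact h0 hu
  · intro i hi
    refine exact_link_fam fun h1 h2 τ' hτ' => ?_
    have hx0 : wt a {x} = 0 := by simp [wt, hax]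
    have hw := wt_link (a := a) h1 h2
    have hn : 1 ≤ wt a (nbr G W {x}) := by
      have : y ∈ nbr G W {x} := by
        rw [mem_nbr]; exact ⟨hy, x, Finset.mem_singleton_self x, hxy⟩
      calc 1 ≤ a y := hay
        _ ≤ wt a (nbr G W {x}) := Finset.single_le_sum (fun _ _ => Nat.zero_le _) this
    refine ih _ ?_ τ' i (Or.inl (by omega)) (by omega)
    refine Finset.card_lt_card ?_
    refine ⟨Finset.sdiff_subset.trans (nb_subset _ _), fun h => ?_⟩
    exact (Finset.mem_sdiff.1 (h hx)).2 (Finset.mem_singleton_self x)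

/-- Case 2: all weight-zero vertices have only weight-zero neighbours -/
lemma fam_case2 (hG : GapFree G) {W : Finset V} {z : V} (hz : z ∈ W) (haz : a z = 0)
    (hno : ∀ x ∈ W, a x = 0 → ∀ y ∈ W, G.Adj x y → a y = 0) {τ : ℕ} (hτ : 1 ≤ τ) (j : ℕ) :
    Exact K (Fam G a W τ) j := by
  by_cases hu : ∃ w ∈ W, ∀ v ∈ W, ¬ G.Adj w v
  · obtain ⟨w, hw, h⟩ := hu
    exact fam_case0 hw h τ j
  push Not at hu
  by_cases hp : ∃ p ∈ W, 0 < a p
  · exfalso
    obtain ⟨p, hp, hap⟩ := hp
    obtain ⟨z', hz', hzz'⟩ := hu z hz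
    obtain ⟨p', hp', hpp'⟩ := hu p hp
    have haz' := hno z hz haz z' hz' hzz'
    have hap' : 0 < a p' := by
      rw [Nat.pos_iff_ne_zero]
      intro h0
      have := hno p' hp' h0 p hp hpp'.symm
      omega
    rcases hG.adj hzz' hpp' with h | h | h | h
    · have := hno z hz haz p hp h; omega
    · have := hno z hz haz p' hp' h; omega
    · have := hno z' hz' haz' p hp h; omega
    · have := hno z' hz' haz' p' hp' h; omega
  · push Not at hp
    refine exact_of_no_card fun s hs => ?_
    exfalso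
    unfold Fam at hs
    have h0 : wt a (nb G W s) = 0 := by
      refine Finset.sum_eq_zero fun v hv => ?_
      have := hp v (nb_subset _ _ hv)
      omega
    have := hs.2.2
    unfold rho at this
    omega

/-- Case 3A -/
lemma fam_case3A (hG : GapFree G) {W : Finset V} (hpos : ∀ v ∈ W, 0 < a v)
    (hA : ∀ E ⊆ W, E.Nonempty → Indep G E → wt a E + 1 ≤ wt a (nbr G W E)) {τ j : ℕ}
    (hj : wt a W + 2 ≤ j + 2 * τ)
    (ih : ∀ W' : Finset V, W'.card < W.card → ∀ τ j, (1 ≤ τ ∨ ∀ v ∈ W', 0 < a v) →
      wt a W' + 2 ≤ j + 2 * τ → Exact K (Fam G a W' τ) j) : Exact K (Fam G a W τ) j := by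
  refine exact_of_avoid_links W (convex_fam W τ) ?_ ?_
  · refine exact_of_no_card fun s hs => ?_
    unfold avoid at hs
    obtain ⟨h1, h2⟩ := hs
    have hs0 : s = ∅ := by
      rw [← Finset.disjoint_self_iff_empty]
      exact Finset.disjoint_of_subset_right h2.1 h1
    subst hs0
    intro hj0
    rw [Finset.card_empty] at hj0
    have h3 := h2.2.2
    rw [nb_empty] at h3
    -- Tutte
    classical
    obtain ⟨s, hs1, hs2⟩ := tutte_pack hG (rs a W) (by
      intro E hE hEpos hEind
      have hEW : E ⊆ W := by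
        intro v hv
        by_contra hvW
        have := hEpos v hv
        rw [rs_apply, if_neg hvW] at this
        omega
      have := hA E hEW hE hEind
      have e1 : wt (rs a W) E = wt a E := by
        unfold wt
        refine Finset.sum_congr rfl fun v hv => ?_
        rw [rs_apply, if_pos (hEW hv)]
      have e2 : wt a (nbr G W E) ≤ wt (rs a W) (univ.filter (fun v => ∃ e ∈ E, G.Adj e v)) := by
        have : wt a (nbr G W E) = wt (rs a W) (nbr G W E) := by
          unfold wt
          refine Finset.sum_congr rfl fun v hv => ?_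
          rw [rs_apply, if_pos (mem_nbr.1 hv).1]
        rw [this]
        refine Finset.sum_le_sum_of_subset ?_
        intro v hv
        simpa using (mem_nbr.1 hv).2
      rw [e1]
      convert (show wt a E + 1 ≤ wt (rs a W) (univ.filter (fun v => ∃ e ∈ E, G.Adj e v)) by omega))
    rw [pk_iff] at hs1
    rw [sum_rs] at hs2
    have := rho_add_nu (G := G) (a := a) W
    omega
  · intro Y hYW hY i hi
    refine exact_link_fam fun h1 h2 τ' hτ' => ?_
    have hw := wt_link (a := a) h1 h2
    have hn := hA Y h1 hY h2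
    refine ih _ ?_ τ' i (Or.inr ?_) (by omega)
    · refine Finset.card_lt_card ?_
      refine ⟨Finset.sdiff_subset.trans (nb_subset _ _), fun h => ?_⟩
      obtain ⟨y, hy⟩ := hY
      exact (Finset.mem_sdiff.1 (h (hYW hy))).2 hy
    · intro v hv
      exact hpos v (nb_subset _ _ (Finset.sdiff_subset hv))

/-- the packing formula of case 3B -/
lemma rho_formula {W E T B : Finset V} (hT : T = nbr G W E) (hEi : Indep G E)
    (hH : ∀ T' ⊆ T, wt a T' ≤ wt a (nbr G E T')) (hEB : E ⊆ B) (hBW : B ⊆ W) :
    rho G a B = wt a E + rho G a ((B \ E) \ T) := by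
  classical
  have hTE : Disjoint T E := by
    rw [Finset.disjoint_left]
    intro v hv hvE
    rw [hT, mem_nbr] at hv
    obtain ⟨f, hf, hfv⟩ := hv.2
    exact hEi f hf v hvE hfv
  -- upper bound
  have u1 := nu_le_add G a B T
  have u2 : nu G a ((B \ T) \ E) = nu G a (B \ T) := by
    refine nu_isolated ?_
    intro c hc b hb _ hadj
    have hb' := Finset.mem_sdiff.1 hb
    apply hb'.2
    rw [hT, mem_nbr]
    exact ⟨hBW hb'.1, c, hc, hadj⟩
  have u3 : (B \ T) \ E = (B \ E) \ T := by
    ext v; simp only [Finset.mem_sdiff]; tauto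
  -- lower bound
  have l1 : Pk G (rs a ((B ∩ T) ∪ E)) (wt a (B ∩ T)) := by
    refine hall_pack G a (Finset.disjoint_of_subset_left Finset.inter_subset_right hTE) ?_
    intro T' hT'
    have := hH T' (hT'.trans Finset.inter_subset_right)
    refine this.trans (le_of_eq ?_)
    congr 1
  rw [pk_iff] at l1
  have l2 := nu_add_disjoint (G := G) (a := a) (B := B) (B1 := (B ∩ T) ∪ E) (B2 := (B \ E) \ T)
    (by
      rw [Finset.disjoint_left]
      intro v hv hv'
      simp only [Finset.mem_union, Finset.mem_inter, Finset.mem_sdiff] at hv hv'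
      tauto)
    (Finset.union_subset Finset.inter_subset_left hEB)
    (Finset.sdiff_subset.trans Finset.sdiff_subset)
  -- weights
  have w1 : wt a B = wt a (B ∩ T) + wt a E + wt a ((B \ E) \ T) := by
    rw [← wt_union (Finset.disjoint_of_subset_left Finset.inter_subset_right hTE), ← wt_union]
    · congr 1
      ext v
      simp only [Finset.mem_union, Finset.mem_inter, Finset.mem_sdiff]
      constructor
      · intro hv; tauto
      · rintro ((h | h) | h)
        · exact h.1
        · exact hEB h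
        · exact h.1.1
    · rw [Finset.disjoint_left]
      intro v hv hv'
      simp only [Finset.mem_union, Finset.mem_inter, Finset.mem_sdiff] at hv hv'
      tauto
  have r1 := rho_add_nu (G := G) (a := a) B
  have r2 := rho_add_nu (G := G) (a := a) ((B \ E) \ T)
  rw [u3] at u2
  omega

/-- Case 3B -/
lemma fam_case3B (hG : GapFree G) {W : Finset V} (hpos : ∀ v ∈ W, 0 < a v)
    (hnoiso : ∀ w ∈ W, ∃ v ∈ W, G.Adj w v) {E : Finset V} (hEW : E ⊆ W) (hE : E.Nonempty)
    (hEi : Indep G E) (hEle : wt a (nbr G W E) ≤ wt a E)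
    (hmin : ∀ E' ⊆ W, E'.Nonempty → Indep G E' → wt a (nbr G W E') ≤ wt a E' → E.card ≤ E'.card)
    {τ j : ℕ} (hj : wt a W + 2 ≤ j + 2 * τ)
    (ih : ∀ W' : Finset V, W'.card < W.card → ∀ τ j, (1 ≤ τ ∨ ∀ v ∈ W', 0 < a v) →
      wt a W' + 2 ≤ j + 2 * τ → Exact K (Fam G a W' τ) j) : Exact K (Fam G a W τ) j := by
  classical
  set T := nbr G W E with hT
  have hTW : T ⊆ W := fun v hv => (mem_nbr.1 hv).1
  have hTE : ∀ v ∈ T, v ∉ E := by
    intro v hv hvE
    rw [hT, mem_nbr] at hv
    obtain ⟨f, hf, hfv⟩ := hv.2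
    exact hEi f hf v hvE hfv
  -- strict Hall condition
  have hHall : ∀ T' ⊆ T, T'.Nonempty → wt a T' ≤ wt a (nbr G E T') ∧
      (nbr G E T' ≠ E → wt a T' + 1 ≤ wt a (nbr G E T')) := by
    intro T' hT' hT'n
    by_cases hEE : nbr G E T' = E
    · rw [hEE]
      exact ⟨(wt_mono hT').trans hEle, fun h => absurd rfl h⟩
    · have hsub : nbr G E T' ⊆ E := fun v hv => (mem_nbr.1 hv).1
      set E' := E \ nbr G E T' with hE'
      have hE'n : E'.Nonempty := by
        rw [hE', Finset.sdiff_nonempty]
        intro h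
        exact hEE (Finset.Subset.antisymm hsub h)
      have hE'E : E' ⊆ E := Finset.sdiff_subset
      have hlt : E'.card < E.card := by
        refine Finset.card_lt_card ?_
        obtain ⟨t, ht⟩ := hT'n
        obtain ⟨_, e, he, het⟩ := mem_nbr.1 (hT' ht)
        refine ⟨hE'E, fun h => ?_⟩
        have := (Finset.mem_sdiff.1 (h he)).2
        apply this
        rw [mem_nbr]
        exact ⟨he, t, ht, het.symm⟩
      have h1 : wt a E' + 1 ≤ wt a (nbr G W E') := by
        by_contra hc
        have := hmin E' (hE'E.trans hEW) hE'n (hEi.subset hE'E) (by omega)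
        omega
      have h2 : nbr G W E' ⊆ T \ T' := by
        intro v hv
        rw [mem_nbr] at hv
        obtain ⟨hvW, e, he, hev⟩ := hv
        have he' := Finset.mem_sdiff.1 he
        refine Finset.mem_sdiff.2 ⟨?_, fun hvT' => ?_⟩
        · rw [hT, mem_nbr]; exact ⟨hvW, e, he'.1, hev⟩
        · apply he'.2
          rw [mem_nbr]
          exact ⟨he'.1, v, hvT', hev.symm⟩
      have h3 := wt_mono (a := a) h2
      have h4 := wt_sdiff (a := a) hT'
      have h5 := wt_sdiff (a := a) hsub
      rw [← hE'] at h5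
      constructor
      · omega
      · intro _; omega
  have hH : ∀ T' ⊆ T, wt a T' ≤ wt a (nbr G E T') := by
    intro T' hT'
    rcases T'.eq_empty_or_nonempty with rfl | hn
    · simp [wt]
    · exact (hHall T' hT' hn).1
  refine exact_of_avoid_links T (convex_fam W τ) ?_ ?_
  · -- toggling
    obtain ⟨e, he⟩ := hE
    refine exact_of_toggle e (fun s hs => ?_) j
    have heT : e ∉ T := fun h => hTE e h he
    have hEnb : ∀ s : Finset V, s ⊆ W → Disjoint s T → E ⊆ nb G W s := by
      intro s hsW hsT v hv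
      rw [mem_nb]
      refine ⟨hEW hv, fun f hf hfv => ?_⟩
      apply Finset.disjoint_left.1 hsT hf
      rw [hT, mem_nbr]
      exact ⟨hsW hf, v, hv, hfv.symm⟩
    have hrho : s ⊆ W → Disjoint s T → rho G a (nb G W (insert e s)) = rho G a (nb G W s) := by
      intro hsW hsT
      have hsW' : insert e s ⊆ W := Finset.insert_subset (hEW he) hsW
      have hsT' : Disjoint (insert e s) T := by
        rw [Finset.disjoint_insert_left]; exact ⟨heT, hsT⟩
      rw [rho_formula hT hEi hH (hEnb s hsW hsT) (nb_subset _ _),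
        rho_formula hT hEi hH (hEnb _ hsW' hsT') (nb_subset _ _)]
      congr 2
      ext v
      simp only [Finset.mem_sdiff, mem_nb, Finset.mem_insert]
      constructor
      · rintro ⟨⟨⟨p1, p2⟩, p3⟩, p4⟩
        exact ⟨⟨⟨p1, fun f hf => p2 f (Or.inr hf)⟩, p3⟩, p4⟩
      · rintro ⟨⟨⟨p1, p2⟩, p3⟩, p4⟩
        refine ⟨⟨⟨p1, ?_⟩, p3⟩, p4⟩
        rintro f (rfl | hf) hfv
        · apply p4
          rw [hT, mem_nbr]
          exact ⟨p1, f, he, hfv⟩
        · exact p2 f hf hfv
    unfold avoid Fam
    constructor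
    · rintro ⟨h0, h1, h2, h3⟩
      refine ⟨?_, Finset.insert_subset (hEW he) h1, ?_, ?_⟩
      · rw [Finset.disjoint_insert_left]; exact ⟨heT, h0⟩
      · have hes : ∀ v ∈ s, ¬ G.Adj e v := by
          intro v hv hev
          apply Finset.disjoint_left.1 h0 hv
          rw [hT, mem_nbr]
          exact ⟨h1 hv, e, he, hev⟩
        intro u hu v hv
        rcases Finset.mem_insert.1 hu with hu' | hu'
        · rcases Finset.mem_insert.1 hv with hv' | hv'
          · rw [hu', hv']; exact fun h => h.ne rfl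
          · rw [hu']; exact hes v hv'
        · rcases Finset.mem_insert.1 hv with hv' | hv'
          · rw [hv']; exact fun h => hes u hu' h.symm
          · exact h2 u hu' v hv'
      · rw [hrho h1 h0, h3]
    · rintro ⟨h0, h1, h2, h3⟩
      have h0' := Finset.disjoint_insert_left.1 h0
      have h1' : s ⊆ W := (Finset.subset_insert _ _).trans h1
      exact ⟨h0'.2, h1', h2.subset (Finset.subset_insert _ _), by rw [← hrho h1' h0'.2, h3]⟩
  · intro Y hYT hY i hi
    refine exact_link_fam fun h1 h2 τ' hτ' => ?_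
    have hw := wt_link (a := a) h1 h2
    have hcard : (nb G W Y \ Y).card < W.card := by
      refine Finset.card_lt_card ?_
      refine ⟨Finset.sdiff_subset.trans (nb_subset _ _), fun h => ?_⟩
      obtain ⟨y, hy⟩ := hY
      exact (Finset.mem_sdiff.1 (h (h1 hy))).2 hy
    have hsubN : nbr G E Y ⊆ nbr G W Y := by
      intro v hv
      rw [mem_nbr] at hv ⊢
      exact ⟨hEW hv.1, hv.2⟩
    have hNle := wt_mono (a := a) hsubN
    have hHY := hHall Y hYT hY
    by_cases hbig : wt a Y + 1 ≤ wt a (nbr G W Y)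
    · refine ih _ hcard τ' i (Or.inr ?_) (by omega)
      intro v hv
      exact hpos v (nb_subset _ _ (Finset.sdiff_subset hv))
    · -- exceptional case
      have hEY : nbr G E Y = E := by
        by_contra h
        have := hHY.2 h
        omega
      rw [hEY] at hNle hHY
      have hYT' : Y = T := by
        refine Finset.Subset.antisymm hYT fun t ht => ?_
        by_contra htY
        have h3 : insert t Y ⊆ T := Finset.insert_subset ht hYT
        have h4 := wt_mono (a := a) h3
        have h5 : wt a (insert t Y) = a t + wt a Y := Finset.sum_insert htY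
        have h6 := hpos t (hTW ht)
        omega
      subst hYT'
      have hNE : nbr G W T = E := by
        refine (Finset.Subset.antisymm ?_ (hEY ▸ hsubN))
        intro v hv
        by_contra hvE
        have h3 : insert v E ⊆ nbr G W T :=
          Finset.insert_subset hv (hEY ▸ hsubN)
        have h4 := wt_mono (a := a) h3
        have h5 : wt a (insert v E) = a v + wt a E := Finset.sum_insert hvE
        have h6 := hpos v (mem_nbr.1 hv).1
        omega
      -- `W = E ∪ T`
      have hWET : ∀ v ∈ W, v ∈ E ∨ v ∈ T := by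
        intro v hv
        by_contra hc
        push Not at hc
        have key : ∀ v ∈ W, v ∉ E → v ∉ T → (∀ e ∈ E, ¬ G.Adj e v) ∧ (∀ t ∈ T, ¬ G.Adj t v) := by
          intro v hv hvE hvT
          constructor
          · intro e he hev
            apply hvT
            rw [hT, mem_nbr]; exact ⟨hv, e, he, hev⟩
          · intro t ht htv
            apply hvE
            rw [← hNE, mem_nbr]; exact ⟨hv, t, ht, htv⟩
        obtain ⟨v', hv', hvv'⟩ := hnoiso v hv
        have k1 := key v hv hc.1 hc.2
        have hv'E : v' ∉ E := fun h => k1.1 v' h hvv'.symm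
        have hv'T : v' ∉ T := fun h => k1.2 v' h hvv'.symm
        have k2 := key v' hv' hv'E hv'T
        obtain ⟨t, ht⟩ := hY
        obtain ⟨_, e, he, het⟩ := mem_nbr.1 ht
        rcases hG.adj het hvv' with h | h | h | h
        · exact k1.1 e he h
        · exact k2.1 e he h
        · exact k1.2 t ht h
        · exact k2.2 t ht h
      have hempty : nb G W T \ T = ∅ := by
        rw [Finset.eq_empty_iff_forall_notMem]
        intro v hv
        rw [Finset.mem_sdiff, mem_nb] at hv
        obtain ⟨⟨hvW, hvn⟩, hvT⟩ := hv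
        rcases hWET v hvW with h | h
        · rw [← hNE, mem_nbr] at h
          obtain ⟨_, t, ht, htv⟩ := h
          exact hvn t ht htv
        · exact hvT h
      rw [hempty] at hw ⊢
      have hw0 : wt a (∅ : Finset V) = 0 := by simp [wt]
      refine exact_of_no_card fun s hs => ?_
      unfold Fam at hs
      obtain ⟨s1, s2, s3⟩ := hs
      have hs0 : s = ∅ := Finset.subset_empty.1 s1
      subst hs0
      rw [Finset.card_empty]
      intro hi0
      have s4 : τ' = 0 := by
        rw [← s3, nb_empty]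
        unfold rho; rw [hw0]; omega
      omega

/-- The main exactness theorem for the level families. -/
theorem fam_exact (hG : GapFree G) : ∀ (n : ℕ) (W : Finset V), W.card = n → ∀ τ j : ℕ,
    (1 ≤ τ ∨ ∀ v ∈ W, 0 < a v) → wt a W + 2 ≤ j + 2 * τ → Exact K (Fam G a W τ) j := by
  classical
  intro n
  induction n using Nat.strong_induction_on with
  | _ n ihn =>
    intro W hWn τ j hτ hj
    have ih : ∀ W' : Finset V, W'.card < W.card → ∀ τ j, (1 ≤ τ ∨ ∀ v ∈ W', 0 < a v) →
        wt a W' + 2 ≤ j + 2 * τ → Exact K (Fam G a W' τ) j := by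
      intro W' hW'
      exact ihn W'.card (by omega) W' rfl
    by_cases hiso : ∃ w ∈ W, ∀ v ∈ W, ¬ G.Adj w v
    · obtain ⟨w, hw, h⟩ := hiso
      exact fam_case0 hw h τ j
    push Not at hiso
    by_cases hz : ∃ z ∈ W, a z = 0
    · obtain ⟨z, hz, haz⟩ := hz
      have hτ1 : 1 ≤ τ := by
        rcases hτ with h | h
        · exact h
        · have := h z hz; omega
      by_cases hc1 : ∃ x ∈ W, a x = 0 ∧ ∃ y ∈ W, G.Adj x y ∧ 0 < a y
      · obtain ⟨x, hx, hax, y, hy, hxy, hay⟩ := hc1
        exact fam_case1 hx hax hy hxy hay hτ1 hj ih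
      · push Not at hc1
        refine fam_case2 hG hz haz ?_ hτ1 j
        intro x hx hax y hy hxy
        have := hc1 x hx hax y hy hxy
        omega
    · push Not at hz
      have hpos : ∀ v ∈ W, 0 < a v := fun v hv => Nat.pos_of_ne_zero (hz v hv)
      by_cases hA : ∀ E ⊆ W, E.Nonempty → Indep G E → wt a E + 1 ≤ wt a (nbr G W E)
      · exact fam_case3A hG hpos hA hj ih
      · push Not at hA
        obtain ⟨E0, hE0W, hE0n, hE0i, hE0⟩ := hA
        let Q : Finset V → Prop := fun E => E ⊆ W ∧ E.Nonempty ∧ Indep G E ∧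
          wt a (nbr G W E) ≤ wt a E
        obtain ⟨E, hE, hEmin⟩ := Finset.exists_min_image
          ((univ : Finset (Finset V)).filter Q) Finset.card
          ⟨E0, Finset.mem_filter.2 ⟨Finset.mem_univ _, hE0W, hE0n, hE0i, by omega⟩⟩
        obtain ⟨_, q1, q2, q3, q4⟩ := Finset.mem_filter.1 hE
        refine fam_case3B hG hpos hiso q1 q2 q3 q4 ?_ hj ih
        intro E' h1 h2 h3 h4
        exact hEmin E' (Finset.mem_filter.2 ⟨Finset.mem_univ _, h1, h2, h3, h4⟩)

end Pool.Agent.Helper66.Gap
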