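import Pool.Agent.Helper66.Gap.Res

/-!
Powers of edge ideals of gap-free graphs: assembly.
-/

namespace Pool.Agent.Helper66.Gap

open Finset MvPolynomial

set_option linter.unusedSectionVars false

variable {V : Type*} [Fintype V] [LinearOrder V] {K : Type*} [Field K] {G : SimpleGraph V}

lemma edge_pow_eq (s : ℕ) : (edgeIdeal K G) ^ s = Ideal.span ((fun c => monomial c (1 : K)) ''
    {c : V →₀ ℕ | ∃ m : Multiset (V × V), (∀ p ∈ m, G.Adj p.1 p.2) ∧ m.card = s ∧ load m = c}) := by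
  induction s with
  | zero =>
    rw [pow_zero, Ideal.one_eq_top]
    symm
    rw [Ideal.eq_top_iff_one]
    refine Ideal.subset_span ⟨0, ⟨0, by simp, by simp, load_zero⟩, ?_⟩
    rfl
  | succ s ih =>
    rw [pow_succ, ih, edgeIdeal, Ideal.span_mul_span']
    congr 1
    ext p
    rw [Set.mem_mul]
    constructor
    · rintro ⟨_, ⟨c, ⟨m, h1, h2, h3⟩, rfl⟩, _, ⟨u, v, huv, rfl⟩, rfl⟩
      refine ⟨load ((u, v) ::ₘ m), ⟨(u, v) ::ₘ m, ?_, by simp [h2], rfl⟩, ?_⟩
      · intro q hq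
        rcases Multiset.mem_cons.1 hq with rfl | hq
        · exact huv
        · exact h1 q hq
      · rw [load_cons, h3]
        simp only [X, monomial_mul, mul_one]
        rw [add_comm]
    · rintro ⟨c, ⟨m, h1, h2, h3⟩, rfl⟩
      obtain ⟨q, hq⟩ : ∃ q, q ∈ m := Multiset.card_pos_iff_exists_mem.1 (by omega)
      obtain ⟨m', rfl⟩ := Multiset.exists_cons_of_mem hq
      refine ⟨monomial (load m') 1, ⟨load m', ⟨m', fun p hp => h1 p (Multiset.mem_cons_of_mem hp),
        by rw [Multiset.card_cons] at h2; omega, rfl⟩, rfl⟩, X q.1 * X q.2,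
        ⟨q.1, q.2, h1 q (Multiset.mem_cons_self q m'), rfl⟩, ?_⟩
      rw [← h3, load_cons]
      simp only [X, monomial_mul, mul_one]
      rw [add_comm]

lemma mem_edge_pow {s : ℕ} {p : MvPolynomial V K} :
    p ∈ (edgeIdeal K G) ^ s ↔ ∀ c, coeff c p ≠ 0 → Pk G c s := by
  rw [edge_pow_eq, mem_ideal_span_monomial_image]
  constructor
  · intro h c hc
    obtain ⟨c', ⟨m, h1, h2, h3⟩, h4⟩ := h c (mem_support_iff.2 hc)
    exact ⟨m, h1, h2, h3 ▸ h4⟩
  · intro h c hc
    obtain ⟨m, h1, h2, h3⟩ := h c (mem_support_iff.1 hc)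
    exact ⟨load m, ⟨m, h1, h2, rfl⟩, h3⟩

section Vec

variable {J : Ideal (MvPolynomial V K)} {Q : (V →₀ ℕ) → Prop}

lemma kr_mgr_of_vec (hJ : ∀ p, p ∈ J ↔ ∀ c, coeff c p ≠ 0 → Q c) {e q : ℕ}
    (h : KR V K (ngr (vecIdeal J) (fgr (fun _ => 0))) e q) : KR V K (mgr K Q) e q := by
  refine KR.transfer (LinearMap.proj 0 : (Fin 1 → MvPolynomial V K)
    →ₗ[MvPolynomial V K] MvPolynomial V K) toVec (fun b => rfl) ?_ ?_ h
  · intro e a ha
    rw [mem_ngr, mem_fgr, mem_vecIdeal] at ha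
    intro c hc
    refine ⟨?_, (hJ _).1 ha.2 c hc⟩
    have := ha.1 0 c hc
    rw [add_zero, degree_eq_wt] at this
    exact this
  · intro e b hb
    rw [mem_ngr, mem_fgr, mem_vecIdeal]
    refine ⟨fun i c hc => ?_, (hJ _).2 fun c hc => (hb c hc).2⟩
    rw [add_zero, degree_eq_wt]
    exact (hb c hc).1

lemma kr_vec_of_mgr (hJ : ∀ p, p ∈ J ↔ ∀ c, coeff c p ≠ 0 → Q c) {e q : ℕ}
    (h : KR V K (mgr K Q) e q) : KR V K (ngr (vecIdeal J) (fgr (fun _ => 0))) e q := by
  refine KR.transfer toVec (LinearMap.proj 0 : (Fin 1 → MvPolynomial V K)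
    →ₗ[MvPolynomial V K] MvPolynomial V K) ?_ ?_ ?_ h
  · intro b
    funext i
    rw [Subsingleton.elim i 0]; rfl
  · intro e b hb
    rw [mem_ngr, mem_fgr, mem_vecIdeal]
    refine ⟨fun i c hc => ?_, (hJ _).2 fun c hc => (hb c hc).2⟩
    rw [add_zero, degree_eq_wt]
    exact (hb c hc).1
  · intro e a ha
    rw [mem_ngr, mem_fgr, mem_vecIdeal] at ha
    intro c hc
    refine ⟨?_, (hJ _).1 ha.2 c hc⟩
    have := ha.1 0 c hc
    rw [add_zero, degree_eq_wt] at this
    exact this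

end Vec

/-- Koszul regularity of the powers of edge ideals of gap-free graphs -/
theorem power_kr (hG : GapFree G) {n : ℕ} (hn : RegLE (edgeIdeal K G) n) {s r : ℕ}
    (hr1 : 2 * s ≤ r) (hr2 : n + s ≤ r + 1) {e : ℕ} (he : r ≤ e) (q : ℕ) :
    KR V K (ngr (vecIdeal ((edgeIdeal K G) ^ s)) (fgr (fun _ => 0))) e q := by
  have h1 : ∀ p, p ∈ edgeIdeal K G ↔ ∀ c, coeff c p ≠ 0 → Pk G c 1 := by
    intro p
    have := mem_edge_pow (K := K) (G := G) (s := 1) (p := p)
    rwa [pow_one] at this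
  have hmono : ∀ s : ℕ, ∀ c c' : V →₀ ℕ, c ≤ c' → Pk G c s → Pk G c' s :=
    fun s c c' hc hp => hp.mono hc
  have h2 : ∀ (b : V →₀ ℕ) (q : ℕ), n + Fintype.card V < wt b univ + q →
      Exact K (Jfam (fun c => Pk G c 1) b) q := by
    intro b q hb
    refine jfam_of_kr (hmono 1) (e := wt b univ + q - 1 - Fintype.card V) ?_ (by omega)
    exact kr_mgr_of_vec h1 (kr_of_regLE hn (by omega) q)
  have h3 := core hG h2 hr1 hr2
  refine kr_vec_of_mgr (fun p => mem_edge_pow) ?_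
  exact kr_of_jfam (hmono s) fun b hb => h3 b q (by omega)

/-- The powers of the edge ideal of a gap-free graph have linear resolutions from
`reg I - 1` on. -/
theorem linear_powers (hG : GapFree G) {n : ℕ} (hn : RegLE (edgeIdeal K G) n) {s : ℕ}
    (hs : n ≤ s + 1) : HasLinearRes ((edgeIdeal K G) ^ s) (2 * s) := by
  classical
  refine linearRes_of_kr ?_ (fun e he q => power_kr hG hn le_rfl (by omega) he q) ?_
  · intro f hf e
    rw [mem_vecIdeal, mem_edge_pow] at hf ⊢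
    intro c hc
    rw [coeff_comp] at hc
    refine hf c fun h0 => hc ?_
    rw [h0, ite_self]
  · intro e he f hf hfe
    rw [mem_vecIdeal, mem_edge_pow] at hf
    rw [mem_fgr] at hfe
    funext i
    rw [Subsingleton.elim i 0]
    ext c
    show coeff c (f 0) = 0
    by_contra hne
    have h1 := (hf c hne).two_mul_le
    have h2 := hfe 0 c hne
    rw [add_zero, degree_eq_wt] at h2
    unfold wt at h2
    omega

end Pool.Agent.Helper66.Gap
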