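import Pool.Agent.Helper66.Gap.Cochain

/-!
The Koszul complex of a graded module over a polynomial ring, and diagram chases.
-/

namespace Pool.Agent.Helper66.Gap

open Finset MvPolynomial

set_option linter.unusedSectionVars false

variable {V : Type*} [Fintype V] [LinearOrder V] (K : Type*) [Field K]
variable {A : Type*} [AddCommGroup A] [Module (MvPolynomial V K) A]
variable {B : Type*} [AddCommGroup B] [Module (MvPolynomial V K) B]

/-- the Koszul differential -/
noncomputable def kd (z : Finset V → A) (s : Finset V) : A :=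
  ∑ v ∈ s, (C (sgn K v s) * X v : MvPolynomial V K) • z (s.erase v)

/-- contraction -/
noncomputable def ki (v : V) (z : Finset V → A) (s : Finset V) : A :=
  if v ∈ s then 0 else (C (sgn K v s) : MvPolynomial V K) • z (insert v s)

variable {K}

lemma csgn_sq (v : V) (s : Finset V) :
    (C (sgn K v s) : MvPolynomial V K) * C (sgn K v s) = 1 := by
  rw [← C_mul, sgn_mul_self, C_1]

lemma kd_add (z y : Finset V → A) (s : Finset V) :
    kd K (fun t => z t + y t) s = kd K z s + kd K y s := by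
  unfold kd
  rw [← Finset.sum_add_distrib]
  exact Finset.sum_congr rfl fun v _ => by rw [smul_add]

lemma kd_sub (z y : Finset V → A) (s : Finset V) :
    kd K (fun t => z t - y t) s = kd K z s - kd K y s := by
  unfold kd
  rw [← Finset.sum_sub_distrib]
  exact Finset.sum_congr rfl fun v _ => by rw [smul_sub]

lemma kd_smul (p : MvPolynomial V K) (z : Finset V → A) (s : Finset V) :
    kd K (fun t => p • z t) s = p • kd K z s := by
  unfold kd
  rw [Finset.smul_sum]
  exact Finset.sum_congr rfl fun v _ => smul_comm _ _ _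

lemma kd_map (π : A →ₗ[MvPolynomial V K] B) (z : Finset V → A) (s : Finset V) :
    kd K (fun t => π (z t)) s = π (kd K z s) := by
  unfold kd
  rw [map_sum]
  exact Finset.sum_congr rfl fun v _ => (map_smul π _ _).symm

lemma kd_congr {z y : Finset V → A} {s : Finset V} (h : ∀ v ∈ s, z (s.erase v) = y (s.erase v)) :
    kd K z s = kd K y s := by
  unfold kd
  exact Finset.sum_congr rfl fun v hv => by rw [h v hv]

lemma kd_eq_zero {z : Finset V → A} {s : Finset V} (h : ∀ v ∈ s, z (s.erase v) = 0) :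
    kd K z s = 0 := by
  unfold kd
  exact Finset.sum_eq_zero fun v hv => by rw [h v hv, smul_zero]

lemma kd_ne_zero {z : Finset V → A} {s : Finset V} (h : kd K z s ≠ 0) :
    ∃ v ∈ s, z (s.erase v) ≠ 0 := by
  by_contra hc
  push Not at hc
  exact h (kd_eq_zero hc)

lemma kd_card {z : Finset V → A} {j : ℕ} (hf : ∀ s, z s ≠ 0 → s.card + 1 = j) {s : Finset V}
    (h : kd K z s ≠ 0) : s.card = j := by
  obtain ⟨v, hv, hne⟩ := kd_ne_zero h
  have := hf _ hne
  rw [Finset.card_erase_of_mem hv] at this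
  have := Finset.card_pos.2 ⟨v, hv⟩
  omega

lemma kd_ki (v : V) (z : Finset V → A) (s : Finset V) :
    kd K (ki K v z) s + ki K v (kd K z) s = (X v : MvPolynomial V K) • z s := by
  by_cases hv : v ∈ s
  · have h1 : ki K v (kd K z) s = 0 := by simp [ki, hv]
    rw [h1, add_zero]
    unfold kd
    rw [Finset.sum_eq_single v]
    · unfold ki
      rw [if_neg (Finset.notMem_erase v s), Finset.insert_erase hv, sgn_erase_self, smul_smul]
      congr 1
      linear_combination (X v) * csgn_sq (K := K) v s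
    · intro w _ hwv
      unfold ki
      rw [if_pos (Finset.mem_erase.2 ⟨hwv.symm, hv⟩), smul_zero]
    · intro h; exact absurd hv h
  · have h1 : ki K v (kd K z) s = (C (sgn K v s) : MvPolynomial V K) • kd K z (insert v s) := by
      simp [ki, hv]
    have h2 : kd K z (insert v s) = (C (sgn K v s) * X v : MvPolynomial V K) • z s
      + ∑ w ∈ s, (C (sgn K w (insert v s)) * X w : MvPolynomial V K)
          • z (insert v (s.erase w)) := by
      unfold kd
      rw [Finset.sum_insert hv, sgn_insert_self, Finset.erase_insert hv]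
      congr 1
      refine Finset.sum_congr rfl fun w hw => ?_
      rw [Finset.erase_insert_of_ne]
      rintro rfl
      exact hv hw
    rw [h1, h2, smul_add, smul_smul]
    have h3 : (C (sgn K v s) * (C (sgn K v s) * X v) : MvPolynomial V K) = X v := by
      linear_combination (X v) * csgn_sq (K := K) v s
    rw [h3, add_left_comm]
    conv_rhs => rw [← add_zero ((X v : MvPolynomial V K) • z s)]
    congr 1
    unfold kd
    rw [Finset.smul_sum, ← Finset.sum_add_distrib]
    refine Finset.sum_eq_zero fun w hw => ?_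
    have hwv : w ≠ v := by rintro rfl; exact hv hw
    have hve : v ∉ s.erase w := fun h => hv (Finset.mem_of_mem_erase h)
    have hwe : w ∉ s.erase w := Finset.notMem_erase w s
    unfold ki
    rw [if_neg hve, smul_smul, smul_smul, ← add_smul]
    have hs : insert w (s.erase w) = s := Finset.insert_erase hw
    have h4 := sgn_comm (K := K) hwv.symm hve hwe
    rw [hs] at h4
    have h5 : sgn K w (insert v s) = sgn K w (insert v (s.erase w)) := by
      conv_lhs => rw [← hs, Finset.insert_comm, sgn_insert_self]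
    rw [h5]
    have h6 := congrArg (C : K → MvPolynomial V K) h4
    simp only [C_mul, C_neg] at h6
    have : (C (sgn K w s) * X w * C (sgn K v (s.erase w))
        + C (sgn K v s) * (C (sgn K w (insert v (s.erase w))) * X w) : MvPolynomial V K) = 0 := by
      linear_combination (X w) * h6
    rw [this, zero_smul]

lemma kd_kd : ∀ (n : ℕ) (z : Finset V → A) (s : Finset V), s.card = n →
    kd K (kd K z) s = 0 := by
  intro n
  induction n with
  | zero =>
    intro z s hs
    rw [Finset.card_eq_zero] at hs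
    rw [hs]; simp [kd]
  | succ n ih =>
    intro z s hs
    obtain ⟨v, hv⟩ : s.Nonempty := by
      rw [← Finset.card_pos, hs]; omega
    have h0 : v ∉ s.erase v := Finset.notMem_erase v s
    have hc : (s.erase v).card = n := by rw [Finset.card_erase_of_mem hv, hs]; omega
    have e1 := kd_ki (K := K) v (kd K z) (s.erase v)
    have e2 : kd K (fun t => kd K (ki K v z) t + ki K v (kd K z) t) (s.erase v)
        = kd K (fun t => (X v : MvPolynomial V K) • z t) (s.erase v) :=
      kd_congr fun w _ => kd_ki v z _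
    rw [kd_add, ih (ki K v z) _ hc, zero_add, kd_smul] at e2
    rw [e2] at e1
    have e3 : ki K v (kd K (kd K z)) (s.erase v) = 0 := by
      exact left_eq_add.1 e1.symm
    unfold ki at e3
    rw [if_neg h0, Finset.insert_erase hv] at e3
    have e4 := congrArg (fun t : A => (C (sgn K v (s.erase v)) : MvPolynomial V K) • t) e3
    simp only [smul_zero] at e4
    rw [smul_smul, csgn_sq, one_smul] at e4
    exact e4

lemma kd_kd' (z : Finset V → A) (s : Finset V) : kd K (kd K z) s = 0 := kd_kd _ z s rfl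

/-! ### Graded modules and Koszul regularity -/

variable (K) in
/-- compatibility of a grading with the action -/
def Gr (𝒜 : ℕ → AddSubgroup A) : Prop :=
  ∀ (e : ℕ) (v : V) (c : K) (a : A), a ∈ 𝒜 e → (C c * X v : MvPolynomial V K) • a ∈ 𝒜 (e + 1)

variable (K) (V) in
/-- exactness of the Koszul complex at level `q` in value degree `e + 1` -/
def KR (𝒜 : ℕ → AddSubgroup A) (e q : ℕ) : Prop :=
  ∀ z : Finset V → A, (∀ σ, z σ ∈ 𝒜 (e + 1)) → (∀ σ, z σ ≠ 0 → σ.card = q) →
    (∀ σ, kd K z σ = 0) →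
    ∃ y : Finset V → A, (∀ σ, y σ ∈ 𝒜 e) ∧ (∀ σ, y σ ≠ 0 → σ.card + 1 = q) ∧
      ∀ σ, kd K y σ = z σ

/-- graded kernel -/
noncomputable def kgr (π : A →ₗ[MvPolynomial V K] B) (𝒜 : ℕ → AddSubgroup A) (e : ℕ) : AddSubgroup A :=
  𝒜 e ⊓ (LinearMap.ker π).toAddSubgroup

lemma mem_kgr {π : A →ₗ[MvPolynomial V K] B} {𝒜 : ℕ → AddSubgroup A} {e : ℕ} {a : A} :
    a ∈ kgr π 𝒜 e ↔ a ∈ 𝒜 e ∧ π a = 0 := by
  unfold kgr
  rw [AddSubgroup.mem_inf, Submodule.mem_toAddSubgroup, LinearMap.mem_ker]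

lemma kd_mem {𝒜 : ℕ → AddSubgroup A} (hA : Gr K (V := V) 𝒜) {e : ℕ} {z : Finset V → A}
    (hz : ∀ σ, z σ ∈ 𝒜 e) (σ : Finset V) : kd K z σ ∈ 𝒜 (e + 1) := by
  unfold kd
  exact AddSubgroup.sum_mem _ fun v _ => hA e v _ _ (hz _)

lemma KR.of_large {𝒜 : ℕ → AddSubgroup A} {e q : ℕ} (hq : Fintype.card V < q) :
    KR V K 𝒜 e q := by
  intro z _ hz2 _
  refine ⟨fun _ => 0, fun σ => AddSubgroup.zero_mem _, fun σ h => absurd rfl h, fun σ => ?_⟩
  rw [kd_eq_zero fun _ _ => rfl]
  by_contra hne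
  have h1 := hz2 σ (Ne.symm hne)
  have h2 : σ.card ≤ Fintype.card V := Finset.card_le_univ σ
  omega

lemma chase1 {π : A →ₗ[MvPolynomial V K] B} {𝒜 : ℕ → AddSubgroup A} {ℬ : ℕ → AddSubgroup B}
    (hA : Gr K (V := V) 𝒜) (hs : ∀ e, ∀ b ∈ ℬ e, ∃ a ∈ 𝒜 e, π a = b)
    (hπ : ∀ e, ∀ a ∈ 𝒜 e, π a ∈ ℬ e)
    {e q : ℕ} (h1 : KR V K 𝒜 e q) (h2 : KR V K (kgr π 𝒜) (e + 1) (q + 1)) : KR V K ℬ e q := by
  classical
  intro z hz1 hz2 hz3
  choose L hL1 hL2 using hs (e + 1)
  let zt : Finset V → A := fun σ => if z σ = 0 then 0 else L (z σ) (hz1 σ)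
  have hzt1 : ∀ σ, zt σ ∈ 𝒜 (e + 1) := by
    intro σ
    by_cases h : z σ = 0
    · simp only [zt, if_pos h]; exact AddSubgroup.zero_mem _
    · simp only [zt, if_neg h]; exact hL1 _ _
  have hzt2 : ∀ σ, π (zt σ) = z σ := by
    intro σ
    by_cases h : z σ = 0
    · simp only [zt, if_pos h, h, map_zero]
    · simp only [zt, if_neg h]; exact hL2 _ _
  have hzt3 : ∀ σ, zt σ ≠ 0 → σ.card = q := by
    intro σ hσ
    refine hz2 σ fun h => hσ ?_
    simp only [zt, if_pos h]
  obtain ⟨w, hw1, hw2, hw3⟩ := h2 (kd K zt)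
    (fun σ => by
      rw [mem_kgr]
      refine ⟨kd_mem hA hzt1 σ, ?_⟩
      rw [← kd_map]
      rw [← hz3 σ]
      exact kd_congr fun v _ => hzt2 _)
    (fun σ hσ => kd_card (fun s hs => by rw [hzt3 s hs]) hσ)
    (fun σ => kd_kd' zt σ)
  obtain ⟨y, hy1, hy2, hy3⟩ := h1 (fun σ => zt σ - w σ)
    (fun σ => AddSubgroup.sub_mem _ (hzt1 σ) (mem_kgr.1 (hw1 σ)).1)
    (fun σ hσ => by
      by_cases h : zt σ = 0
      · have : w σ ≠ 0 := by
          intro h'; apply hσ; simp [h, h']
        have := hw2 σ this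
        omega
      · exact hzt3 σ h)
    (fun σ => by rw [kd_sub, hw3, sub_self])
  refine ⟨fun σ => π (y σ), fun σ => hπ e _ (hy1 σ), fun σ hσ => hy2 σ fun h => hσ ?_,
    fun σ => ?_⟩
  · simp [h]
  · rw [kd_map, hy3, map_sub, hzt2, (mem_kgr.1 (hw1 σ)).2, sub_zero]

lemma chase2 {π : A →ₗ[MvPolynomial V K] B} {𝒜 : ℕ → AddSubgroup A} {ℬ : ℕ → AddSubgroup B}
    (hA : Gr K (V := V) 𝒜) (hs : ∀ e, ∀ b ∈ ℬ e, ∃ a ∈ 𝒜 e, π a = b)
    (hπ : ∀ e, ∀ a ∈ 𝒜 e, π a ∈ ℬ e)
    {e q : ℕ} (h1 : KR V K 𝒜 (e + 1) q) (h2 : ∀ q', q' + 1 = q → KR V K ℬ e q') :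
    KR V K (kgr π 𝒜) (e + 1) q := by
  classical
  intro z hz1 hz2 hz3
  obtain ⟨y, hy1, hy2, hy3⟩ := h1 z (fun σ => (mem_kgr.1 (hz1 σ)).1) hz2 hz3
  rcases Nat.eq_zero_or_pos q with hq | hq
  · have hy0 : ∀ σ, y σ = 0 := by
      intro σ; by_contra h; have := hy2 σ h; omega
    refine ⟨y, fun σ => ?_, hy2, hy3⟩
    rw [hy0 σ]; exact AddSubgroup.zero_mem _
  · obtain ⟨q', rfl⟩ : ∃ q', q' + 1 = q := ⟨q - 1, by omega⟩
    obtain ⟨u, hu1, hu2, hu3⟩ := h2 q' rfl (fun σ => π (y σ)) (fun σ => hπ _ _ (hy1 σ))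
      (fun σ hσ => by
        have := hy2 σ fun h => hσ (by simp [h])
        omega)
      (fun σ => by
        rw [kd_map, hy3]
        exact (mem_kgr.1 (hz1 σ)).2)
    choose L hL1 hL2 using hs e
    let ut : Finset V → A := fun σ => if u σ = 0 then 0 else L (u σ) (hu1 σ)
    have hut1 : ∀ σ, ut σ ∈ 𝒜 e := by
      intro σ
      by_cases h : u σ = 0
      · simp only [ut, if_pos h]; exact AddSubgroup.zero_mem _
      · simp only [ut, if_neg h]; exact hL1 _ _
    have hut2 : ∀ σ, π (ut σ) = u σ := by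
      intro σ
      by_cases h : u σ = 0
      · simp only [ut, if_pos h, h, map_zero]
      · simp only [ut, if_neg h]; exact hL2 _ _
    have hut3 : ∀ σ, ut σ ≠ 0 → σ.card + 1 = q' := by
      intro σ hσ
      refine hu2 σ fun h => hσ ?_
      simp only [ut, if_pos h]
    refine ⟨fun σ => y σ - kd K ut σ, fun σ => ?_, fun σ hσ => ?_, fun σ => ?_⟩
    · rw [mem_kgr]
      refine ⟨AddSubgroup.sub_mem _ (hy1 σ) (kd_mem hA hut1 σ), ?_⟩
      rw [map_sub, ← kd_map, ← hu3 σ, sub_eq_zero]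
      exact (kd_congr fun v _ => hut2 _).symm
    · by_cases h : y σ = 0
      · have h' : kd K ut σ ≠ 0 := by
          intro h'; apply hσ; simp [h, h']
        have := kd_card hut3 h'
        omega
      · exact hy2 σ h
    · rw [kd_sub, kd_kd', sub_zero, hy3]

end Pool.Agent.Helper66.Gap
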