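import Pool.Agent.Helper66.Gap.Steps
import Pool.Agent.Helper66.Gap.Koszul

/-!
The Koszul complex of a monomial ideal, one multidegree at a time.
-/

namespace Pool.Agent.Helper66.Gap

open Finset MvPolynomial

set_option linter.unusedSectionVars false

variable {V : Type*} [Fintype V] [LinearOrder V] {K : Type*} [Field K]

/-- graded pieces of the monomial ideal given by `Q` -/
def mgr (K : Type*) [Field K] (Q : (V →₀ ℕ) → Prop) (e : ℕ) : AddSubgroup (MvPolynomial V K) where
  carrier := {p | ∀ c, coeff c p ≠ 0 → wt c univ = e ∧ Q c}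
  add_mem' := by
    intro p q hp hq c hc
    by_cases h : coeff c p = 0
    · refine hq c fun h' => hc ?_
      rw [coeff_add, h, h', add_zero]
    · exact hp c h
  zero_mem' := by
    intro c hc
    exact absurd (coeff_zero c) hc
  neg_mem' := by
    intro p hp c hc
    refine hp c fun h => hc ?_
    rw [coeff_neg, h, neg_zero]

lemma mem_mgr {Q : (V →₀ ℕ) → Prop} {e : ℕ} {p : MvPolynomial V K} :
    p ∈ mgr K Q e ↔ ∀ c, coeff c p ≠ 0 → wt c univ = e ∧ Q c := Iff.rfl

lemma gr_mgr {Q : (V →₀ ℕ) → Prop} (hQ : ∀ c c', c ≤ c' → Q c → Q c') :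
    Gr K (V := V) (mgr K Q) := by
  intro e v c a ha d hd
  rw [smul_eq_mul, mul_assoc, coeff_C_mul, coeff_X_mul'] at hd
  have h1 : v ∈ d.support := by
    by_contra h
    rw [if_neg h, mul_zero] at hd
    exact hd rfl
  rw [if_pos h1] at hd
  have h2 := ha _ (right_ne_zero_of_mul hd)
  have h3 : d - Finsupp.single v 1 + Finsupp.single v 1 = d := by
    refine tsub_add_cancel_of_le ?_
    rw [Finsupp.single_le_iff]
    rw [Finsupp.mem_support_iff] at h1
    omega
  constructor
  · rw [← h3, wt_univ_add_single, h2.1]
  · exact hQ _ _ tsub_le_self h2.2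

open Classical in
/-- the multidegree `b` part of a Koszul cochain -/
noncomputable def phi (b : V →₀ ℕ) (z : Finset V → MvPolynomial V K) (σ : Finset V) : K :=
  if ∀ v, v ∉ σ → 1 ≤ b v then coeff (b - ind σᶜ) (z σ) else 0

lemma coeff_kd {b : V →₀ ℕ} (z : Finset V → MvPolynomial V K) {σ : Finset V}
    (hσ : ∀ v, v ∉ σ → 1 ≤ b v) : coeff (b - ind σᶜ) (kd K z σ) = dd (phi b z) σ := by
  unfold kd dd
  rw [coeff_sum]
  refine Finset.sum_congr rfl fun v hv => ?_
  rw [smul_eq_mul, mul_assoc, coeff_C_mul, coeff_X_mul']
  congr 1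
  have hval : (b - ind σᶜ) v = b v := by
    simp [ind_apply, hv]
  unfold phi
  by_cases hb : 1 ≤ b v
  · rw [if_pos (by rw [Finsupp.mem_support_iff, hval]; omega), if_pos]
    · congr 1
      ext w
      simp only [Finsupp.coe_tsub, Pi.sub_apply, ind_apply, Finset.mem_compl, Finset.mem_erase,
        Finsupp.single_apply]
      by_cases hw : w = v
      · subst hw; simp [hv]
      · have hw' : ¬ v = w := fun h => hw h.symm
        simp [hw, hw']
    · intro w hw
      by_cases h : w = v
      · rw [h]; exact hb
      · exact hσ w fun h' => hw (Finset.mem_erase.2 ⟨h, h'⟩)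
  · rw [if_neg (by rw [Finsupp.mem_support_iff, hval]; omega), if_neg]
    intro h
    exact hb (h v (Finset.notMem_erase v σ))

lemma wt_sub_compl {b : V →₀ ℕ} {σ : Finset V} (hσ : ∀ v, v ∉ σ → 1 ≤ b v) :
    wt (b - ind σᶜ) univ + Fintype.card V = wt b univ + σ.card := by
  have h1 : ∑ v, ind σᶜ v + σ.card = Fintype.card V := by
    have : ∑ v, ind σᶜ v = σᶜ.card := by
      simp only [ind_apply]
      rw [Finset.sum_ite_mem, Finset.univ_inter, Finset.sum_const, smul_eq_mul, mul_one]
    rw [this, add_comm]
    exact Finset.card_add_card_compl σ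
  have h2 : wt (b - ind σᶜ) univ + ∑ v, ind σᶜ v = wt b univ := by
    unfold wt
    rw [← Finset.sum_add_distrib]
    refine Finset.sum_congr rfl fun v _ => ?_
    simp only [Finsupp.coe_tsub, Pi.sub_apply, ind_apply, Finset.mem_compl]
    by_cases h : v ∈ σ
    · simp [h]
    · have := hσ v h
      simp only [h, not_false_eq_true, if_true]
      omega
  omega

lemma sub_add_compl {b : V →₀ ℕ} {σ : Finset V} (hσ : ∀ v, v ∉ σ → 1 ≤ b v) :
    b - ind σᶜ + ind σᶜ = b := by
  refine tsub_add_cancel_of_le ?_
  intro v
  rw [ind_apply]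
  by_cases h : v ∈ σ
  · simp [h]
  · simp [h, hσ v h]

/-- exactness of all multidegree families gives exactness of the Koszul complex -/
theorem kr_of_jfam {Q : (V →₀ ℕ) → Prop} (hQ : ∀ c c', c ≤ c' → Q c → Q c') {e q : ℕ}
    (h : ∀ b : V →₀ ℕ, wt b univ + q = e + 1 + Fintype.card V → Exact K (Jfam Q b) q) :
    KR V K (mgr K Q) e q := by
  classical
  intro z hz1 hz2 hz3
  have hex : ∀ b : V →₀ ℕ, ∃ g : Finset V → K, wt b univ + q = e + 1 + Fintype.card V →
      (∀ s, g s ≠ 0 → Jfam Q b s ∧ s.card + 1 = q) ∧ ∀ s, Jfam Q b s → dd g s = phi b z s := by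
    intro b
    by_cases hb : wt b univ + q = e + 1 + Fintype.card V
    · obtain ⟨g, hg1, hg2⟩ := h b hb (phi b z)
        (fun s hs => by
          unfold phi at hs
          have h1 : ∀ v, v ∉ s → 1 ≤ b v := by
            by_contra h1; rw [if_neg h1] at hs; exact hs rfl
          rw [if_pos h1] at hs
          refine ⟨⟨h1, (hz1 s _ hs).2⟩, hz2 s fun h0 => hs ?_⟩
          rw [h0, coeff_zero])
        (fun s hs => by
          rw [← coeff_kd z hs.1, hz3, coeff_zero])
      exact ⟨g, fun _ => ⟨hg1, hg2⟩⟩
    · exact ⟨fun _ => 0, fun h' => absurd h' hb⟩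
  choose g hg using hex
  let y : Finset V → MvPolynomial V K := fun σ =>
    if σ.card + 1 = q then
      ∑ c ∈ Finset.finsuppAntidiag (univ : Finset V) e, monomial c (g (c + ind σᶜ) σ)
    else 0
  have hy : ∀ σ c, coeff c (y σ) =
      if σ.card + 1 = q ∧ wt c univ = e then g (c + ind σᶜ) σ else 0 := by
    intro σ c
    by_cases hσ : σ.card + 1 = q
    · simp only [y, if_pos hσ, hσ, true_and]
      rw [coeff_sum]
      simp only [coeff_monomial]
      rw [Finset.sum_ite_eq']
      have : c ∈ Finset.finsuppAntidiag (univ : Finset V) e ↔ wt c univ = e := by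
        rw [Finset.mem_finsuppAntidiag]
        simp [wt]
      simp only [this]
    · simp only [y, if_neg hσ, coeff_zero, hσ, false_and, if_false]
  -- degrees
  have hdeg : ∀ (σ : Finset V) (c : V →₀ ℕ), σ.card + 1 = q → wt c univ = e →
      wt (c + ind σᶜ) univ + q = e + 1 + Fintype.card V := by
    intro σ c h1 h2
    have h3 : wt (c + ind σᶜ) univ = wt c univ + σᶜ.card := by
      unfold wt
      simp only [Finsupp.coe_add, Pi.add_apply, Finset.sum_add_distrib, ind_apply]
      rw [Finset.sum_ite_mem, Finset.univ_inter, Finset.sum_const, smul_eq_mul, mul_one]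
    have h4 := Finset.card_add_card_compl σ
    omega
  have haddsub : ∀ (σ : Finset V) (c : V →₀ ℕ), c + ind σᶜ - ind σᶜ = c := by
    intro σ c; exact add_tsub_cancel_right _ _
  refine ⟨y, fun σ => ?_, fun σ hσ => ?_, fun σ => ?_⟩
  · intro c hc
    rw [hy] at hc
    by_cases h1 : σ.card + 1 = q ∧ wt c univ = e
    · rw [if_pos h1] at hc
      refine ⟨h1.2, ?_⟩
      have := ((hg _ (hdeg σ c h1.1 h1.2)).1 σ hc).1.2
      rwa [haddsub] at this
    · rw [if_neg h1] at hc; exact absurd rfl hc
  · by_contra hc
    apply hσ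
    simp only [y, if_neg hc]
  · -- the identity `kd y = z`
    by_cases hσq : σ.card = q
    swap
    · have h1 : z σ = 0 := by
        by_contra h; exact hσq (hz2 σ h)
      rw [h1]
      by_contra hne
      refine hσq (kd_card (j := q) (z := y) (fun s hs => ?_) hne)
      by_contra hc
      apply hs
      simp only [y, if_neg hc]
    ext c
    -- the multidegree
    set b := c + ind σᶜ with hb
    have hbσ : ∀ v, v ∉ σ → 1 ≤ b v := by
      intro v hv
      simp [hb, ind_apply, hv]
    have hbc : b - ind σᶜ = c := haddsub σ c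
    have hphi : ∀ v ∈ σ, phi b y (σ.erase v) = if wt c univ = e + 1 then g b (σ.erase v) else 0 := by
      intro v hv
      have hc1 : (σ.erase v).card + 1 = q := by
        rw [Finset.card_erase_of_mem hv]
        have := Finset.card_pos.2 ⟨v, hv⟩
        omega
      unfold phi
      by_cases hbv : ∀ w, w ∉ σ.erase v → 1 ≤ b w
      · rw [if_pos hbv, hy, sub_add_compl hbv]
        have h1 := wt_sub_compl hbv
        have h2 := wt_sub_compl hbσ
        rw [hbc] at h2
        by_cases h3 : wt c univ = e + 1
        · rw [if_pos h3, if_pos ⟨hc1, by omega⟩]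
        · rw [if_neg h3, if_neg]
          rintro ⟨_, h4⟩
          omega
      · rw [if_neg hbv]
        by_cases h3 : wt c univ = e + 1
        · rw [if_pos h3]
          by_contra hne
          have hbw : wt b univ + q = e + 1 + Fintype.card V := by
            have h2 := wt_sub_compl hbσ
            rw [hbc] at h2
            omega
          exact hbv ((hg b hbw).1 _ (Ne.symm hne)).1.1
        · rw [if_neg h3]
    have h5 := coeff_kd y hbσ
    rw [hbc] at h5
    rw [h5]
    have h6 := wt_sub_compl hbσ
    rw [hbc] at h6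
    by_cases h3 : wt c univ = e + 1
    · have hbw : wt b univ + q = e + 1 + Fintype.card V := by omega
      have h7 : dd (phi b y) σ = dd (g b) σ := by
        refine dd_congr fun v hv => ?_
        rw [hphi v hv, if_pos h3]
      rw [h7]
      by_cases hJ : Jfam Q b σ
      · rw [(hg b hbw).2 σ hJ]
        unfold phi
        rw [if_pos hbσ, hbc]
      · have hnQ : ¬ Q c := by
          intro hQc
          apply hJ
          refine ⟨hbσ, ?_⟩
          rw [hbc]; exact hQc
        have h8 : coeff c (z σ) = 0 := by
          by_contra hne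
          exact hnQ (hz1 σ c hne).2
        rw [h8]
        refine dd_eq_zero fun v hv => ?_
        by_contra hne
        have h9 := ((hg b hbw).1 _ hne).1.2
        apply hnQ
        refine hQ _ _ ?_ h9
        rw [← hbc]
        intro w
        simp only [Finsupp.coe_tsub, Pi.sub_apply, ind_apply, Finset.mem_compl, Finset.mem_erase]
        by_cases hw : w ∈ σ
        · simp [hw]
        · simp [hw]
    · have h7 : dd (phi b y) σ = 0 := by
        refine dd_eq_zero fun v hv => ?_
        rw [hphi v hv, if_neg h3]
      rw [h7]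
      by_contra hne
      exact h3 (hz1 σ c (Ne.symm hne)).1

/-- and conversely -/
theorem jfam_of_kr {Q : (V →₀ ℕ) → Prop} (hQ : ∀ c c', c ≤ c' → Q c → Q c') {e q : ℕ}
    (h : KR V K (mgr K Q) e q) {b : V →₀ ℕ} (hb : wt b univ + q = e + 1 + Fintype.card V) :
    Exact K (Jfam Q b) q := by
  classical
  intro f hf1 hf2
  let z : Finset V → MvPolynomial V K := fun σ => monomial (b - ind σᶜ) (f σ)
  have hz : ∀ σ c, coeff c (z σ) = if b - ind σᶜ = c then f σ else 0 := by
    intro σ c; simp only [z, coeff_monomial]
  have hphi : ∀ σ, phi b z σ = f σ := by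
    intro σ
    unfold phi
    by_cases h1 : ∀ v, v ∉ σ → 1 ≤ b v
    · rw [if_pos h1, hz, if_pos rfl]
    · rw [if_neg h1]
      by_contra hne
      exact h1 (hf1 σ (Ne.symm hne)).1.1
  have hdf : ∀ σ, (∀ v, v ∉ σ → 1 ≤ b v) → dd f σ = 0 := by
    intro σ hσ
    by_cases hJ : Jfam Q b σ
    · exact hf2 σ hJ
    · refine dd_eq_zero fun v hv => ?_
      by_contra hne
      apply hJ
      refine ⟨hσ, hQ _ _ ?_ (hf1 _ hne).1.2⟩
      intro w
      simp only [Finsupp.coe_tsub, Pi.sub_apply, ind_apply, Finset.mem_compl, Finset.mem_erase]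
      by_cases hw : w ∈ σ
      · simp [hw]
      · simp [hw]
  obtain ⟨y, hy1, hy2, hy3⟩ := h z
    (fun σ c hc => by
      rw [hz] at hc
      have h1 : b - ind σᶜ = c := by
        by_contra h1; rw [if_neg h1] at hc; exact hc rfl
      rw [if_pos h1] at hc
      have h2 := hf1 σ hc
      have h3 := wt_sub_compl h2.1.1
      rw [h1] at h3
      refine ⟨by omega, ?_⟩
      rw [← h1]; exact h2.1.2)
    (fun σ hσ => (hf1 σ fun h0 => hσ (by simp only [z, h0, monomial_zero])).2)
    (fun σ => by
      -- all coefficients of `kd z σ` vanish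
      by_cases hb1 : ∀ v, v ∉ σ → 1 ≤ b v
      · ext c
        rw [coeff_zero]
        by_cases hc : b - ind σᶜ = c
        · rw [← hc, coeff_kd z hb1]
          rw [← hdf σ hb1]
          exact dd_congr fun v _ => hphi _
        · unfold kd
          rw [coeff_sum]
          refine Finset.sum_eq_zero fun v hv => ?_
          rw [smul_eq_mul, mul_assoc, coeff_C_mul, coeff_X_mul']
          by_cases hvc : v ∈ c.support
          · rw [if_pos hvc, hz]
            by_cases h0 : f (σ.erase v) = 0
            · simp [h0]
            · rw [if_neg, mul_zero]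
              intro h1
              apply hc
              have h2 := (hf1 _ h0).1.1
              ext w
              have h3 := DFunLike.congr_fun h1 w
              have h4 := h2 v (Finset.notMem_erase v σ)
              rw [Finsupp.mem_support_iff] at hvc
              simp only [Finsupp.coe_tsub, Pi.sub_apply, ind_apply, Finset.mem_compl,
                Finset.mem_erase, Finsupp.single_apply] at h3 ⊢
              by_cases hw : w = v
              · subst hw
                simp only [hv, not_true, if_false, ne_eq, false_and, not_false_eq_true,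
                  if_true] at h3 ⊢
                omega
              · have hw' : ¬ v = w := fun h => hw h.symm
                simp only [hw, hw', ne_eq, not_false_eq_true, true_and, if_false] at h3 ⊢
                omega
          · rw [if_neg hvc, mul_zero]
      · refine kd_eq_zero fun v hv => ?_
        push Not at hb1
        obtain ⟨w, hw1, hw2⟩ := hb1
        have h0 : f (σ.erase v) = 0 := by
          by_contra h0
          have := (hf1 _ h0).1.1 w fun h => hw1 (Finset.mem_of_mem_erase h)
          omega
        simp only [z, h0, monomial_zero])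
  refine ⟨rst (Jfam Q b) (phi b y), fun s hs => ?_, fun s hs => ?_⟩
  · have h1 := rst_ne hs
    refine ⟨h1.1, hy2 s fun h0 => h1.2 ?_⟩
    unfold phi
    rw [h0, coeff_zero, ite_self]
  · have e1 : dd (rst (Jfam Q b) (phi b y)) s = dd (phi b y) s := by
      refine dd_congr fun v hv => ?_
      by_cases hJ : Jfam Q b (s.erase v)
      · rw [rst_of hJ]
      · rw [rst_of_not hJ]
        by_contra hne
        apply hJ
        have hne' := Ne.symm hne
        unfold phi at hne'
        have h1 : ∀ w, w ∉ s.erase v → 1 ≤ b w := by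
          by_contra h1; rw [if_neg h1] at hne'; exact hne' rfl
        rw [if_pos h1] at hne'
        exact ⟨h1, (hy1 _ _ hne').2⟩
    rw [e1, ← coeff_kd y hs.1, hy3, hz, if_pos rfl]

end Pool.Agent.Helper66.Gap
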