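import Mathlib

/-!
Packings of edges of a graph in a weight vector on the vertices.
-/

namespace Pool.Agent.Helper66.Gap

open Finset

set_option linter.unusedSectionVars false

variable {V : Type*} [Fintype V] [DecidableEq V]

/-- The exponent vector of a product of edges. -/
noncomputable def load (m : Multiset (V × V)) : V →₀ ℕ :=
  (m.map (fun p => Finsupp.single p.1 1 + Finsupp.single p.2 1)).sum

/-- `Pk G c s`: there is a multiset of `s` edges of `G` whose vertex load is at most `c`. -/
def Pk (G : SimpleGraph V) (c : V →₀ ℕ) (s : ℕ) : Prop :=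
  ∃ m : Multiset (V × V), (∀ p ∈ m, G.Adj p.1 p.2) ∧ m.card = s ∧ load m ≤ c

lemma load_zero : load (0 : Multiset (V × V)) = 0 := by simp [load]

lemma load_cons (p : V × V) (m : Multiset (V × V)) :
    load (p ::ₘ m) = (Finsupp.single p.1 1 + Finsupp.single p.2 1) + load m := by
  simp [load]

lemma load_add (m m' : Multiset (V × V)) : load (m + m') = load m + load m' := by
  simp [load]

lemma one_le_load {m : Multiset (V × V)} {p : V × V} (hp : p ∈ m) :
    1 ≤ load m p.1 ∧ 1 ≤ load m p.2 := by
  obtain ⟨m', rfl⟩ := Multiset.exists_cons_of_mem hp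
  rw [load_cons]
  simp only [Finsupp.coe_add, Pi.add_apply, Finsupp.single_eq_same]
  constructor <;> omega

lemma sum_load (m : Multiset (V × V)) : ∑ v, load m v = 2 * m.card := by
  induction m using Multiset.induction_on with
  | empty => simp [load_zero]
  | cons p m ih =>
    rw [load_cons]
    simp only [Finsupp.coe_add, Pi.add_apply, Finset.sum_add_distrib, ih, Multiset.card_cons]
    simp only [Finsupp.single_apply]
    simp
    ring

lemma load_mono {m m' : Multiset (V × V)} (h : m ≤ m') : load m ≤ load m' := by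
  obtain ⟨u, rfl⟩ := Multiset.le_iff_exists_add.1 h
  rw [load_add]
  exact le_self_add

lemma card_le_load {C : Finset V} {m : Multiset (V × V)} (h : ∀ p ∈ m, p.1 ∈ C ∨ p.2 ∈ C) :
    m.card ≤ ∑ v ∈ C, load m v := by
  induction m using Multiset.induction_on with
  | empty => simp [load_zero]
  | cons p m ih =>
    have h1 := ih fun q hq => h q (Multiset.mem_cons_of_mem hq)
    have h2 := h p (Multiset.mem_cons_self p m)
    rw [load_cons]
    simp only [Finsupp.coe_add, Pi.add_apply, Finset.sum_add_distrib, Multiset.card_cons]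
    simp only [Finsupp.single_apply, Finset.sum_ite_eq]
    rcases h2 with h2 | h2 <;> rw [if_pos h2] <;> omega

lemma load_eq_zero {m : Multiset (V × V)} {v : V} (h : ∀ p ∈ m, p.1 ≠ v ∧ p.2 ≠ v) :
    load m v = 0 := by
  induction m using Multiset.induction_on with
  | empty => simp [load_zero]
  | cons p m ih =>
    have h1 := ih fun q hq => h q (Multiset.mem_cons_of_mem hq)
    have h2 := h p (Multiset.mem_cons_self p m)
    rw [load_cons]
    simp [h1, h2.1, h2.2]

lemma Pk.zero (G : SimpleGraph V) (c : V →₀ ℕ) : Pk G c 0 :=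
  ⟨0, by simp, by simp, by simp [load_zero]⟩

lemma Pk.mono {G : SimpleGraph V} {c c' : V →₀ ℕ} {s : ℕ} (h : Pk G c s) (hc : c ≤ c') :
    Pk G c' s := by
  obtain ⟨m, h1, h2, h3⟩ := h
  exact ⟨m, h1, h2, h3.trans hc⟩

lemma Pk.le {G : SimpleGraph V} {c : V →₀ ℕ} {s s' : ℕ} (h : Pk G c s) (hs : s' ≤ s) :
    Pk G c s' := by
  obtain ⟨d, rfl⟩ := Nat.exists_eq_add_of_le hs
  clear hs
  induction d with
  | zero => exact h
  | succ d ih =>
    apply ih
    obtain ⟨m, h1, h2, h3⟩ := h
    obtain ⟨p, hp⟩ : ∃ p, p ∈ m := Multiset.card_pos_iff_exists_mem.1 (by omega)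
    obtain ⟨m', rfl⟩ := Multiset.exists_cons_of_mem hp
    refine ⟨m', fun q hq => h1 q (Multiset.mem_cons_of_mem hq), ?_, ?_⟩
    · rw [Multiset.card_cons] at h2; omega
    · refine (load_mono ?_).trans h3
      exact Multiset.le_cons_self _ _

lemma Pk.add {G : SimpleGraph V} {c c' : V →₀ ℕ} {s s' : ℕ} (h : Pk G c s) (h' : Pk G c' s') :
    Pk G (c + c') (s + s') := by
  obtain ⟨m, h1, h2, h3⟩ := h
  obtain ⟨m', h1', h2', h3'⟩ := h'
  refine ⟨m + m', ?_, by simp [h2, h2'], by rw [load_add]; exact add_le_add h3 h3'⟩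
  intro p hp
  rcases Multiset.mem_add.1 hp with hp | hp
  · exact h1 p hp
  · exact h1' p hp

lemma Pk.two_mul_le {G : SimpleGraph V} {c : V →₀ ℕ} {s : ℕ} (h : Pk G c s) :
    2 * s ≤ ∑ v, c v := by
  obtain ⟨m, h1, h2, h3⟩ := h
  rw [← h2, ← sum_load]
  exact Finset.sum_le_sum fun v _ => h3 v

/-- restriction of a weight to a set of vertices -/
noncomputable def rs (a : V →₀ ℕ) (B : Finset V) : V →₀ ℕ :=
  Finsupp.onFinset B (fun v => if v ∈ B then a v else 0) (by intro v hv; by_contra h; simp [h] at hv)

lemma rs_apply (a : V →₀ ℕ) (B : Finset V) (v : V) : rs a B v = if v ∈ B then a v else 0 := rfl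

/-- total weight of a set -/
def wt (a : V →₀ ℕ) (B : Finset V) : ℕ := ∑ v ∈ B, a v

lemma sum_rs (a : V →₀ ℕ) (B : Finset V) : ∑ v, rs a B v = wt a B := by
  simp [rs_apply, wt]

lemma rs_mono (a : V →₀ ℕ) {B B' : Finset V} (h : B ⊆ B') : rs a B ≤ rs a B' := by
  intro v
  rw [rs_apply, rs_apply]
  by_cases hv : v ∈ B
  · rw [if_pos hv, if_pos (h hv)]
  · rw [if_neg hv]; exact Nat.zero_le _

lemma rs_univ (a : V →₀ ℕ) : rs a univ = a := by
  ext v; rw [rs_apply]; simp

lemma rs_add_disjoint (a : V →₀ ℕ) {B B' : Finset V} (h : Disjoint B B') :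
    rs a B + rs a B' = rs a (B ∪ B') := by
  ext v
  simp only [Finsupp.coe_add, Pi.add_apply, rs_apply, Finset.mem_union]
  by_cases h1 : v ∈ B
  · have h2 : v ∉ B' := Finset.disjoint_left.1 h h1
    simp [h1, h2]
  · simp [h1]

/-- The splitting lemma. -/
lemma Pk.split {G : SimpleGraph V} {a : V →₀ ℕ} {B : Finset V} {s : ℕ} (h : Pk G (rs a B) s)
    (C : Finset V) : ∃ s1 s2, s1 + s2 = s ∧ s1 ≤ wt a (B ∩ C) ∧ Pk G (rs a (B \ C)) s2 := by
  obtain ⟨m, h1, h2, h3⟩ := h
  refine ⟨(m.filter (fun p => p.1 ∈ C ∨ p.2 ∈ C)).card,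
    (m.filter (fun p => ¬ (p.1 ∈ C ∨ p.2 ∈ C))).card, ?_, ?_, ?_⟩
  · rw [← Multiset.card_add, Multiset.filter_add_not, h2]
  · have e1 := card_le_load (C := C) (m := m.filter (fun p => p.1 ∈ C ∨ p.2 ∈ C))
      (fun p hp => (Multiset.mem_filter.1 hp).2)
    have e2 := load_mono (Multiset.filter_le (fun p : V × V => p.1 ∈ C ∨ p.2 ∈ C) m)
    refine e1.trans ?_
    calc ∑ v ∈ C, load (m.filter (fun p => p.1 ∈ C ∨ p.2 ∈ C)) v ≤ ∑ v ∈ C, rs a B v :=
          Finset.sum_le_sum fun v _ => (e2 v).trans (h3 v)
      _ = wt a (B ∩ C) := by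
          simp only [rs_apply, wt]
          rw [← Finset.sum_filter]
          refine Finset.sum_congr ?_ fun _ _ => rfl
          ext v
          simp [and_comm]
  · refine ⟨m.filter (fun p => ¬ (p.1 ∈ C ∨ p.2 ∈ C)),
      fun p hp => h1 p (Multiset.mem_filter.1 hp).1, rfl, ?_⟩
    intro v
    rw [rs_apply]
    have e2 := load_mono (Multiset.filter_le (fun p : V × V => ¬ (p.1 ∈ C ∨ p.2 ∈ C)) m)
    have e3 := (e2 v).trans (h3 v)
    by_cases hv : v ∈ C
    · rw [load_eq_zero]
      · exact Nat.zero_le _
      · intro p hp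
        have := (Multiset.mem_filter.1 hp).2
        constructor
        · rintro rfl; exact this (Or.inl hv)
        · rintro rfl; exact this (Or.inr hv)
    · rw [rs_apply] at e3
      by_cases hB : v ∈ B
      · rw [if_pos hB] at e3
        rw [if_pos (by simp [hB, hv])]
        exact e3
      · rw [if_neg hB] at e3
        exact e3.trans (Nat.zero_le _)

lemma Pk.of_isolated {G : SimpleGraph V} {a : V →₀ ℕ} {B : Finset V} {s : ℕ}
    (h : Pk G (rs a B) s) {C : Finset V} (hC : ∀ c ∈ C, ∀ b ∈ B, a c ≠ 0 → ¬ G.Adj c b) :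
    Pk G (rs a (B \ C)) s := by
  obtain ⟨m, h1, h2, h3⟩ := h
  refine ⟨m, h1, h2, ?_⟩
  have hB : ∀ p ∈ m, (p.1 ∈ B ∧ a p.1 ≠ 0) ∧ (p.2 ∈ B ∧ a p.2 ≠ 0) := by
    intro p hp
    have h4 := one_le_load hp
    have h5 := h3 p.1
    have h6 := h3 p.2
    rw [rs_apply] at h5 h6
    constructor
    · by_cases hb : p.1 ∈ B
      · rw [if_pos hb] at h5; exact ⟨hb, by omega⟩
      · rw [if_neg hb] at h5; omega
    · by_cases hb : p.2 ∈ B
      · rw [if_pos hb] at h6; exact ⟨hb, by omega⟩
      · rw [if_neg hb] at h6; omega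
  intro v
  rw [rs_apply]
  by_cases hv : v ∈ B \ C
  · rw [if_pos hv]
    have := h3 v
    rw [rs_apply, if_pos (Finset.mem_sdiff.1 hv).1] at this
    exact this
  · rw [if_neg hv]
    by_cases hvB : v ∈ B
    · have hvC : v ∈ C := by
        by_contra h; exact hv (Finset.mem_sdiff.2 ⟨hvB, h⟩)
      rw [load_eq_zero]
      intro p hp
      have h4 := hB p hp
      constructor
      · rintro rfl
        exact hC _ hvC _ h4.2.1 h4.1.2 (h1 p hp)
      · rintro rfl
        exact hC _ hvC _ h4.1.1 h4.2.2 (h1 p hp).symm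
    · have := h3 v
      rw [rs_apply, if_neg hvB] at this
      exact this

/-- the packing number -/
noncomputable def nu (G : SimpleGraph V) (a : V →₀ ℕ) (B : Finset V) : ℕ :=
  haveI := Classical.decPred (Pk G (rs a B))
  Nat.findGreatest (Pk G (rs a B)) (wt a B)

lemma pk_iff (G : SimpleGraph V) (a : V →₀ ℕ) (B : Finset V) (s : ℕ) :
    Pk G (rs a B) s ↔ s ≤ nu G a B := by
  unfold nu
  let _ := Classical.decPred (Pk G (rs a B))
  constructor
  · intro h
    refine Nat.le_findGreatest ?_ h
    have := h.two_mul_le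
    rw [sum_rs] at this
    omega
  · intro h
    have h0 : Pk G (rs a B) (Nat.findGreatest (Pk G (rs a B)) (wt a B)) :=
      Nat.findGreatest_spec (m := 0) (Nat.zero_le _) (Pk.zero G _)
    exact h0.le h

lemma pk_nu (G : SimpleGraph V) (a : V →₀ ℕ) (B : Finset V) : Pk G (rs a B) (nu G a B) :=
  (pk_iff G a B _).2 le_rfl

lemma two_nu_le (G : SimpleGraph V) (a : V →₀ ℕ) (B : Finset V) : 2 * nu G a B ≤ wt a B := by
  have := (pk_nu G a B).two_mul_le
  rwa [sum_rs] at this

lemma nu_mono (G : SimpleGraph V) (a : V →₀ ℕ) {B B' : Finset V} (h : B ⊆ B') :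
    nu G a B ≤ nu G a B' :=
  (pk_iff G a B' _).1 ((pk_nu G a B).mono (rs_mono a h))

lemma nu_le_add (G : SimpleGraph V) (a : V →₀ ℕ) (B C : Finset V) :
    nu G a B ≤ wt a (B ∩ C) + nu G a (B \ C) := by
  obtain ⟨s1, s2, h1, h2, h3⟩ := (pk_nu G a B).split C
  rw [pk_iff] at h3
  omega

lemma nu_isolated {G : SimpleGraph V} {a : V →₀ ℕ} {B C : Finset V}
    (hC : ∀ c ∈ C, ∀ b ∈ B, a c ≠ 0 → ¬ G.Adj c b) : nu G a (B \ C) = nu G a B := by
  refine le_antisymm (nu_mono G a Finset.sdiff_subset) ?_
  rw [← pk_iff]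
  exact (pk_nu G a B).of_isolated hC

lemma nu_add_disjoint {G : SimpleGraph V} {a : V →₀ ℕ} {B B1 B2 : Finset V} (hd : Disjoint B1 B2)
    (h1 : B1 ⊆ B) (h2 : B2 ⊆ B) : nu G a B1 + nu G a B2 ≤ nu G a B := by
  rw [← pk_iff]
  refine ((pk_nu G a B1).add (pk_nu G a B2)).mono ?_
  rw [rs_add_disjoint a hd]
  exact rs_mono a (Finset.union_subset h1 h2)

/-! ### Tokens -/

/-- tokens of a weight -/
abbrev Tok (a : V →₀ ℕ) : Type _ := Σ v : V, Fin (a v)

lemma card_tokens (a : V →₀ ℕ) (B : Finset V) :
    (univ.filter (fun y : Tok a => y.1 ∈ B)).card = wt a B := by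
  have : (univ.filter (fun y : Tok a => y.1 ∈ B)) = B.sigma (fun v => (univ : Finset (Fin (a v)))) := by
    ext ⟨v, i⟩
    simp
  rw [this, Finset.card_sigma]
  simp [wt]

lemma load_map {ι : Type*} (s : Finset ι) (f g : ι → V) (v : V) :
    load (s.val.map (fun x => (f x, g x))) v
      = (s.filter (fun x => f x = v)).card + (s.filter (fun x => g x = v)).card := by
  classical
  induction s using Finset.induction_on with
  | empty => simp [load_zero]
  | insert x s hx ih =>
    rw [Finset.insert_val_of_notMem hx, Multiset.map_cons, load_cons]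
    simp only [Finsupp.coe_add, Pi.add_apply, ih, Finset.filter_insert, Finsupp.single_apply]
    split_ifs <;> (simp [hx]; try ring)

open Classical in
/-- Hall packing -/
lemma hall_pack (G : SimpleGraph V) (a : V →₀ ℕ) {X E : Finset V} (hd : Disjoint X E)
    (hH : ∀ T' ⊆ X, wt a T' ≤ wt a (E.filter (fun e => ∃ t ∈ T', G.Adj t e))) :
    Pk G (rs a (X ∪ E)) (wt a X) := by
  classical
  let ι := {x : Tok a // x.1 ∈ X}
  let t : ι → Finset (Tok a) := fun x => univ.filter (fun y => y.1 ∈ E ∧ G.Adj x.1.1 y.1)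
  have hall : ∀ s : Finset ι, s.card ≤ (s.biUnion t).card := by
    intro s
    let T' := s.image (fun x => x.1.1)
    have hT' : T' ⊆ X := by
      intro v hv
      obtain ⟨x, _, rfl⟩ := Finset.mem_image.1 hv
      exact x.2
    have e1 : s.card ≤ wt a T' := by
      rw [← card_tokens a T']
      refine Finset.card_le_card_of_injOn (fun x => x.1) ?_ ?_
      · intro x hx
        simp only [Finset.coe_filter, Finset.mem_univ, true_and, Set.mem_ofPred_eq]
        exact Finset.mem_image.2 ⟨x, hx, rfl⟩
      · intro x _ y _ h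
        exact Subtype.ext h
    have e2 : (s.biUnion t) = univ.filter
        (fun y : Tok a => y.1 ∈ E.filter (fun e => ∃ t ∈ T', G.Adj t e)) := by
      ext y
      simp only [Finset.mem_biUnion, Finset.mem_filter, Finset.mem_univ, true_and, t, T',
        Finset.mem_image]
      constructor
      · rintro ⟨x, hx, hE, hA⟩
        exact ⟨hE, _, ⟨x, hx, rfl⟩, hA⟩
      · rintro ⟨hE, _, ⟨x, hx, rfl⟩, hA⟩
        exact ⟨x, hx, hE, hA⟩
    rw [e2, card_tokens]
    exact e1.trans (hH T' hT')
  obtain ⟨f, hf, hft⟩ := (Finset.all_card_le_biUnion_card_iff_exists_injective t).1 hall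
  have hft' : ∀ x : ι, (f x).1 ∈ E ∧ G.Adj x.1.1 (f x).1 := by
    intro x
    have := hft x
    simpa [t] using this
  have hcX : (univ : Finset ι).card = wt a X := by
    rw [← card_tokens a X, ← Finset.card_map (Function.Embedding.subtype _)]
    congr 1
    ext y
    simp only [Finset.mem_map, Finset.mem_univ, true_and, Function.Embedding.coe_subtype,
      Finset.mem_filter]
    constructor
    · rintro ⟨x, rfl⟩; exact x.2
    · intro h; exact ⟨⟨y, h⟩, rfl⟩
  refine ⟨(univ : Finset ι).val.map (fun x => (x.1.1, (f x).1)), ?_, ?_, ?_⟩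
  · intro p hp
    obtain ⟨x, _, rfl⟩ := Multiset.mem_map.1 hp
    exact (hft' x).2
  · rw [Multiset.card_map]; exact hcX
  · intro v
    rw [load_map, rs_apply]
    have c1 : ((univ : Finset ι).filter (fun x => x.1.1 = v)).card ≤ if v ∈ X then a v else 0 := by
      by_cases hv : v ∈ X
      · rw [if_pos hv]
        have : a v = (univ.filter (fun y : Tok a => y.1 ∈ ({v} : Finset V))).card := by
          rw [card_tokens]; simp [wt]
        rw [this]
        refine Finset.card_le_card_of_injOn (fun x => x.1) ?_ ?_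
        · intro x hx
          simpa using hx
        · intro x _ y _ h
          exact Subtype.ext h
      · rw [if_neg hv, Nat.le_zero, Finset.card_eq_zero, Finset.filter_eq_empty_iff]
        intro x _ hx
        exact hv (hx ▸ x.2)
    have c2 : ((univ : Finset ι).filter (fun x => (f x).1 = v)).card ≤ if v ∈ E then a v else 0 := by
      by_cases hv : v ∈ E
      · rw [if_pos hv]
        have : a v = (univ.filter (fun y : Tok a => y.1 ∈ ({v} : Finset V))).card := by
          rw [card_tokens]; simp [wt]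
        rw [this]
        refine Finset.card_le_card_of_injOn f ?_ ?_
        · intro x hx
          simpa using hx
        · intro x _ y _ h
          exact hf h
      · rw [if_neg hv, Nat.le_zero, Finset.card_eq_zero, Finset.filter_eq_empty_iff]
        intro x _ hx
        exact hv (hx ▸ (hft' x).1)
    by_cases hX : v ∈ X
    · have hE : v ∉ E := Finset.disjoint_left.1 hd hX
      rw [if_pos hX] at c1
      rw [if_neg hE] at c2
      rw [if_pos (Finset.mem_union_left _ hX)]
      omega
    · rw [if_neg hX] at c1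
      by_cases hE : v ∈ E
      · rw [if_pos hE] at c2
        rw [if_pos (Finset.mem_union_right _ hE)]
        omega
      · rw [if_neg hE] at c2
        rw [if_neg (by simp [hX, hE])]
        omega

/-- pairing up tokens -/
lemma pack_of_involution (G : SimpleGraph V) (a : V →₀ ℕ) (f : Tok a → Tok a) :
    ∀ (n : ℕ) (S : Finset (Tok a)), S.card = n → (∀ x ∈ S, f x ∈ S) → (∀ x ∈ S, f (f x) = x) →
      (∀ x ∈ S, G.Adj x.1 (f x).1) →
      ∃ m : Multiset (V × V), (∀ p ∈ m, G.Adj p.1 p.2) ∧ 2 * m.card = S.card ∧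
        ∀ v, load m v = (S.filter (fun x => x.1 = v)).card := by
  intro n
  induction n using Nat.strong_induction_on with
  | _ n ih =>
    intro S hn hS hff hadj
    rcases S.eq_empty_or_nonempty with rfl | ⟨x, hx⟩
    · exact ⟨0, by simp, by simp, by simp [load_zero]⟩
    · have hne : x ≠ f x := by
        intro h
        have := hadj x hx
        rw [← h] at this
        exact this.ne rfl
      have hfx := hS x hx
      set S' := (S.erase x).erase (f x) with hS'
      have hfx' : f x ∈ S.erase x := Finset.mem_erase.2 ⟨hne.symm, hfx⟩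
      have hc : S'.card + 2 = S.card := by
        rw [hS', Finset.card_erase_of_mem hfx', Finset.card_erase_of_mem hx]
        have h1 : 0 < S.card := Finset.card_pos.2 ⟨x, hx⟩
        have h2 : 0 < (S.erase x).card := Finset.card_pos.2 ⟨_, hfx'⟩
        rw [Finset.card_erase_of_mem hx] at h2
        omega
      obtain ⟨m, h1, h2, h3⟩ := ih S'.card (by omega) S' rfl
        (fun y hy => by
          have hyS : y ∈ S := Finset.mem_of_mem_erase (Finset.mem_of_mem_erase hy)
          have hyx : y ≠ x := Finset.ne_of_mem_erase (Finset.mem_of_mem_erase hy)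
          have hyf : y ≠ f x := Finset.ne_of_mem_erase hy
          refine Finset.mem_erase.2 ⟨?_, Finset.mem_erase.2 ⟨?_, hS y hyS⟩⟩
          · intro h
            have := congrArg f h
            rw [hff y hyS, hff x hx] at this
            exact hyx this
          · intro h
            have := congrArg f h
            rw [hff y hyS] at this
            exact hyf this)
        (fun y hy => hff y (Finset.mem_of_mem_erase (Finset.mem_of_mem_erase hy)))
        (fun y hy => hadj y (Finset.mem_of_mem_erase (Finset.mem_of_mem_erase hy)))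
      refine ⟨(x.1, (f x).1) ::ₘ m, ?_, ?_, ?_⟩
      · intro p hp
        rcases Multiset.mem_cons.1 hp with rfl | hp
        · exact hadj x hx
        · exact h1 p hp
      · rw [Multiset.card_cons]; omega
      · intro v
        have e1 : S = insert x (insert (f x) S') := by
          rw [hS', Finset.insert_erase hfx', Finset.insert_erase hx]
        have n1 : f x ∉ S' := Finset.notMem_erase _ _
        have n2 : x ∉ insert (f x) S' := by
          rw [hS', Finset.insert_erase hfx']; exact Finset.notMem_erase _ _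
        have n3 : x ∉ S' := fun h => n2 (Finset.mem_insert_of_mem h)
        rw [load_cons]
        simp only [Finsupp.coe_add, Pi.add_apply, h3, Finsupp.single_apply]
        conv_rhs => rw [e1]
        simp only [Finset.filter_insert]
        by_cases q1 : x.1 = v
        · by_cases q2 : (f x).1 = v
          · rw [if_pos q1, if_pos q2, if_pos q1, if_pos q2, Finset.card_insert_of_notMem,
              Finset.card_insert_of_notMem]
            · ring
            · simp [n1]
            · simp [n3, hne]
          · rw [if_pos q1, if_neg q2, if_pos q1, if_neg q2, Finset.card_insert_of_notMem]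
            · ring
            · simp [n3]
        · by_cases q2 : (f x).1 = v
          · rw [if_neg q1, if_pos q2, if_neg q1, if_pos q2, Finset.card_insert_of_notMem]
            · ring
            · simp [n1]
          · rw [if_neg q1, if_neg q2, if_neg q1, if_neg q2]
            ring

end Pool.Agent.Helper66.Gap
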