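import Pool.Agent.Helper66.Gap.Multi
import Pool.Agent.Helper66.Gap.Defs

/-!
Graded free modules, graded free resolutions and Koszul regularity.
-/

namespace Pool.Agent.Helper66.Gap

open Finset MvPolynomial

set_option linter.unusedSectionVars false

variable {V : Type*} [Fintype V] [LinearOrder V] {K : Type*} [Field K]

/-! ### Graded pieces of free modules -/

/-- degree `e` piece of a graded free module -/
def fgr {m : ℕ} (dg : Fin m → ℕ) (e : ℕ) : AddSubgroup (Fin m → MvPolynomial V K) where
  carrier := {f | HomVec dg e f}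
  add_mem' := by
    intro f g hf hg i c hc
    rw [mem_support_iff, Pi.add_apply, coeff_add] at hc
    by_cases h : coeff c (f i) = 0
    · refine hg i c (mem_support_iff.2 fun h' => hc ?_)
      rw [h, h', add_zero]
    · exact hf i c (mem_support_iff.2 h)
  zero_mem' := by
    intro i c hc
    simp at hc
  neg_mem' := by
    intro f hf i c hc
    refine hf i c ?_
    rw [mem_support_iff] at hc ⊢
    intro h
    apply hc
    rw [Pi.neg_apply, coeff_neg, h, neg_zero]

lemma mem_fgr {m : ℕ} {dg : Fin m → ℕ} {e : ℕ} {f : Fin m → MvPolynomial V K} :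
    f ∈ fgr dg e ↔ ∀ i c, coeff c (f i) ≠ 0 → c.degree + dg i = e := by
  constructor
  · intro h i c hc
    exact h i c (mem_support_iff.2 hc)
  · intro h i c hc
    exact h i c (mem_support_iff.1 hc)

lemma mem_fgr_iff {m : ℕ} {dg : Fin m → ℕ} {e : ℕ} {f : Fin m → MvPolynomial V K} :
    f ∈ fgr dg e ↔ HomVec dg e f := Iff.rfl

lemma degree_eq_wt (c : V →₀ ℕ) : c.degree = wt c univ := Finsupp.degree_eq_sum c

lemma gr_fgr {m : ℕ} (dg : Fin m → ℕ) : Gr K (V := V) (fgr (V := V) (K := K) dg) := by
  intro e v a f hf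
  rw [mem_fgr] at hf ⊢
  intro i c hc
  rw [Pi.smul_apply, smul_eq_mul, mul_assoc, coeff_C_mul, coeff_X_mul'] at hc
  have h1 : v ∈ c.support := by
    by_contra h
    rw [if_neg h, mul_zero] at hc
    exact hc rfl
  rw [if_pos h1] at hc
  have h2 := hf i _ (right_ne_zero_of_mul hc)
  have h3 : c - Finsupp.single v 1 + Finsupp.single v 1 = c := by
    refine tsub_add_cancel_of_le ?_
    rw [Finsupp.single_le_iff]
    rw [Finsupp.mem_support_iff] at h1
    omega
  have h4 : c.degree = (c - Finsupp.single v 1).degree + 1 := by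
    conv_lhs => rw [← h3]
    rw [degree_eq_wt, degree_eq_wt, wt_univ_add_single]
  omega

/-- Koszul exactness of the polynomial ring in positive degrees -/
lemma kr_top (e q : ℕ) : KR V K (mgr K (fun _ : V →₀ ℕ => True)) e q := by
  refine kr_of_jfam (fun _ _ _ _ => trivial) fun b hb => ?_
  rcases b.support.eq_empty_or_nonempty with hs | ⟨w, hw⟩
  · refine exact_of_no_card fun s _ hsq => ?_
    have h1 : wt b univ = 0 := by
      have : b = 0 := Finsupp.support_eq_empty.1 hs
      simp [this, wt]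
    have h2 : s.card ≤ Fintype.card V := Finset.card_le_univ s
    omega
  · refine exact_of_toggle w (fun s _ => ?_) q
    unfold Jfam
    simp only [and_true]
    rw [Finsupp.mem_support_iff] at hw
    constructor
    · intro h v hv
      exact h v fun h' => hv (Finset.mem_insert_of_mem h')
    · intro h v hv
      by_cases hvw : v = w
      · subst hvw; omega
      · refine h v fun h' => ?_
        rcases Finset.mem_insert.1 h' with h' | h'
        · exact hvw h'
        · exact hv h'

/-- Koszul exactness of graded free modules -/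
lemma kr_fgr {m : ℕ} {dg : Fin m → ℕ} {e : ℕ} (h : ∀ i, dg i ≤ e) (q : ℕ) :
    KR V K (fgr (K := K) (V := V) dg) e q := by
  intro z hz1 hz2 hz3
  have hex : ∀ i : Fin m, ∃ y : Finset V → MvPolynomial V K,
      (∀ σ, y σ ∈ mgr K (fun _ : V →₀ ℕ => True) (e - dg i)) ∧
      (∀ σ, y σ ≠ 0 → σ.card + 1 = q) ∧ ∀ σ, kd K y σ = z σ i := by
    intro i
    refine kr_top (e - dg i) q (fun σ => z σ i) (fun σ c hc => ?_) (fun σ hσ => ?_) (fun σ => ?_)
    · have := (mem_fgr.1 (hz1 σ)) i c hc
      have h1 := h i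
      rw [degree_eq_wt] at this
      exact ⟨by omega, trivial⟩
    · exact hz2 σ fun h0 => hσ (by rw [h0]; rfl)
    · have := kd_map (K := K) (LinearMap.proj i : (Fin m → MvPolynomial V K)
        →ₗ[MvPolynomial V K] MvPolynomial V K) z σ
      simp only [LinearMap.proj_apply] at this
      rw [this, hz3]; rfl
  choose y hy1 hy2 hy3 using hex
  refine ⟨fun σ i => y i σ, fun σ => ?_, fun σ hσ => ?_, fun σ => ?_⟩
  · rw [mem_fgr]
    intro i c hc
    have := (hy1 i σ c hc).1
    have h1 := h i
    rw [degree_eq_wt]; omega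
  · by_contra hc
    apply hσ
    funext i
    by_contra hne
    exact hc (hy2 i σ hne)
  · funext i
    have := kd_map (K := K) (LinearMap.proj i : (Fin m → MvPolynomial V K)
        →ₗ[MvPolynomial V K] MvPolynomial V K) (fun σ i => y i σ) σ
    simp only [LinearMap.proj_apply] at this
    rw [← this, hy3]

/-! ### Homogeneous components -/

open Classical in
/-- the part of a polynomial with exponents in `P` -/
noncomputable def cut (P : (V →₀ ℕ) → Prop) (p : MvPolynomial V K) : MvPolynomial V K :=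
  ∑ c ∈ p.support.filter P, monomial c (coeff c p)

open Classical in
lemma coeff_cut (P : (V →₀ ℕ) → Prop) (p : MvPolynomial V K) (c : V →₀ ℕ) :
    coeff c (cut P p) = if P c then coeff c p else 0 := by
  unfold cut
  rw [coeff_sum]
  simp only [coeff_monomial]
  rw [Finset.sum_ite_eq']
  simp only [Finset.mem_filter, mem_support_iff]
  by_cases h1 : P c
  · by_cases h2 : coeff c p = 0
    · simp [h1, h2]
    · simp [h1, h2]
  · simp [h1]

/-- homogeneous component -/
noncomputable def comp {m : ℕ} (dg : Fin m → ℕ) (e : ℕ) (f : Fin m → MvPolynomial V K) :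
    Fin m → MvPolynomial V K :=
  fun i => cut (fun c => c.degree + dg i = e) (f i)

open Classical in
lemma coeff_comp {m : ℕ} (dg : Fin m → ℕ) (e : ℕ) (f : Fin m → MvPolynomial V K) (i : Fin m)
    (c : V →₀ ℕ) : coeff c (comp dg e f i) = if c.degree + dg i = e then coeff c (f i) else 0 := by
  unfold comp
  rw [coeff_cut]
  congr

lemma comp_mem {m : ℕ} (dg : Fin m → ℕ) (e : ℕ) (f : Fin m → MvPolynomial V K) :
    comp dg e f ∈ fgr dg e := by
  classical
  rw [mem_fgr]
  intro i c hc
  rw [coeff_comp] at hc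
  by_contra h
  rw [if_neg h] at hc
  exact hc rfl

lemma comp_of_mem {m : ℕ} {dg : Fin m → ℕ} {e : ℕ} {f : Fin m → MvPolynomial V K}
    (hf : f ∈ fgr dg e) : comp dg e f = f := by
  classical
  funext i
  ext c
  rw [coeff_comp]
  by_cases h : c.degree + dg i = e
  · rw [if_pos h]
  · rw [if_neg h]
    by_contra hne
    exact h ((mem_fgr.1 hf) i c (Ne.symm hne))

lemma comp_zero {m : ℕ} (dg : Fin m → ℕ) (e : ℕ) :
    comp dg e (0 : Fin m → MvPolynomial V K) = 0 :=
  comp_of_mem (AddSubgroup.zero_mem _)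

lemma sum_comp {m : ℕ} (dg : Fin m → ℕ) (f : Fin m → MvPolynomial V K) :
    ∃ M : ℕ, f = ∑ e ∈ Finset.range M, comp dg e f := by
  classical
  let M : ℕ := ∑ i, ∑ c ∈ (f i).support, (c.degree + dg i + 1)
  refine ⟨M, ?_⟩
  funext i
  ext c
  rw [Finset.sum_apply, coeff_sum]
  simp only [coeff_comp]
  rw [Finset.sum_ite_eq]
  by_cases h : coeff c (f i) = 0
  · rw [h, ite_self]
  · rw [if_pos]
    rw [Finset.mem_range]
    have h1 : c.degree + dg i + 1 ≤ ∑ c ∈ (f i).support, (c.degree + dg i + 1) :=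
      Finset.single_le_sum (f := fun c : V →₀ ℕ => c.degree + dg i + 1)
        (fun _ _ => Nat.zero_le _) (mem_support_iff.2 h)
    have h2 : ∑ c ∈ (f i).support, (c.degree + dg i + 1) ≤ M :=
      Finset.single_le_sum (f := fun i => ∑ c ∈ (f i).support, (c.degree + dg i + 1))
        (fun _ _ => Nat.zero_le _) (Finset.mem_univ i)
    omega

lemma apply_eq_sum {m m' : ℕ}
    (π : (Fin m' → MvPolynomial V K) →ₗ[MvPolynomial V K] (Fin m → MvPolynomial V K))
    (f : Fin m' → MvPolynomial V K) : π f = ∑ i, f i • π (Pi.single i 1) := by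
  conv_lhs => rw [← Finset.univ_sum_single f]
  rw [map_sum]
  refine Finset.sum_congr rfl fun i _ => ?_
  rw [← map_smul]
  congr 1
  funext j
  by_cases h : j = i
  · subst h; simp
  · simp [h]

lemma comp_map {m m' : ℕ} {dg : Fin m → ℕ} {dg' : Fin m' → ℕ}
    {π : (Fin m' → MvPolynomial V K) →ₗ[MvPolynomial V K] (Fin m → MvPolynomial V K)}
    (hπ : ∀ i, HomVec dg (dg' i) (π (Pi.single i 1))) (e : ℕ) (f : Fin m' → MvPolynomial V K) :
    comp dg e (π f) = π (comp dg' e f) := by
  classical
  rw [apply_eq_sum π f, apply_eq_sum π (comp dg' e f)]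
  funext j
  ext c
  rw [coeff_comp, Finset.sum_apply, Finset.sum_apply, coeff_sum, coeff_sum]
  have key : ∀ i, (if c.degree + dg j = e then coeff c ((f i • π (Pi.single i 1)) j) else 0)
      = coeff c ((comp dg' e f i • π (Pi.single i 1)) j) := by
    intro i
    rw [Pi.smul_apply, Pi.smul_apply, smul_eq_mul, smul_eq_mul, coeff_mul]
    by_cases h : c.degree + dg j = e
    · rw [if_pos h, coeff_mul]
      refine Finset.sum_congr rfl fun x hx => ?_
      rw [coeff_comp]
      rw [HasAntidiagonal.mem_antidiagonal] at hx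
      by_cases h0 : coeff x.2 (π (Pi.single i 1) j) = 0
      · rw [h0, mul_zero, mul_zero]
      · have h2 := hπ i j x.2 (mem_support_iff.2 h0)
        have h3 : c.degree = x.1.degree + x.2.degree := by
          rw [← hx, map_add]
        rw [if_pos (by omega)]
    · rw [if_neg h, coeff_mul]
      symm
      refine Finset.sum_eq_zero fun x hx => ?_
      rw [coeff_comp]
      rw [HasAntidiagonal.mem_antidiagonal] at hx
      by_cases h0 : coeff x.2 (π (Pi.single i 1) j) = 0
      · rw [h0, mul_zero]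
      · have h2 := hπ i j x.2 (mem_support_iff.2 h0)
        have h3 : c.degree = x.1.degree + x.2.degree := by
          rw [← hx, map_add]
        rw [if_neg (by omega), zero_mul]
  rw [← Finset.sum_congr rfl fun i _ => key i]
  by_cases h : c.degree + dg j = e
  · simp only [if_pos h]
  · simp only [if_neg h, Finset.sum_const_zero]

/-- homogeneous maps respect degrees -/
lemma map_mem {m m' : ℕ} {dg : Fin m → ℕ} {dg' : Fin m' → ℕ}
    {π : (Fin m' → MvPolynomial V K) →ₗ[MvPolynomial V K] (Fin m → MvPolynomial V K)}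
    (hπ : ∀ i, HomVec dg (dg' i) (π (Pi.single i 1))) {e : ℕ} {f : Fin m' → MvPolynomial V K}
    (hf : f ∈ fgr dg' e) : π f ∈ fgr dg e := by
  rw [← comp_of_mem hf, ← comp_map hπ]
  exact comp_mem _ _ _

/-! ### Graded submodules -/

/-- graded pieces of a submodule -/
noncomputable def ngr {A : Type*} [AddCommGroup A] [Module (MvPolynomial V K) A]
    (N : Submodule (MvPolynomial V K) A) (𝒜 : ℕ → AddSubgroup A) (e : ℕ) : AddSubgroup A :=
  𝒜 e ⊓ N.toAddSubgroup

lemma mem_ngr {A : Type*} [AddCommGroup A] [Module (MvPolynomial V K) A]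
    {N : Submodule (MvPolynomial V K) A} {𝒜 : ℕ → AddSubgroup A} {e : ℕ} {a : A} :
    a ∈ ngr N 𝒜 e ↔ a ∈ 𝒜 e ∧ a ∈ N := by
  unfold ngr
  rw [AddSubgroup.mem_inf, Submodule.mem_toAddSubgroup]

lemma kgr_eq {A B : Type*} [AddCommGroup A] [Module (MvPolynomial V K) A] [AddCommGroup B]
    [Module (MvPolynomial V K) B] (π : A →ₗ[MvPolynomial V K] B) (𝒜 : ℕ → AddSubgroup A) :
    kgr π 𝒜 = ngr (LinearMap.ker π) 𝒜 := rfl

lemma lift_range {m m' : ℕ} {dg : Fin m → ℕ} {dg' : Fin m' → ℕ}
    {π : (Fin m' → MvPolynomial V K) →ₗ[MvPolynomial V K] (Fin m → MvPolynomial V K)}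
    (hπ : ∀ i, HomVec dg (dg' i) (π (Pi.single i 1))) (e : ℕ) :
    ∀ b ∈ ngr (LinearMap.range π) (fgr dg) e, ∃ a ∈ fgr (K := K) (V := V) dg' e, π a = b := by
  intro b hb
  rw [mem_ngr] at hb
  obtain ⟨hb1, f, rfl⟩ := hb
  exact ⟨comp dg' e f, comp_mem _ _ _, by rw [← comp_map hπ, comp_of_mem hb1]⟩

lemma map_range {m m' : ℕ} {dg : Fin m → ℕ} {dg' : Fin m' → ℕ}
    {π : (Fin m' → MvPolynomial V K) →ₗ[MvPolynomial V K] (Fin m → MvPolynomial V K)}
    (hπ : ∀ i, HomVec dg (dg' i) (π (Pi.single i 1))) (e : ℕ) :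
    ∀ a ∈ fgr (K := K) (V := V) dg' e, π a ∈ ngr (LinearMap.range π) (fgr dg) e := by
  intro a ha
  rw [mem_ngr]
  exact ⟨map_mem hπ ha, LinearMap.mem_range_self π a⟩

/-! ### From resolutions to Koszul regularity -/

lemma res_kr {J : Ideal (MvPolynomial V K)} (R : GradedFreeRes J) {r : ℕ}
    (hR : ∀ k i, R.dg k i ≤ k + r) : ∀ (d k e q : ℕ), Fintype.card V < q + d → r + k + 1 ≤ e →
      KR V K (ngr (LinearMap.range (R.bd k)) (fgr (R.dg k))) e q := by
  intro d
  induction d with
  | zero =>
    intro k e q hq _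
    exact KR.of_large (by omega)
  | succ d ih =>
    intro k e q hq he
    refine chase1 (π := R.bd k) (gr_fgr (R.dg (k + 1))) (lift_range (R.bd_hom k))
      (map_range (R.bd_hom k)) (kr_fgr (fun i => ?_) q) ?_
    · have := hR (k + 1) i
      omega
    · rw [kgr_eq, R.exact_succ k]
      exact ih (k + 1) (e + 1) (q + 1) (by omega) (by omega)

/-- embedding of the ring as a free module of rank one -/
noncomputable def toVec : MvPolynomial V K →ₗ[MvPolynomial V K] (Fin 1 → MvPolynomial V K) :=
  LinearMap.pi fun _ => LinearMap.id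

lemma toVec_apply (p : MvPolynomial V K) (i : Fin 1) : toVec p i = p := rfl

/-- an ideal as a submodule of the free module of rank one -/
noncomputable def vecIdeal (J : Ideal (MvPolynomial V K)) :
    Submodule (MvPolynomial V K) (Fin 1 → MvPolynomial V K) :=
  Submodule.map toVec J

lemma mem_vecIdeal {J : Ideal (MvPolynomial V K)} {f : Fin 1 → MvPolynomial V K} :
    f ∈ vecIdeal J ↔ f 0 ∈ J := by
  unfold vecIdeal
  rw [Submodule.mem_map]
  constructor
  · rintro ⟨p, hp, rfl⟩
    exact hp
  · intro h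
    refine ⟨f 0, h, ?_⟩
    funext i
    rw [toVec_apply, Subsingleton.elim i 0]

/-- regularity gives Koszul exactness -/
theorem kr_of_regLE {J : Ideal (MvPolynomial V K)} {r : ℕ} (hJ : RegLE J r) {e : ℕ} (he : r ≤ e)
    (q : ℕ) : KR V K (ngr (vecIdeal J) (fgr (fun _ => 0))) e q := by
  obtain ⟨R, hR⟩ := hJ
  set π : (Fin (R.rk 0) → MvPolynomial V K) →ₗ[MvPolynomial V K] (Fin 1 → MvPolynomial V K) :=
    toVec ∘ₗ R.aug with hπ
  have hhom : ∀ i, HomVec (fun _ : Fin 1 => 0) (R.dg 0 i) (π (Pi.single i 1)) := by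
    intro i j c hc
    have h1 : (π (Pi.single i 1)) j = R.aug (Pi.single i 1) := rfl
    rw [h1, mem_support_iff] at hc
    rw [add_zero]
    by_contra hne
    exact hc ((R.aug_hom i).coeff_eq_zero hne)
  have hrange : LinearMap.range π = vecIdeal J := by
    rw [hπ, LinearMap.range_comp, R.range_aug]; rfl
  have hker : LinearMap.ker π = LinearMap.ker R.aug := by
    ext f
    rw [LinearMap.mem_ker, LinearMap.mem_ker, hπ, LinearMap.comp_apply]
    constructor
    · intro h
      have := congrFun h 0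
      exact this
    · intro h
      rw [h, map_zero]
  rw [← hrange]
  refine chase1 (π := π) (gr_fgr (R.dg 0)) (lift_range hhom) (map_range hhom)
    (kr_fgr (fun i => ?_) q) ?_
  · have := hR 0 i
    omega
  · rw [kgr_eq, hker, R.exact_zero]
    exact res_kr R hR (Fintype.card V) 0 (e + 1) (q + 1) (by omega) (by omega)

/-- change of module -/
lemma KR.transfer {A B : Type*} [AddCommGroup A] [Module (MvPolynomial V K) A] [AddCommGroup B]
    [Module (MvPolynomial V K) B] {𝒜 : ℕ → AddSubgroup A} {ℬ : ℕ → AddSubgroup B}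
    (φ : A →ₗ[MvPolynomial V K] B) (ψ : B →ₗ[MvPolynomial V K] A) (h1 : ∀ b, φ (ψ b) = b)
    (hφ : ∀ e, ∀ a ∈ 𝒜 e, φ a ∈ ℬ e) (hψ : ∀ e, ∀ b ∈ ℬ e, ψ b ∈ 𝒜 e) {e q : ℕ}
    (h : KR V K 𝒜 e q) : KR V K ℬ e q := by
  intro z hz1 hz2 hz3
  obtain ⟨y, hy1, hy2, hy3⟩ := h (fun σ => ψ (z σ)) (fun σ => hψ _ _ (hz1 σ))
    (fun σ hσ => hz2 σ fun h0 => hσ (by rw [h0, map_zero]))
    (fun σ => by rw [kd_map, hz3, map_zero])
  refine ⟨fun σ => φ (y σ), fun σ => hφ _ _ (hy1 σ),
    fun σ hσ => hy2 σ fun h0 => hσ (by show φ (y σ) = 0; rw [h0, map_zero]), fun σ => ?_⟩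
  rw [kd_map, hy3, h1]

/-! ### From Koszul regularity to linear resolutions -/

/-- homogeneous parts are finite-dimensional -/
lemma finite_piece {m : ℕ} (dg : Fin m → ℕ) (e : ℕ)
    (P : Submodule K (Fin m → MvPolynomial V K)) (hP : ∀ f ∈ P, f ∈ fgr dg e) :
    Module.Finite K P := by
  classical
  let T : Finset (V →₀ ℕ) := (Finset.range (e + 1)).biUnion
    (fun d => Finset.finsuppAntidiag (univ : Finset V) d)
  let φ : P →ₗ[K] (Fin m × T → K) :=
    { toFun := fun f x => coeff x.2.1 (f.1 x.1)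
      map_add' := by
        intro f g; funext x
        simp
      map_smul' := by
        intro a f; funext x
        simp }
  have hφ : Function.Injective φ := by
    rw [injective_iff_map_eq_zero]
    intro f hf
    apply Subtype.ext
    funext i
    ext c
    show coeff c (f.1 i) = 0
    by_contra hne
    have h1 := (mem_fgr.1 (hP f.1 f.2)) i c hne
    have hcT : c ∈ T := by
      refine Finset.mem_biUnion.2 ⟨c.degree, Finset.mem_range.2 (by omega), ?_⟩
      rw [Finset.mem_finsuppAntidiag]
      refine ⟨(Finsupp.degree_eq_sum c).symm, Finset.subset_univ _⟩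
    exact hne (congrFun hf (i, ⟨c, hcT⟩))
  exact Module.Finite.of_injective φ hφ

/-- one step of the resolution -/
lemma lin_step {m : ℕ} (dg : Fin m → ℕ)
    (N : Submodule (MvPolynomial V K) (Fin m → MvPolynomial V K)) (r : ℕ)
    (hgr : ∀ f ∈ N, ∀ e, comp dg e f ∈ N)
    (hkr : ∀ e, r ≤ e → ∀ q, KR V K (ngr N (fgr dg)) e q)
    (hlow : ∀ e, e < r → ∀ f ∈ N, f ∈ fgr dg e → f = 0) :
    ∃ (m' : ℕ) (π : (Fin m' → MvPolynomial V K) →ₗ[MvPolynomial V K]
        (Fin m → MvPolynomial V K)),
      LinearMap.range π = N ∧ (∀ i, HomVec dg r (π (Pi.single i 1))) ∧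
      (∀ f ∈ LinearMap.ker π, ∀ e, comp (fun _ => r) e f ∈ LinearMap.ker π) ∧
      (∀ e, r + 1 ≤ e → ∀ q, KR V K (ngr (LinearMap.ker π) (fgr (fun _ => r))) e q) ∧
      (∀ e, e < r + 1 → ∀ f ∈ LinearMap.ker π, f ∈ fgr (fun _ => r) e → f = 0) := by
  classical
  -- the degree `r` piece as a vector space
  let P : Submodule K (Fin m → MvPolynomial V K) :=
    { carrier := {f | f ∈ N ∧ f ∈ fgr dg r}
      add_mem' := fun {f g} hf hg => ⟨N.add_mem hf.1 hg.1, AddSubgroup.add_mem _ hf.2 hg.2⟩
      zero_mem' := ⟨N.zero_mem, AddSubgroup.zero_mem _⟩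
      smul_mem' := by
        intro a f hf
        refine ⟨?_, ?_⟩
        · have : a • f = (C a : MvPolynomial V K) • f := by
            funext i
            rw [Pi.smul_apply, Pi.smul_apply, smul_eq_mul, smul_eq_C_mul]
          rw [this]
          exact N.smul_mem _ hf.1
        · rw [mem_fgr]
          intro i c hc
          refine (mem_fgr.1 hf.2) i c fun h => hc ?_
          rw [Pi.smul_apply, coeff_smul, h, smul_zero] }
  have : Module.Finite K P := finite_piece dg r P (fun f hf => hf.2)
  let b := Module.finBasis K P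
  let m' := Module.finrank K P
  let g : Fin m' → (Fin m → MvPolynomial V K) := fun i => (b i : Fin m → MvPolynomial V K)
  let π : (Fin m' → MvPolynomial V K) →ₗ[MvPolynomial V K] (Fin m → MvPolynomial V K) :=
    Fintype.linearCombination (MvPolynomial V K) g
  have hπs : ∀ i, π (Pi.single i 1) = g i := by
    intro i
    simp only [π]
    rw [Fintype.linearCombination_apply_single, one_smul]
  have hgN : ∀ i, g i ∈ N := fun i => (b i).2.1
  have hgr' : ∀ i, g i ∈ fgr dg r := fun i => (b i).2.2
  have hhom : ∀ i, HomVec dg r (π (Pi.single i 1)) := by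
    intro i
    rw [hπs]; exact hgr' i
  have hle : LinearMap.range π ≤ N := by
    rintro _ ⟨f, rfl⟩
    rw [apply_eq_sum]
    refine N.sum_mem fun i _ => N.smul_mem _ ?_
    rw [hπs]; exact hgN i
  -- the pieces lie in the range
  have hP : ∀ f ∈ P, f ∈ LinearMap.range π := by
    intro f hf
    have h1 := b.sum_repr ⟨f, hf⟩
    have h2 := congrArg (fun x : P => (x : Fin m → MvPolynomial V K)) h1
    simp only [Submodule.coe_sum, Submodule.coe_smul] at h2
    rw [← h2]
    refine Submodule.sum_mem _ fun i _ => ?_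
    have : ((b.repr ⟨f, hf⟩) i) • (b i : Fin m → MvPolynomial V K)
        = (C ((b.repr ⟨f, hf⟩) i) : MvPolynomial V K) • g i := by
      funext j
      rw [Pi.smul_apply, Pi.smul_apply, smul_eq_mul, smul_eq_C_mul]
    rw [this]
    refine Submodule.smul_mem _ _ ?_
    rw [← hπs]
    exact LinearMap.mem_range_self π _
  have hpieces : ∀ d, ∀ f ∈ N, f ∈ fgr dg (r + d) → f ∈ LinearMap.range π := by
    intro d
    induction d with
    | zero => intro f hf1 hf2; exact hP f ⟨hf1, hf2⟩
    | succ d ih =>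
      intro f hf1 hf2
      obtain ⟨y, hy1, _, hy3⟩ := hkr (r + d) (by omega) (Fintype.card V)
        (fun σ => if σ = univ then f else 0)
        (fun σ => by
          by_cases h : σ = univ
          · rw [if_pos h, mem_ngr]; exact ⟨hf2, hf1⟩
          · rw [if_neg h]; exact AddSubgroup.zero_mem _)
        (fun σ hσ => by
          by_cases h : σ = univ
          · rw [h, Finset.card_univ]
          · rw [if_neg h] at hσ; exact absurd rfl hσ)
        (fun σ => by
          refine kd_eq_zero fun v _ => ?_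
          rw [if_neg]
          intro h
          have := Finset.mem_univ v
          rw [← h] at this
          exact Finset.notMem_erase v σ this)
      have h1 := hy3 univ
      rw [if_pos rfl] at h1
      rw [← h1]
      unfold kd
      refine Submodule.sum_mem _ fun v _ => Submodule.smul_mem _ _ ?_
      have := mem_ngr.1 (hy1 (univ.erase v))
      exact ih _ this.2 this.1
  have hrange : LinearMap.range π = N := by
    refine le_antisymm hle fun f hf => ?_
    obtain ⟨M, hM⟩ := sum_comp dg f
    rw [hM]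
    refine Submodule.sum_mem _ fun e _ => ?_
    rcases Nat.lt_or_ge e r with h | h
    · rw [hlow e h _ (hgr f hf e) (comp_mem _ _ _)]
      exact Submodule.zero_mem _
    · obtain ⟨d, rfl⟩ := Nat.exists_eq_add_of_le h
      exact hpieces d _ (hgr f hf _) (comp_mem _ _ _)
  refine ⟨m', π, hrange, hhom, ?_, ?_, ?_⟩
  · intro f hf e
    rw [LinearMap.mem_ker] at hf ⊢
    rw [← comp_map (dg := dg) (dg' := fun _ => r) hhom, hf, comp_zero]
  · intro e he q
    obtain ⟨e', rfl⟩ : ∃ e', e = e' + 1 := ⟨e - 1, by omega⟩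
    rw [← kgr_eq]
    have hb := hrange.symm
    refine chase2 (π := π) (ℬ := ngr N (fgr dg)) (gr_fgr _) ?_ ?_ (kr_fgr (fun i => by omega) q)
      (fun q' _ => hkr e' (by omega) q')
    · intro e b hb
      rw [← hrange] at hb
      exact lift_range (dg' := fun _ => r) hhom e b hb
    · intro e a ha
      rw [← hrange]
      exact map_range (dg' := fun _ => r) hhom e a ha
  · intro e he f hf hfe
    rcases Nat.lt_or_ge e r with h | h
    · funext i
      ext c
      rw [Pi.zero_apply, coeff_zero]
      by_contra hne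
      have := (mem_fgr.1 hfe) i c hne
      omega
    · obtain rfl : e = r := by omega
      have hC : ∀ i, f i = C (coeff 0 (f i)) := by
        intro i
        ext c
        rw [coeff_C]
        by_cases hc : 0 = c
        · rw [if_pos hc, hc]
        · rw [if_neg hc]
          by_contra hne
          have h1 := (mem_fgr.1 hfe) i c hne
          have h2 : c.degree = 0 := by omega
          rw [Finsupp.degree_eq_zero_iff] at h2
          exact hc h2.symm
      rw [LinearMap.mem_ker, apply_eq_sum] at hf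
      have h3 : ∑ i, coeff 0 (f i) • b i = 0 := by
        apply Subtype.ext
        rw [Submodule.coe_sum]
        simp only [Submodule.coe_smul, Submodule.coe_zero]
        rw [← hf]
        refine Finset.sum_congr rfl fun i _ => ?_
        rw [hπs]
        funext j
        rw [Pi.smul_apply, Pi.smul_apply, smul_eq_mul, smul_eq_C_mul, ← hC i]
      have h4 := (Fintype.linearIndependent_iff.1 b.linearIndependent) _ h3
      funext i
      rw [hC i, h4 i, C_0]; rfl

/-- the data of a stage of the linear resolution -/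
structure Stage (V K : Type*) [Fintype V] [LinearOrder V] [Field K] (r : ℕ) where
  m : ℕ
  N : Submodule (MvPolynomial V K) (Fin m → MvPolynomial V K)
  gr : ∀ f ∈ N, ∀ e, comp (fun _ => r) e f ∈ N
  kr : ∀ e, r + 1 ≤ e → ∀ q, KR V K (ngr N (fgr (fun _ => r))) e q
  low : ∀ e, e < r + 1 → ∀ f ∈ N, f ∈ fgr (fun _ => r) e → f = 0

lemma Stage.next {r : ℕ} (T : Stage V K r) : ∃ (T' : Stage V K (r + 1))
    (π : (Fin T'.m → MvPolynomial V K) →ₗ[MvPolynomial V K] (Fin T.m → MvPolynomial V K)),
    LinearMap.range π = T.N ∧ LinearMap.ker π = T'.N ∧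
      ∀ i, HomVec (fun _ => r) (r + 1) (π (Pi.single i 1)) := by
  obtain ⟨m', π, h1, h2, h3, h4, h5⟩ := lin_step (fun _ => r) T.N (r + 1) T.gr T.kr T.low
  exact ⟨⟨m', LinearMap.ker π, h3, h4, h5⟩, π, h1, rfl, h2⟩

/-- the sequence of stages -/
noncomputable def Stage.seq {r : ℕ} (T : Stage V K r) : (k : ℕ) → Stage V K (r + k)
  | 0 => T
  | k + 1 => (Stage.seq T k).next.choose

lemma exists_seq {r : ℕ} (T : Stage V K r) : ∃ (S : (k : ℕ) → Stage V K (r + k)) (_ : S 0 = T)
    (π : ∀ k, (Fin (S (k + 1)).m → MvPolynomial V K) →ₗ[MvPolynomial V K]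
      (Fin (S k).m → MvPolynomial V K)),
    ∀ k, LinearMap.range (π k) = (S k).N ∧ LinearMap.ker (π k) = (S (k + 1)).N ∧
      ∀ i, HomVec (fun _ => r + k) (r + k + 1) (π k (Pi.single i 1)) :=
  ⟨T.seq, rfl, fun k => (T.seq k).next.choose_spec.choose,
    fun k => (T.seq k).next.choose_spec.choose_spec⟩

lemma isHomogeneous_of_coeff {p : MvPolynomial V K} {n : ℕ}
    (h : ∀ c, coeff c p ≠ 0 → c.degree = n) : p.IsHomogeneous n := by
  intro c hc
  have h1 := h c hc
  rw [Finsupp.degree_eq_weight_one] at h1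
  exact h1

/-- Koszul regularity gives a linear resolution -/
theorem linearRes_of_kr {J : Ideal (MvPolynomial V K)} {r : ℕ}
    (hgr : ∀ f ∈ vecIdeal J, ∀ e, comp (fun _ => 0) e f ∈ vecIdeal J)
    (hkr : ∀ e, r ≤ e → ∀ q, KR V K (ngr (vecIdeal J) (fgr (fun _ => 0))) e q)
    (hlow : ∀ e, e < r → ∀ f ∈ vecIdeal J, f ∈ fgr (fun _ => 0) e → f = 0) :
    HasLinearRes J r := by
  obtain ⟨T, π0, g1, g2, g3⟩ : ∃ (T : Stage V K r)
      (π0 : (Fin T.m → MvPolynomial V K) →ₗ[MvPolynomial V K] (Fin 1 → MvPolynomial V K)),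
      LinearMap.range π0 = vecIdeal J ∧ LinearMap.ker π0 = T.N ∧
      ∀ i, HomVec (fun _ => 0) r (π0 (Pi.single i 1)) := by
    obtain ⟨m', π, h1, h2, h3, h4, h5⟩ := lin_step (fun _ => 0) (vecIdeal J) r hgr hkr hlow
    exact ⟨⟨m', LinearMap.ker π, h3, h4, h5⟩, π, h1, rfl, h2⟩
  obtain ⟨S, rfl, π, hπ⟩ := exists_seq T
  refine ⟨{ rk := fun k => (S k).m
            dg := fun k _ => k + r
            aug := (LinearMap.proj 0 : (Fin 1 → MvPolynomial V K)
              →ₗ[MvPolynomial V K] MvPolynomial V K) ∘ₗ π0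
            bd := π
            aug_hom := ?_
            bd_hom := ?_
            range_aug := ?_
            exact_zero := ?_
            exact_succ := ?_ }, fun k i => rfl⟩
  · intro i
    refine isHomogeneous_of_coeff fun c hc => ?_
    have h1 : c.degree + 0 = r := g3 i 0 c (mem_support_iff.2 hc)
    rw [zero_add, ← h1, add_zero]
  · intro k i j c hc
    have h1 : c.degree + (r + k) = r + k + 1 := (hπ k).2.2 i j c hc
    show c.degree + (k + r) = k + 1 + r
    omega
  · ext p
    rw [LinearMap.mem_range]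
    constructor
    · rintro ⟨f, rfl⟩
      have : π0 f ∈ vecIdeal J := by rw [← g1]; exact LinearMap.mem_range_self π0 f
      exact mem_vecIdeal.1 this
    · intro hp
      have : toVec p ∈ vecIdeal J := mem_vecIdeal.2 hp
      rw [← g1] at this
      obtain ⟨f, hf⟩ := this
      exact ⟨f, by rw [LinearMap.comp_apply, hf]; rfl⟩
  · rw [(hπ 0).1, ← g2]
    ext f
    rw [LinearMap.mem_ker, LinearMap.mem_ker, LinearMap.comp_apply]
    show (π0 f) 0 = 0 ↔ π0 f = 0
    constructor
    · intro h
      funext i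
      rw [Subsingleton.elim i 0, h]; rfl
    · intro h
      rw [h]; rfl
  · intro k
    rw [(hπ k).2.1, (hπ (k + 1)).1]

end Pool.Agent.Helper66.Gap
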