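import Pool.Agent.Helper66.Gap.Fam

/-!
From the level families to the degree complexes of powers of edge ideals.
-/

namespace Pool.Agent.Helper66.Gap

open Finset

set_option linter.unusedSectionVars false

variable {V : Type*} [Fintype V] [LinearOrder V] {K : Type*} [Field K]
variable {G : SimpleGraph V} {a : V →₀ ℕ}

/-! ### Lower level sets -/

/-- independent sets of packing defect at least `t` -/
def Low (G : SimpleGraph V) (a : V →₀ ℕ) (W : Finset V) (t : ℕ) (F : Finset V) : Prop :=
  F ⊆ W ∧ Indep G F ∧ t ≤ rho G a (nb G W F)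

lemma convex_low (W : Finset V) (t : ℕ) : Convex (Low G a W t) := by
  intro r s u hr hu hrs hsu
  refine ⟨hsu.trans hu.1, hu.2.1.subset hsu, ?_⟩
  have h2 := rho_mono (G := G) (a := a) (nb_anti (G := G) (W := W) hsu)
  have h4 := hu.2.2
  omega

lemma low_exact (hG : GapFree G) (W : Finset V) : ∀ (d t j : ℕ), wt a W + 1 ≤ t + d → 1 ≤ t →
    wt a W + 2 ≤ j + 2 * t → Exact K (Low G a W t) j := by
  intro d
  induction d with
  | zero =>
    intro t j hd _ _
    refine exact_of_no_card fun s hs => ?_
    exfalso
    have h1 := hs.2.2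
    have h2 := wt_mono (a := a) (nb_subset (G := G) W s)
    unfold rho at h1
    omega
  | succ d ih =>
    intro t j hd ht hj
    refine exact_of_lower_upper (convex_low W t) (L := Low G a W (t + 1)) (U := Fam G a W t)
      ?_ ?_ (ih (t + 1) j (by omega) (by omega) (by omega))
      (fam_exact hG W.card W rfl t j (Or.inl ht) hj)
    · intro s
      unfold Low Fam
      constructor
      · rintro ⟨h1, h2, h3⟩
        rcases Nat.lt_or_ge t (rho G a (nb G W s)) with h | h
        · exact Or.inl ⟨h1, h2, h⟩
        · exact Or.inr ⟨h1, h2, le_antisymm h h3⟩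
      · rintro (⟨h1, h2, h3⟩ | ⟨h1, h2, h3⟩)
        · exact ⟨h1, h2, by omega⟩
        · exact ⟨h1, h2, by omega⟩
    · intro s u hs hu hsu
      have h2 := rho_mono (G := G) (a := a) (nb_anti (G := G) (W := W) hsu)
      have h3 := hs.2.2
      have h4 := hu.2.2
      omega

/-! ### Conversion of steps -/

/-- lower families -/
def Lower (P : Finset V → Prop) : Prop := ∀ s t, P t → s ⊆ t → P s

lemma Lower.convex {P : Finset V → Prop} (h : Lower P) : Convex P :=
  fun _ s t _ ht _ hst => h s t ht hst

lemma exact_convert {P1 P2 P3 : Finset V → Prop} (v : V) (l1 : Lower P1) (l2 : Lower P2)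
    (l3 : Lower P3) (h12 : ∀ s, v ∉ s → (P1 s ↔ P2 s))
    (h13 : ∀ s, v ∉ s → (P1 (insert v s) ↔ P3 s))
    (h23 : ∀ s, v ∉ s → (P2 (insert v s) ↔ P3 (insert v s)))
    (h32 : ∀ s, P3 s → P2 s) {j : ℕ} (e2 : Exact K P2 j) (e3 : ∀ i, i + 1 = j → Exact K P3 i) :
    Exact K P1 j := by
  have hU : Exact K (fun s => P2 s ∧ ¬ P3 s) j := by
    refine exact_upper l2.convex (L := P3) ?_ ?_ e2 e3
    · intro s
      by_cases h : P3 s
      · simp [h, h32 s h]
      · simp [h]
    · intro s t hs ht hst
      exact hs.2 (l3 s t ht hst)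
  refine exact_of_lower_upper l1.convex (L := fun s => P1 s ∧ P3 (s.erase v))
    (U := fun s => P1 s ∧ ¬ P3 (s.erase v)) ?_ ?_ ?_ ?_
  · intro s
    by_cases h : P3 (s.erase v)
    · simp [h]
    · simp [h]
  · intro s t hs ht hst
    exact hs.2 (l3 _ _ ht.2 (Finset.erase_subset_erase v hst))
  · refine exact_of_toggle v (fun s hs => ?_) j
    rw [Finset.erase_eq_of_notMem hs, Finset.erase_insert hs, h13 s hs]
    constructor
    · rintro ⟨_, h⟩; exact ⟨h, h⟩
    · rintro ⟨h, _⟩; exact ⟨(h12 s hs).2 (h32 s h), h⟩
  · refine hU.congr fun s => ?_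
    by_cases hv : v ∈ s
    · have e : s = insert v (s.erase v) := (Finset.insert_erase hv).symm
      have hn := Finset.notMem_erase v s
      have k1 := h13 _ hn
      have k2 := h23 _ hn
      rw [← e] at k1 k2
      rw [k1, k2]
      simp
    · rw [Finset.erase_eq_of_notMem hv, h12 s hv]

/-! ### Step families -/

/-- indicator exponent -/
noncomputable def ind (S : Finset V) : V →₀ ℕ :=
  Finsupp.onFinset S (fun v => if v ∈ S then 1 else 0) (by intro v hv; by_contra h; simp [h] at hv)

lemma ind_apply (S : Finset V) (v : V) : ind S v = if v ∈ S then 1 else 0 := rfl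

/-- step families: finite steps in `A`, infinite steps in `B` -/
def Stp (Q : (V →₀ ℕ) → Prop) (a : V →₀ ℕ) (A B : Finset V) (τ : Finset V) : Prop :=
  τ ⊆ A ∪ B ∧ ∀ N : ℕ, ¬ Q (a + ind (τ ∩ A) + N • ind (τ ∩ B))

lemma lower_stp {Q : (V →₀ ℕ) → Prop} (hQ : ∀ c c', c ≤ c' → Q c → Q c') (a : V →₀ ℕ)
    (A B : Finset V) : Lower (Stp Q a A B) := by
  intro s t ht hst
  refine ⟨hst.trans ht.1, fun N h => ht.2 N (hQ _ _ ?_ h)⟩
  intro v
  simp only [Finsupp.coe_add, Finsupp.coe_smul, Pi.add_apply, Pi.smul_apply, ind_apply,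
    Finset.mem_inter, smul_eq_mul]
  refine add_le_add (add_le_add le_rfl ?_) (Nat.mul_le_mul_left _ ?_)
  · by_cases h : v ∈ s ∧ v ∈ A
    · rw [if_pos h, if_pos ⟨hst h.1, h.2⟩]
    · rw [if_neg h]; exact Nat.zero_le _
  · by_cases h : v ∈ s ∧ v ∈ B
    · rw [if_pos h, if_pos ⟨hst h.1, h.2⟩]
    · rw [if_neg h]; exact Nat.zero_le _

lemma wt_univ_add_single (a : V →₀ ℕ) (v : V) :
    wt (a + Finsupp.single v 1) univ = wt a univ + 1 := by
  unfold wt
  simp [Finset.sum_add_distrib, Finsupp.single_apply]

lemma stp_exact {Q : (V →₀ ℕ) → Prop} (hQ : ∀ c c', c ≤ c' → Q c → Q c') (r : ℕ) (U : Finset V)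
    (h : ∀ (a : V →₀ ℕ) (j : ℕ), a.support ⊆ U → r ≤ wt a univ + j → Exact K (Stp Q a ∅ U) j) :
    ∀ (n : ℕ) (A B : Finset V) (a : V →₀ ℕ) (j : ℕ), A.card = n → Disjoint A B → A ∪ B = U →
      a.support ⊆ U → r ≤ wt a univ + j → Exact K (Stp Q a A B) j := by
  intro n
  induction n with
  | zero =>
    intro A B a j hA _ hAB ha hr
    rw [Finset.card_eq_zero] at hA
    subst hA
    rw [Finset.empty_union] at hAB
    subst hAB
    exact h a j ha hr
  | succ n ih =>
    intro A B a j hA hd hAB ha hr
    obtain ⟨v, hv⟩ : A.Nonempty := by rw [← Finset.card_pos]; omega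
    have hvB : v ∉ B := Finset.disjoint_left.1 hd hv
    have hU : A.erase v ∪ insert v B = U := by
      rw [← hAB]; ext w
      simp only [Finset.mem_union, Finset.mem_erase, Finset.mem_insert]
      by_cases hw : w = v
      · subst hw; simp [hv]
      · simp [hw]
    have hd' : Disjoint (A.erase v) (insert v B) := by
      rw [Finset.disjoint_insert_right]
      exact ⟨Finset.notMem_erase v A, Finset.disjoint_of_subset_left (Finset.erase_subset _ _) hd⟩
    have hc' : (A.erase v).card = n := by rw [Finset.card_erase_of_mem hv]; omega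
    have hvU : v ∈ U := by rw [← hAB]; exact Finset.mem_union_left _ hv
    refine exact_convert v (lower_stp hQ a A B) (lower_stp hQ a (A.erase v) (insert v B))
      (lower_stp hQ (a + Finsupp.single v 1) (A.erase v) (insert v B)) ?_ ?_ ?_ ?_
      (ih (A.erase v) (insert v B) a j hc' hd' hU ha hr)
      (fun i hi => ih (A.erase v) (insert v B) (a + Finsupp.single v 1) i hc' hd' hU ?_ ?_)
    · intro s hs
      unfold Stp
      have e1 : s ∩ A.erase v = s ∩ A := by
        ext w; simp only [Finset.mem_inter, Finset.mem_erase]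
        constructor
        · rintro ⟨p, _, q⟩; exact ⟨p, q⟩
        · rintro ⟨p, q⟩; exact ⟨p, fun h => hs (h ▸ p), q⟩
      have e2 : s ∩ insert v B = s ∩ B := by
        ext w; simp only [Finset.mem_inter, Finset.mem_insert]
        constructor
        · rintro ⟨p, (q | q)⟩
          · exact absurd (q ▸ p) hs
          · exact ⟨p, q⟩
        · rintro ⟨p, q⟩; exact ⟨p, Or.inr q⟩
      rw [e1, e2, hU, hAB]
    · intro s hs
      unfold Stp
      have e1 : ind (insert v s ∩ A) = Finsupp.single v 1 + ind (s ∩ A.erase v) := by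
        ext w
        simp only [Finsupp.coe_add, Pi.add_apply, ind_apply, Finset.mem_inter, Finset.mem_insert,
          Finset.mem_erase, Finsupp.single_apply]
        by_cases hw : v = w
        · subst hw; simp [hv]
        · have hw' : w ≠ v := fun h => hw h.symm
          simp [hw, hw']
      have e2 : insert v s ∩ B = s ∩ insert v B := by
        ext w
        simp only [Finset.mem_inter, Finset.mem_insert]
        constructor
        · rintro ⟨(p | p), q⟩
          · exact absurd (p ▸ q) hvB
          · exact ⟨p, Or.inr q⟩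
        · rintro ⟨p, (q | q)⟩
          · exact absurd (q ▸ p) hs
          · exact ⟨Or.inr p, q⟩
      rw [e1, e2, hU, hAB, Finset.insert_subset_iff]
      simp only [hvU, true_and, add_assoc]
    · intro s hs
      unfold Stp
      have e1 : insert v s ∩ A.erase v = s ∩ A.erase v := by
        ext w
        simp only [Finset.mem_inter, Finset.mem_insert, Finset.mem_erase]
        constructor
        · rintro ⟨(p | p), q, r⟩
          · exact absurd p q
          · exact ⟨p, q, r⟩
        · rintro ⟨p, q, r⟩; exact ⟨Or.inr p, q, r⟩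
      have e2 : ind (insert v s ∩ insert v B) = Finsupp.single v 1 + ind (s ∩ B) := by
        ext w
        simp only [Finsupp.coe_add, Pi.add_apply, ind_apply, Finset.mem_inter, Finset.mem_insert,
          Finsupp.single_apply]
        by_cases hw : v = w
        · subst hw; simp [hs]
        · have hw' : w ≠ v := fun h => hw h.symm
          simp [hw, hw']
      rw [e1, e2]
      refine and_congr_right fun _ => ?_
      constructor
      · intro hN N hq
        refine hN (N + 1) (hQ _ _ ?_ hq)
        intro w
        simp only [Finsupp.coe_add, Finsupp.coe_smul, Pi.add_apply, Pi.smul_apply, smul_eq_mul]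
        nlinarith [Nat.zero_le (ind (s ∩ B) w)]
      · intro hN N hq
        refine hN N (hQ _ _ ?_ hq)
        intro w
        simp only [Finsupp.coe_add, Finsupp.coe_smul, Pi.add_apply, Pi.smul_apply, smul_eq_mul]
        omega
    · intro s hs
      refine ⟨hs.1, fun N hq => hs.2 N (hQ _ _ ?_ hq)⟩
      intro w
      simp only [Finsupp.coe_add, Finsupp.coe_smul, Pi.add_apply, Pi.smul_apply, smul_eq_mul]
      omega
    · refine Finsupp.support_add.trans (Finset.union_subset ha ?_)
      refine Finsupp.support_single_subset.trans ?_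
      rw [Finset.singleton_subset_iff]; exact hvU
    · rw [wt_univ_add_single]; omega

/-! ### The infinite step families of packings -/

lemma support_rs {a : V →₀ ℕ} {U : Finset V} (ha : a.support ⊆ U) : rs a U = a := by
  ext v
  rw [rs_apply]
  by_cases hv : v ∈ U
  · rw [if_pos hv]
  · rw [if_neg hv]
    have : v ∉ a.support := fun h => hv (ha h)
    rw [Finsupp.notMem_support_iff] at this
    exact this.symm

lemma wt_support {a : V →₀ ℕ} {U : Finset V} (ha : a.support ⊆ U) : wt a U = wt a univ := by
  refine Finset.sum_subset (Finset.subset_univ U) fun v _ hv => ?_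
  have : v ∉ a.support := fun h => hv (ha h)
  rwa [Finsupp.notMem_support_iff] at this

lemma wt_add_nsmul_ind {a : V →₀ ℕ} {τ X : Finset V} (h : ∀ v ∈ X, v ∉ τ) (N : ℕ) :
    wt (a + N • ind τ) X = wt a X := by
  unfold wt
  refine Finset.sum_congr rfl fun v hv => ?_
  simp [ind_apply, h v hv]

lemma nb_nbr_partition (U τ : Finset V) : U \ nbr G U τ = nb G U τ := by
  ext v
  rw [Finset.mem_sdiff, mem_nbr, mem_nb]
  constructor
  · rintro ⟨h1, h2⟩
    exact ⟨h1, fun f hf hfv => h2 ⟨h1, f, hf, hfv⟩⟩
  · rintro ⟨h1, h2⟩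
    exact ⟨h1, fun ⟨_, f, hf, hfv⟩ => h2 f hf hfv⟩

/-- the infinite step families -/
lemma inf_step {U τ : Finset V} (ha : a.support ⊆ U) (hτ : τ ⊆ U) (s : ℕ) :
    (∀ N : ℕ, ¬ Pk G (a + N • ind τ) s) ↔
      Indep G τ ∧ wt a (nbr G U τ) + nu G a (nb G U τ) < s := by
  classical
  constructor
  · intro h
    have hi : Indep G τ := by
      intro u hu v hv huv
      refine h s ⟨Multiset.replicate s (u, v), ?_, by simp, ?_⟩
      · intro p hp
        rw [Multiset.eq_of_mem_replicate hp]; exact huv
      · have e : load (Multiset.replicate s (u, v))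
            = s • (Finsupp.single u 1 + Finsupp.single v 1) := by
          unfold load
          rw [Multiset.map_replicate, Multiset.sum_replicate]
        rw [e]
        refine le_trans ?_ (le_add_self (a := s • ind τ) (b := a))
        intro w
        simp only [Finsupp.coe_add, Finsupp.coe_smul, Pi.add_apply, Pi.smul_apply, smul_eq_mul,
          Finsupp.single_apply, ind_apply]
        refine Nat.mul_le_mul_left _ ?_
        have hne : u ≠ v := huv.ne
        by_cases h1 : u = w
        · subst h1
          simp [hu, hne.symm]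
        · by_cases h2 : v = w
          · subst h2; simp [hv, h1]
          · simp [h1, h2]
    refine ⟨hi, ?_⟩
    by_contra hc
    push Not at hc
    set N := wt a univ with hN
    set b := a + N • ind τ with hb
    apply h N
    refine Pk.le ?_ hc
    have hdisj : Disjoint (nbr G U τ) τ := by
      rw [Finset.disjoint_left]
      intro v hv hvτ
      obtain ⟨_, f, hf, hfv⟩ := mem_nbr.1 hv
      exact hi f hf v hvτ hfv
    have e0 : ∀ X ⊆ nbr G U τ, wt b X = wt a X := fun X hX =>
      wt_add_nsmul_ind (fun v hv => Finset.disjoint_left.1 hdisj (hX hv)) N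
    have p1 : Pk G (rs b (nbr G U τ ∪ τ)) (wt b (nbr G U τ)) := by
      refine hall_pack G b hdisj ?_
      intro T' hT'
      rw [e0 T' hT']
      rcases T'.eq_empty_or_nonempty with rfl | ⟨t, ht⟩
      · simp [wt]
      · obtain ⟨_, f, hf, hft⟩ := mem_nbr.1 (hT' ht)
        calc wt a T' ≤ wt a univ := wt_mono (Finset.subset_univ _)
          _ ≤ b f := by
            simp [hb, ind_apply, hf, hN]
          _ ≤ _ := by
            refine Finset.single_le_sum (f := fun v => b v) (fun _ _ => Nat.zero_le _) ?_
            exact Finset.mem_filter.2 ⟨hf, t, ht, hft.symm⟩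
    rw [e0 _ (Finset.Subset.refl _)] at p1
    have hτnb : τ ⊆ nb G U τ := subset_nb hτ hi
    have p2 : Pk G (rs a (nb G U τ \ τ)) (nu G a (nb G U τ)) := by
      rw [pk_iff, nu_isolated]
      intro c hc b hb _
      exact (mem_nb.1 hb).2 c hc
    refine (p1.add p2).mono ?_
    intro v
    simp only [Finsupp.coe_add, Pi.add_apply, rs_apply]
    have hva : a v ≤ b v := by simp [hb]
    by_cases h1 : v ∈ nbr G U τ ∪ τ
    · rw [if_pos h1, if_neg]
      · rw [add_zero, hb]
        simp
      · intro h2
        rw [Finset.mem_sdiff] at h2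
        rcases Finset.mem_union.1 h1 with h3 | h3
        · obtain ⟨_, f, hf, hfv⟩ := mem_nbr.1 h3
          exact (mem_nb.1 h2.1).2 f hf hfv
        · exact h2.2 h3
    · rw [if_neg h1, zero_add]
      by_cases h2 : v ∈ nb G U τ \ τ
      · rw [if_pos h2]; exact hva
      · rw [if_neg h2]; exact Nat.zero_le _
  · rintro ⟨hi, hlt⟩ N hpk
    set b := a + N • ind τ with hb
    have hbU : b.support ⊆ U := by
      refine Finsupp.support_add.trans (Finset.union_subset ha ?_)
      intro v hv
      rw [Finsupp.mem_support_iff] at hv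
      by_contra hvU
      apply hv
      have : v ∉ τ := fun h => hvU (hτ h)
      simp [ind_apply, this]
    have hdisj : ∀ v ∈ nbr G U τ, v ∉ τ := by
      intro v hv hvτ
      obtain ⟨_, f, hf, hfv⟩ := mem_nbr.1 hv
      exact hi f hf v hvτ hfv
    rw [← support_rs hbU] at hpk
    obtain ⟨s1, s2, h1, h2, h3⟩ := hpk.split (nbr G U τ)
    have e1 : U ∩ nbr G U τ = nbr G U τ :=
      Finset.inter_eq_right.2 (fun v hv => (mem_nbr.1 hv).1)
    rw [e1, wt_add_nsmul_ind hdisj] at h2
    rw [nb_nbr_partition] at h3
    have h4 := h3.of_isolated (C := τ) (fun c hc b hb _ => (mem_nb.1 hb).2 c hc)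
    have h5 : Pk G (rs a (nb G U τ)) s2 := by
      refine h4.mono ?_
      intro v
      rw [rs_apply, rs_apply]
      by_cases hv : v ∈ nb G U τ \ τ
      · have hv' := Finset.mem_sdiff.1 hv
        rw [if_pos hv, if_pos hv'.1]
        simp [hb, ind_apply, hv'.2]
      · rw [if_neg hv]; exact Nat.zero_le _
    rw [pk_iff] at h5
    omega

/-- exactness of the infinite-step families of the powers -/
theorem inf_exact (hG : GapFree G) {n : ℕ}
    (hI : ∀ (U : Finset V) (j : ℕ), n ≤ j → 1 ≤ j → Exact K (fun F => F ⊆ U ∧ Indep G F) j)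
    {s r : ℕ} (hr1 : 2 * s ≤ r) (hr2 : n + s ≤ r + 1) {U : Finset V} (ha : a.support ⊆ U) {j : ℕ}
    (hj : r ≤ wt a univ + j) : Exact K (Stp (fun c => Pk G c s) a ∅ U) j := by
  have hdesc : ∀ τ, Stp (fun c => Pk G c s) a ∅ U τ ↔
      τ ⊆ U ∧ Indep G τ ∧ wt a univ + 1 ≤ s + rho G a (nb G U τ) := by
    intro τ
    unfold Stp
    rw [Finset.empty_union]
    refine and_congr_right fun hτ => ?_
    have e1 : τ ∩ U = τ := Finset.inter_eq_left.2 hτ
    have e2 : ind (τ ∩ (∅ : Finset V)) = 0 := by
      ext v; simp [ind_apply]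
    rw [e1, e2, add_zero, inf_step ha hτ s]
    refine and_congr_right fun hi => ?_
    have h1 := rho_add_nu (G := G) (a := a) (nb G U τ)
    have h2 : wt a (nb G U τ) + wt a (nbr G U τ) = wt a U := by
      rw [← nb_nbr_partition]
      exact wt_sdiff (fun v hv => (mem_nbr.1 hv).1)
    have h3 := wt_support ha
    omega
  by_cases hps : s ≤ wt a univ
  · have h1 : Exact K (Low G a U (wt a univ + 1 - s)) j := by
      refine low_exact hG U (wt a U + 1) _ j (by omega) (by omega) ?_
      rw [wt_support ha]
      omega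
    refine h1.congr fun τ => ?_
    rw [hdesc]
    unfold Low
    refine and_congr_right fun _ => and_congr_right fun _ => ?_
    omega
  · have h1 := hI U j (by omega) (by omega)
    refine h1.congr fun τ => ?_
    rw [hdesc]
    refine and_congr_right fun _ => ?_
    constructor
    · intro h; exact ⟨h, by omega⟩
    · rintro ⟨h, _⟩; exact h

/-! ### Shifting by a set -/

/-- shifting: from the link to the family, when all members contain `Y` -/
lemma exact_of_link : ∀ (Y : Finset V) {P : Finset V → Prop} (_ : ∀ s, P s → Y ⊆ s) {j : ℕ}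
    (_ : ∀ i, i + Y.card = j → Exact K (link P Y) i), Exact K P j := by
  intro Y
  induction Y using Finset.induction_on with
  | empty =>
    intro P _ j h
    refine (h j (by simp)).congr fun s => ?_
    unfold link; simp
  | insert x Y hx ih =>
    intro P hP j h
    refine exact_of_link_one (x := x) (fun s hs => hP s hs (Finset.mem_insert_self x Y)) ?_
    intro i hi
    refine ih (P := link P {x}) ?_ ?_
    · intro s hs y hy
      unfold link at hs
      have := hP _ hs.2 (Finset.mem_insert_of_mem hy)
      rcases Finset.mem_union.1 this with h1 | h1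
      · exact h1
      · rw [Finset.mem_singleton] at h1
        exact absurd (h1 ▸ hy) hx
    · intro i' hi'
      refine (h i' (by rw [Finset.card_insert_of_notMem hx]; omega)).congr fun s => ?_
      unfold link
      rw [Finset.disjoint_insert_right, Finset.disjoint_singleton_right, Finset.mem_union,
        Finset.union_assoc, Finset.union_comm Y {x}, ← Finset.insert_eq]
      constructor
      · rintro ⟨⟨h1, h2⟩, h3⟩
        exact ⟨h2, fun h => h.elim h1 hx, h3⟩
      · rintro ⟨h2, h1, h3⟩
        exact ⟨⟨fun h => h1 (Or.inl h), h2⟩, h3⟩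

/-- shifting: from the family to the link, when all members contain `Y` -/
lemma exact_link : ∀ (Y : Finset V) {P : Finset V → Prop} (_ : ∀ s, P s → Y ⊆ s) {j : ℕ}
    (_ : Exact K P (j + Y.card)), Exact K (link P Y) j := by
  intro Y
  induction Y using Finset.induction_on with
  | empty =>
    intro P _ j h
    rw [Finset.card_empty, add_zero] at h
    refine h.congr fun s => ?_
    unfold link; simp
  | insert x Y hx ih =>
    intro P hP j h
    rw [Finset.card_insert_of_notMem hx, ← add_assoc] at h
    have h1 := exact_link_one (x := x) (fun s hs => hP s hs (Finset.mem_insert_self x Y)) h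
    have h2 := ih (P := link P {x}) (by
      intro s hs y hy
      unfold link at hs
      have := hP _ hs.2 (Finset.mem_insert_of_mem hy)
      rcases Finset.mem_union.1 this with h1 | h1
      · exact h1
      · rw [Finset.mem_singleton] at h1
        exact absurd (h1 ▸ hy) hx) h1
    refine h2.congr fun s => ?_
    unfold link
    rw [Finset.disjoint_insert_right, Finset.disjoint_singleton_right, Finset.mem_union,
      Finset.union_assoc, Finset.union_comm Y {x}, ← Finset.insert_eq]
    constructor
    · rintro ⟨h2, h1, h3⟩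
      exact ⟨⟨fun h => h1 (Or.inl h), h2⟩, h3⟩
    · rintro ⟨⟨h1, h2⟩, h3⟩
      exact ⟨h2, fun h => h.elim h1 hx, h3⟩

/-! ### Multidegree families -/

/-- The multidegree `b` part of the Koszul complex of the monomial ideal given by `Q`. -/
def Jfam (Q : (V →₀ ℕ) → Prop) (b : V →₀ ℕ) (σ : Finset V) : Prop :=
  (∀ v, v ∉ σ → 1 ≤ b v) ∧ Q (b - ind σᶜ)

lemma jfam_contains {Q : (V →₀ ℕ) → Prop} {b : V →₀ ℕ} (σ : Finset V) (h : Jfam Q b σ) :
    (b.support)ᶜ ⊆ σ := by
  intro v hv
  by_contra hc
  have := h.1 v hc
  rw [Finset.mem_compl, Finsupp.notMem_support_iff] at hv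
  omega

lemma link_jfam (Q : (V →₀ ℕ) → Prop) (b : V →₀ ℕ) (τ : Finset V) :
    link (Jfam Q b) (b.support)ᶜ τ ↔
      τ ⊆ b.support ∧ Q ((b - ind b.support) + ind τ) := by
  unfold link Jfam
  constructor
  · rintro ⟨h1, h2, h3⟩
    have hτ : τ ⊆ b.support := by
      intro v hv
      have := Finset.disjoint_left.1 h1 hv
      simpa using this
    refine ⟨hτ, ?_⟩
    convert h3 using 1
    ext v
    simp only [Finsupp.coe_add, Finsupp.coe_tsub, Pi.add_apply, Pi.sub_apply, ind_apply,
      Finset.mem_compl, Finset.mem_union]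
    by_cases hb : v ∈ b.support
    · have : 1 ≤ b v := by
        rw [Finsupp.mem_support_iff] at hb; omega
      by_cases hv : v ∈ τ
      · simp only [hb, hv, if_true, true_or, not_true, if_false]; omega
      · simp [hb, hv]
    · have h0 : b v = 0 := by
        rwa [Finsupp.notMem_support_iff] at hb
      have hv : v ∉ τ := fun h => hb (hτ h)
      simp [hb, hv, h0]
  · rintro ⟨hτ, hQ⟩
    refine ⟨?_, ?_, ?_⟩
    · rw [Finset.disjoint_left]
      intro v hv
      simpa using hτ hv
    · intro v hv
      rw [Finset.mem_union, Finset.mem_compl] at hv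
      push Not at hv
      have := hv.2
      rw [Finsupp.mem_support_iff] at this
      omega
    · convert hQ using 1
      ext v
      simp only [Finsupp.coe_add, Finsupp.coe_tsub, Pi.add_apply, Pi.sub_apply, ind_apply,
        Finset.mem_compl, Finset.mem_union]
      by_cases hb : v ∈ b.support
      · have : 1 ≤ b v := by
          rw [Finsupp.mem_support_iff] at hb; omega
        by_cases hv : v ∈ τ
        · simp only [hb, hv, if_true, true_or, not_true, if_false]; omega
        · simp [hb, hv]
      · have h0 : b v = 0 := by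
          rwa [Finsupp.notMem_support_iff] at hb
        have hv : v ∉ τ := fun h => hb (hτ h)
        simp [hb, hv, h0]

lemma exact_full {U : Finset V} (hU : U.Nonempty) (j : ℕ) : Exact K (fun τ => τ ⊆ U) j := by
  obtain ⟨w, hw⟩ := hU
  refine exact_of_toggle w (fun s _ => ?_) j
  rw [Finset.insert_subset_iff]
  simp [hw]

/-- the split of the full simplex -/
lemma full_split {Q : (V →₀ ℕ) → Prop} (hQ : ∀ c c', c ≤ c' → Q c → Q c') (a : V →₀ ℕ)
    (U : Finset V) :
    Convex (fun τ : Finset V => τ ⊆ U) ∧
    (∀ τ, τ ⊆ U ↔ (τ ⊆ U ∧ ¬ Q (a + ind τ)) ∨ (τ ⊆ U ∧ Q (a + ind τ))) ∧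
    (∀ s t, (s ⊆ U ∧ Q (a + ind s)) → (t ⊆ U ∧ ¬ Q (a + ind t)) → ¬ s ⊆ t) := by
  refine ⟨fun r s t _ ht _ hst => hst.trans ht, fun τ => ?_, fun s t hs ht hst => ?_⟩
  · by_cases h : Q (a + ind τ)
    · simp [h]
    · simp [h]
  · refine ht.2 (hQ _ _ ?_ hs.2)
    intro v
    simp only [Finsupp.coe_add, Pi.add_apply, ind_apply]
    refine add_le_add le_rfl ?_
    by_cases h : v ∈ s
    · rw [if_pos h, if_pos (hst h)]
    · rw [if_neg h]; exact Nat.zero_le _

lemma wt_sub_ind (b : V →₀ ℕ) :
    wt (b - ind b.support) univ + b.support.card = wt b univ := by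
  have : b.support.card = ∑ v, ind b.support v := by
    simp only [ind_apply]
    rw [Finset.sum_ite_mem, Finset.univ_inter, Finset.sum_const, smul_eq_mul, mul_one]
  rw [this]
  unfold wt
  rw [← Finset.sum_add_distrib]
  refine Finset.sum_congr rfl fun v _ => ?_
  simp only [Finsupp.coe_tsub, Pi.sub_apply, ind_apply]
  by_cases hb : v ∈ b.support
  · rw [if_pos hb]
    rw [Finsupp.mem_support_iff] at hb; omega
  · rw [if_neg hb]; omega

/-- exactness of the multidegree families from the one-step families -/
lemma jfam_exact {Q : (V →₀ ℕ) → Prop} (hQ : ∀ c c', c ≤ c' → Q c → Q c') {r : ℕ}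
    (h : ∀ (U : Finset V) (a : V →₀ ℕ) (j : ℕ), a.support ⊆ U → r ≤ wt a univ + j →
      Exact K (Stp Q a U ∅) j) (b : V →₀ ℕ) (q : ℕ)
    (hq : r + Fintype.card V < wt b univ + q) : Exact K (Jfam Q b) q := by
  have hcard : b.support.card + (b.support)ᶜ.card = Fintype.card V := Finset.card_add_card_compl _
  rcases b.support.eq_empty_or_nonempty with hb | hb
  · refine exact_of_no_card fun s _ hs => ?_
    have h1 : wt b univ = 0 := by
      rw [← wt_sub_ind b, hb]
      have : b = 0 := Finsupp.support_eq_empty.1 hb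
      simp [this, wt]
    have h2 : s.card ≤ Fintype.card V := Finset.card_le_univ s
    omega
  · refine exact_of_link (b.support)ᶜ (fun s hs => jfam_contains s hs) ?_
    intro i hi
    have hw := wt_sub_ind b
    obtain ⟨f1, f2, f3⟩ := full_split hQ (b - ind b.support) b.support
    have hsupp : (b - ind b.support).support ⊆ b.support := by
      intro v hv
      rw [Finsupp.mem_support_iff] at hv ⊢
      simp only [Finsupp.coe_tsub, Pi.sub_apply] at hv
      omega
    refine (exact_upper f1 f2 f3 (exact_full hb i) (fun i' hi' => ?_)).congr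
      (fun τ => (link_jfam Q b τ).symm)
    refine (h b.support (b - ind b.support) i' hsupp (by omega)).congr fun τ => ?_
    unfold Stp
    rw [Finset.union_empty]
    refine and_congr_right fun hτ => ?_
    have e1 : τ ∩ b.support = τ := Finset.inter_eq_left.2 hτ
    have e2 : ∀ N : ℕ, N • ind (τ ∩ (∅ : Finset V)) = 0 := by
      intro N; ext v; simp [ind_apply]
    simp only [e1, e2, add_zero]
    simp

/-- the independence complexes from the multidegree families of the edge ideal -/
lemma indep_exact {n : ℕ}
    (h : ∀ (b : V →₀ ℕ) (q : ℕ), n + Fintype.card V < wt b univ + q →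
      Exact K (Jfam (fun c => Pk G c 1) b) q) (U : Finset V) (j : ℕ) (hj : n ≤ j) (hj1 : 1 ≤ j) :
    Exact K (fun F => F ⊆ U ∧ Indep G F) j := by
  rcases U.eq_empty_or_nonempty with hU | hU
  · subst hU
    refine exact_of_no_card fun s hs => ?_
    have : s = ∅ := Finset.subset_empty.1 hs.1
    rw [this, Finset.card_empty]; omega
  have hsupp : (ind U).support = U := by
    ext v; rw [Finsupp.mem_support_iff, ind_apply]; simp
  have hcard : U.card + Uᶜ.card = Fintype.card V := Finset.card_add_card_compl _
  have hw : wt (ind U) univ = U.card := by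
    unfold wt; simp [ind_apply]
  have h1 := h (ind U) (j + 1 + Uᶜ.card) (by omega)
  have h2 := exact_link Uᶜ (j := j + 1) (fun s hs => by
    have := jfam_contains s hs; rwa [hsupp] at this) h1
  have e3 : ∀ τ, link (Jfam (fun c => Pk G c 1) (ind U)) Uᶜ τ ↔ τ ⊆ U ∧ Pk G (0 + ind τ) 1 := by
    intro τ
    have := link_jfam (fun c => Pk G c 1) (ind U) τ
    rw [hsupp, tsub_self] at this
    exact this
  have h3 := h2.congr e3
  have hQ : ∀ c c' : V →₀ ℕ, c ≤ c' → Pk G c 1 → Pk G c' 1 := fun c c' hc hp => hp.mono hc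
  obtain ⟨f1, f2, f3⟩ := full_split (Q := fun c => Pk G c 1) hQ 0 U
  refine (exact_lower f1 f2 f3 (exact_full hU j) h3).congr fun τ => ?_
  refine and_congr_right fun _ => ?_
  rw [zero_add]
  constructor
  · intro hp u hu v hv huv
    apply hp
    refine ⟨{(u, v)}, ?_, by simp, ?_⟩
    · intro p hp
      rw [Multiset.mem_singleton] at hp
      rw [hp]; exact huv
    · intro w
      simp only [load, Multiset.map_singleton, Multiset.sum_singleton, Finsupp.coe_add,
        Pi.add_apply, Finsupp.single_apply, ind_apply]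
      have hne : u ≠ v := huv.ne
      by_cases h1 : u = w
      · subst h1
        simp [hu, hne.symm]
      · by_cases h2 : v = w
        · subst h2; simp [hv, h1]
        · simp [h1, h2]
  · rintro hi ⟨m, hm1, hm2, hm3⟩
    obtain ⟨p, rfl⟩ := Multiset.card_eq_one.1 hm2
    have hp := one_le_load (Multiset.mem_singleton_self p)
    have q1 := hm3 p.1
    have q2 := hm3 p.2
    rw [ind_apply] at q1 q2
    have t1 : p.1 ∈ τ := by
      by_contra h0; rw [if_neg h0] at q1; omega
    have t2 : p.2 ∈ τ := by
      by_contra h0; rw [if_neg h0] at q2; omega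
    exact hi _ t1 _ t2 (hm1 p (Multiset.mem_singleton_self p))

/-- The combinatorial core: regularity of powers in terms of the multidegree families. -/
theorem core (hG : GapFree G) {n : ℕ}
    (h : ∀ (b : V →₀ ℕ) (q : ℕ), n + Fintype.card V < wt b univ + q →
      Exact K (Jfam (fun c => Pk G c 1) b) q) {s r : ℕ} (hr1 : 2 * s ≤ r) (hr2 : n + s ≤ r + 1)
    (b : V →₀ ℕ) (q : ℕ) (hq : r + Fintype.card V < wt b univ + q) :
    Exact K (Jfam (fun c => Pk G c s) b) q := by
  have hQ : ∀ c c' : V →₀ ℕ, c ≤ c' → Pk G c s → Pk G c' s := fun c c' hc hp => hp.mono hc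
  refine jfam_exact hQ (r := r) ?_ b q hq
  intro U a j ha hj
  refine stp_exact hQ r U (fun a j ha hj => ?_) U.card U ∅ a j rfl (by simp) (by simp) ha hj
  exact inf_exact hG (fun U j hj hj1 => indep_exact h U j hj hj1) hr1 hr2 ha hj

end Pool.Agent.Helper66.Gap
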